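import Mathlib

/-!
# Exponential polynomials, truncated exponentials, logarithms, Jordan form

Taken from the starting files `Pool.Agent.H929R2.Hart.{U3, U18, U19, U20}` (with their proofs), so that
the large import closure of those files is not needed.
-/

set_option autoImplicit false

namespace Pool.Agent.D0H89.OF

section ExK

variable {σ : Type} [Fintype σ] [DecidableEq σ] {K : Type} [Field K]

/-- truncated exponential series of `t M` -/
noncomputable def exK (M : Matrix σ σ K) (m : ℕ) (t : K) : Matrix σ σ K :=
  ∑ j ∈ Finset.range (m + 1), (t ^ j * (j.factorial : K)⁻¹) • M ^ j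


lemma exK_eq [CharZero K] (M : Matrix σ σ K) (m : ℕ) (hM : M ^ (m + 1) = 0) (t : K) :
    exK M m t = IsNilpotent.exp (t • M) := by
  rw [IsNilpotent.exp_eq_sum (k := m + 1) (by rw [smul_pow, hM, smul_zero]), exK]
  refine Finset.sum_congr rfl (fun j _ => ?_)
  rw [smul_pow]
  ext a b
  simp only [Matrix.smul_apply, smul_eq_mul, Rat.smul_def]
  push_cast
  ring

lemma exK_add [CharZero K] (M : Matrix σ σ K) (m : ℕ) (hM : M ^ (m + 1) = 0) (s t : K) :
    exK M m (s + t) = exK M m s * exK M m t := by
  rw [exK_eq M m hM, exK_eq M m hM, exK_eq M m hM, add_smul]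
  apply IsNilpotent.exp_add_of_commute
  · exact ((Commute.refl M).smul_left s).smul_right t
  · exact ⟨m + 1, by rw [smul_pow, hM, smul_zero]⟩
  · exact ⟨m + 1, by rw [smul_pow, hM, smul_zero]⟩

lemma exK_zero (M : Matrix σ σ K) (m : ℕ) : exK M m 0 = 1 := by
  rw [exK, Finset.sum_eq_single 0]
  · simp
  · intro j _ hj
    rw [zero_pow hj, zero_mul, zero_smul]
  · intro h; exact absurd (Finset.mem_range.2 (Nat.succ_pos m)) h


lemma exK_commute (D N : Matrix σ σ K) (m : ℕ) (t : K) (h : Commute D N) :
    Commute D (exK N m t) := by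
  rw [exK]
  exact Commute.sum_right _ _ _ (fun j _ => (h.pow_right j).smul_right _)

lemma exK_pow [CharZero K] (N : Matrix σ σ K) (m : ℕ) (hN : N ^ (m + 1) = 0) (k : ℕ) :
    (exK N m 1) ^ k = exK N m (k : K) := by
  induction k with
  | zero => rw [pow_zero, Nat.cast_zero, exK_zero]
  | succ k ih =>
    rw [pow_succ, ih, Nat.cast_succ, exK_add N m hN]


end ExK

/-! ### Exponential polynomials -/

section ExpPoly

variable {K : Type} [Field K] [CharZero K]

lemma poly_zero_of_nat (p : Polynomial K) (h : ∀ k : ℕ, p.eval (k : K) = 0) : p = 0 := by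
  apply Polynomial.eq_zero_of_infinite_isRoot
  apply Set.Infinite.mono (s := Set.range (fun k : ℕ => (k : K)))
  · rintro _ ⟨k, rfl⟩
    exact h k
  · exact Set.infinite_range_of_injective Nat.cast_injective

/-- Independence of exponential polynomials. -/
theorem exp_poly (B : Finset K) (hB : ∀ β ∈ B, β ≠ 0) (Q : K → Polynomial K)
    (h : ∀ k : ℕ, ∑ β ∈ B, (Q β).eval (k : K) * β ^ k = 0) : ∀ β ∈ B, Q β = 0 := by
  classical
  induction B using Finset.induction_on generalizing Q with
  | empty => intro β hβ; exact absurd hβ (Finset.notMem_empty _)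
  | insert β0 B hβ0 ih =>
    have hB' : ∀ β ∈ B, β ≠ 0 := fun β hβ => hB β (Finset.mem_insert_of_mem hβ)
    have hβ00 : β0 ≠ 0 := hB β0 (Finset.mem_insert_self _ _)
    have inner : ∀ (n : ℕ) (Q : K → Polynomial K), (Q β0 = 0 ∨ (Q β0).natDegree < n) →
        (∀ k : ℕ, ∑ β ∈ insert β0 B, (Q β).eval (k : K) * β ^ k = 0) →
        ∀ β ∈ insert β0 B, Q β = 0 := by
      intro n
      induction n with
      | zero =>
        intro Q hn hQ
        have h0 : Q β0 = 0 := hn.resolve_right (by omega)
        have h1 := ih hB' Q (fun k => by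
          have h2 := hQ k
          rw [Finset.sum_insert hβ0, h0, Polynomial.eval_zero, zero_mul, zero_add] at h2
          exact h2)
        intro β hβ
        rcases Finset.mem_insert.1 hβ with rfl | hβ
        · exact h0
        · exact h1 β hβ
      | succ n ihn =>
        intro Q hn hQ
        by_cases h0 : Q β0 = 0
        · have h1 := ih hB' Q (fun k => by
            have h2 := hQ k
            rw [Finset.sum_insert hβ0, h0, Polynomial.eval_zero, zero_mul, zero_add] at h2
            exact h2)
          intro β hβ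
          rcases Finset.mem_insert.1 hβ with rfl | hβ
          · exact h0
          · exact h1 β hβ
        · set Q' : K → Polynomial K := fun β =>
            Polynomial.C β * Polynomial.taylor 1 (Q β) - Polynomial.C β0 * Q β with hQ'
          have h1 := ihn Q' (by
              by_cases h2 : Q' β0 = 0
              · exact Or.inl h2
              · right
                have h3 : Q' β0 = Polynomial.C β0 * (Polynomial.taylor 1 (Q β0) - Q β0) := by
                  simp only [hQ']; ring
                have h4 : (Polynomial.taylor 1 (Q β0) - Q β0).degree < (Q β0).degree := by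
                  have h5 := Polynomial.degree_sub_lt (p := Polynomial.taylor 1 (Q β0)) (q := Q β0)
                    (Polynomial.degree_taylor _ _)
                    (by rw [Ne, Polynomial.taylor_eq_zero]; exact h0)
                    (by
                      rw [Polynomial.leadingCoeff, Polynomial.leadingCoeff,
                        Polynomial.natDegree_taylor, Polynomial.coeff_taylor_natDegree]
                      rfl)
                  rwa [Polynomial.degree_taylor] at h5
                have h6 : Polynomial.taylor 1 (Q β0) - Q β0 ≠ 0 := by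
                  intro h7
                  apply h2
                  rw [h3, h7, mul_zero]
                rw [h3, Polynomial.natDegree_C_mul hβ00]
                have h8 := Polynomial.natDegree_lt_natDegree h6 h4
                have h9 := hn.resolve_left h0
                omega) (fun k => by
              have h2 := hQ k
              have h3 := hQ (k + 1)
              have h4 : ∑ β ∈ insert β0 B, (Q' β).eval (k : K) * β ^ k =
                  ∑ β ∈ insert β0 B, (Q β).eval ((k + 1 : ℕ) : K) * β ^ (k + 1) -
                  β0 * ∑ β ∈ insert β0 B, (Q β).eval (k : K) * β ^ k := by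
                rw [Finset.mul_sum, ← Finset.sum_sub_distrib]
                refine Finset.sum_congr rfl (fun β _ => ?_)
                simp only [hQ', Polynomial.eval_sub, Polynomial.eval_mul, Polynomial.eval_C,
                  Polynomial.taylor_eval]
                push_cast
                ring
              rw [h4, h2, h3, mul_zero, sub_zero])
          have h2 : ∀ β ∈ B, Q β = 0 := by
            intro β hβ
            by_contra hne
            have h3 := h1 β (Finset.mem_insert_of_mem hβ)
            simp only [hQ', sub_eq_zero] at h3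
            have h4 := congrArg Polynomial.leadingCoeff h3
            rw [Polynomial.leadingCoeff_mul, Polynomial.leadingCoeff_mul,
              Polynomial.leadingCoeff_C, Polynomial.leadingCoeff_C] at h4
            have h5 : (Polynomial.taylor 1 (Q β)).leadingCoeff = (Q β).leadingCoeff := by
              rw [Polynomial.leadingCoeff, Polynomial.natDegree_taylor,
                Polynomial.coeff_taylor_natDegree]
            rw [h5] at h4
            have h6 := mul_right_cancel₀ (Polynomial.leadingCoeff_ne_zero.2 hne) h4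
            rw [h6] at hβ
            exact hβ0 hβ
          exfalso
          apply h0
          apply poly_zero_of_nat
          intro k
          have h3 := hQ k
          rw [Finset.sum_insert hβ0, Finset.sum_eq_zero (fun β hβ => by
            rw [h2 β hβ, Polynomial.eval_zero, zero_mul]), add_zero] at h3
          exact (mul_eq_zero.1 h3).resolve_right (pow_ne_zero _ hβ00)
    exact inner ((Q β0).natDegree + 1) Q (Or.inr (Nat.lt_succ_self _)) h

theorem exp_poly' {ι : Type} (S : Finset ι) (A : ι → Polynomial K) (β : ι → K)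
    (hβ : ∀ s ∈ S, β s ≠ 0) (h : ∀ k : ℕ, ∑ s ∈ S, (A s).eval (k : K) * β s ^ k = 0)
    (k : ℕ) (t : K) : ∑ s ∈ S, (A s).eval t * β s ^ k = 0 := by
  classical
  set B := S.image β
  set Q : K → Polynomial K := fun b => ∑ s ∈ S.filter (fun s => β s = b), A s with hQ
  have key : ∀ (t : K) (k : ℕ), ∑ s ∈ S, (A s).eval t * β s ^ k =
      ∑ b ∈ B, (Q b).eval t * b ^ k := by
    intro t k
    rw [← Finset.sum_fiberwise_of_maps_to (s := S) (t := B) (g := β)
      (fun s hs => Finset.mem_image_of_mem β hs)]
    refine Finset.sum_congr rfl (fun b _ => ?_)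
    rw [hQ, Polynomial.eval_finsetSum, Finset.sum_mul]
    refine Finset.sum_congr rfl (fun s hs => ?_)
    rw [(Finset.mem_filter.1 hs).2]
  have h0 := exp_poly B (fun b hb => by
    obtain ⟨s, hs, rfl⟩ := Finset.mem_image.1 hb
    exact hβ s hs) Q (fun k => by rw [← key]; exact h k)
  rw [key]
  exact Finset.sum_eq_zero (fun b hb => by rw [h0 b hb, Polynomial.eval_zero, zero_mul])

end ExpPoly

/-! ### The logarithm of a unipotent matrix -/

section Log

variable {K : Type} [Field K] [CharZero K]

/-- the truncated exponential series -/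
noncomputable def eP (K : Type) [Field K] (m : ℕ) : Polynomial (Polynomial K) :=
  ∑ j ∈ Finset.range (m + 1), Polynomial.C (Polynomial.C ((j.factorial : K)⁻¹)) * Polynomial.X ^ j

lemma eP_eval (m : ℕ) (p : Polynomial K) : (eP K m).eval p =
    ∑ j ∈ Finset.range (m + 1), Polynomial.C ((j.factorial : K)⁻¹) * p ^ j := by
  rw [eP, Polynomial.eval_finsetSum]
  refine Finset.sum_congr rfl (fun j _ => ?_)
  rw [Polynomial.eval_mul, Polynomial.eval_C, Polynomial.eval_pow, Polynomial.eval_X]

lemma exists_logP (m : ℕ) (hm : 1 ≤ m) (k : ℕ) : ∃ p : Polynomial K, Polynomial.X ∣ p ∧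
    Polynomial.X ^ (k + 1) ∣ (eP K m).eval p - (1 + Polynomial.X) := by
  induction k with
  | zero =>
    refine ⟨0, dvd_zero _, ?_⟩
    have h1 : (eP K m).eval 0 = 1 := by
      rw [eP_eval, Finset.sum_eq_single 0]
      · simp
      · intro j _ hj
        rw [zero_pow hj, mul_zero]
      · intro h; exact absurd (Finset.mem_range.2 (by omega)) h
    rw [h1, zero_add, pow_one]
    exact ⟨-1, by ring⟩
  | succ k ih =>
    obtain ⟨p, hp, q, hq⟩ := ih
    set h := -(Polynomial.C (q.coeff 0) * Polynomial.X ^ (k + 1)) with hh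
    obtain ⟨w, hw⟩ := (eP K m).binomExpansion p h
    have hXh : (Polynomial.X : Polynomial K) ^ (k + 1) ∣ h := by
      rw [hh]; exact (dvd_neg).2 (Dvd.intro_left _ rfl)
    have hd : (Polynomial.X : Polynomial K) ∣ (eP K m).derivative.eval p - 1 := by
      have h1 := Polynomial.sub_dvd_eval_sub p 0 (eP K m).derivative
      rw [sub_zero] at h1
      have h2 : (eP K m).derivative.eval 0 = 1 := by
        rw [← Polynomial.coeff_zero_eq_eval_zero, Polynomial.coeff_derivative, eP,
          Polynomial.finsetSum_coeff, Finset.sum_eq_single 1]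
        · rw [Polynomial.coeff_C_mul, Polynomial.coeff_X_pow, if_pos (by norm_num)]
          simp
        · intro j _ hj
          rw [Polynomial.coeff_C_mul, Polynomial.coeff_X_pow, if_neg (fun h => hj (by omega)),
            mul_zero]
        · intro h; exact absurd (Finset.mem_range.2 (by omega)) h
      rw [h2] at h1
      exact hp.trans h1
    refine ⟨p + h, dvd_add hp (dvd_trans (dvd_pow_self _ (by omega)) hXh), ?_⟩
    have h3 : (eP K m).eval (p + h) - (1 + Polynomial.X) =
        Polynomial.X ^ (k + 1) * (q - Polynomial.C (q.coeff 0)) +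
          ((eP K m).derivative.eval p - 1) * h + w * h ^ 2 := by
      have h4 : (eP K m).eval p = Polynomial.X ^ (k + 1) * q + (1 + Polynomial.X) := by
        rw [← hq]; ring
      rw [hw, h4, hh]
      ring
    rw [h3]
    refine dvd_add (dvd_add ?_ ?_) ?_
    · rw [pow_succ]
      apply mul_dvd_mul_left
      rw [Polynomial.X_dvd_iff, Polynomial.coeff_sub, Polynomial.coeff_C_zero, sub_self]
    · rw [pow_succ', ]
      exact mul_dvd_mul hd hXh
    · apply Dvd.dvd.mul_left
      have h5 : (Polynomial.X : Polynomial K) ^ (k + 1 + 1) ∣ (Polynomial.X ^ (k + 1)) ^ 2 := by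
        rw [← pow_mul]
        exact pow_dvd_pow _ (by omega)
      exact h5.trans (pow_dvd_pow_of_dvd hXh 2)

variable {σ : Type} [Fintype σ] [DecidableEq σ]

lemma commute_aeval (s n : Matrix σ σ K) (hs : Commute s n) (p : Polynomial K) :
    Commute s (Polynomial.aeval n p) := by
  induction p using Polynomial.induction_on' with
  | add a b ha hb => rw [map_add]; exact ha.add_right hb
  | monomial k c =>
    rw [Polynomial.aeval_monomial, Algebra.algebraMap_eq_smul_one, smul_mul_assoc, one_mul]
    exact (hs.pow_right k).smul_right c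

theorem exists_log (n : Matrix σ σ K) (m : ℕ) (hn : n ^ (m + 1) = 0) : ∃ N : Matrix σ σ K,
    N ^ (m + 1) = 0 ∧ (∀ s, Commute s n → Commute s N) ∧ exK N m 1 = 1 + n := by
  rcases Nat.eq_zero_or_pos m with hm | hm
  · subst hm
    rw [zero_add, pow_one] at hn
    refine ⟨0, by simp, fun s _ => Commute.zero_right s, ?_⟩
    rw [hn, exK]
    simp
  obtain ⟨p, ⟨p', hp'⟩, q, hq⟩ := exists_logP (K := K) m hm m
  refine ⟨Polynomial.aeval n p, ?_, ?_, ?_⟩
  · rw [← map_pow, hp', mul_pow, map_mul, map_pow, Polynomial.aeval_X, hn, zero_mul]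
  · intro s hs
    exact commute_aeval s n hs p
  · have h1 : exK (Polynomial.aeval n p) m 1 = Polynomial.aeval n ((eP K m).eval p) := by
      rw [eP_eval, map_sum, exK]
      refine Finset.sum_congr rfl (fun j _ => ?_)
      rw [map_mul, Polynomial.aeval_C, map_pow, one_pow, one_mul, Algebra.smul_def]
    have h2 : (eP K m).eval p = Polynomial.X ^ (m + 1) * q + (1 + Polynomial.X) := by
      rw [← hq]; ring
    rw [h1, h2, map_add, map_mul, map_pow, Polynomial.aeval_X, hn, zero_mul, zero_add, map_add,
      map_one, Polynomial.aeval_X]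

end Log


section Jordan

variable {σ : Type} [Fintype σ] [DecidableEq σ] {K : Type} [Field K]

lemma exists_eigenbasis [IsAlgClosed K] (s : Module.End K (σ → K)) (hs : s.IsSemisimple) :
    ∃ (b : Module.Basis σ K (σ → K)) (μ : σ → K), ∀ i, s (b i) = μ i • b i := by
  classical
  let S : Set (σ → K) := {v | ∃ μ : K, s v = μ • v}
  have hS : Submodule.span K S = ⊤ := by
    rw [eq_top_iff, ← hs.iSup_eigenspace_eq_top, iSup_le_iff]
    intro μ v hv
    exact Submodule.subset_span ⟨μ, Module.End.mem_eigenspace_iff.1 hv⟩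
  let b0 := Module.Basis.ofSpan hS.ge
  have hb0 : ∀ i, b0 i ∈ S := fun i => Module.Basis.ofSpan_subset hS.ge ⟨i, rfl⟩
  haveI : Fintype ((linearIndepOn_empty K id).extend (Set.empty_subset S)) :=
    FiniteDimensional.fintypeBasisIndex b0
  have hcard : Fintype.card ((linearIndepOn_empty K id).extend (Set.empty_subset S)) =
      Fintype.card σ := by
    rw [← Module.finrank_eq_card_basis b0, Module.finrank_fintype_fun_eq_card]
  let e := Fintype.equivOfCardEq hcard
  have hb : ∀ i, (b0.reindex e) i ∈ S := by
    intro i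
    rw [Module.Basis.reindex_apply]
    exact hb0 _
  choose μ hμ using hb
  exact ⟨b0.reindex e, μ, hμ⟩

/-- Jordan form -/
theorem exists_jordan [IsAlgClosed K] [CharZero K] (g : Matrix σ σ K) (hg : IsUnit g) :
    ∃ (P P' : Matrix σ σ K) (μ : σ → K) (N : Matrix σ σ K) (m : ℕ), P * P' = 1 ∧ P' * P = 1 ∧
      (∀ i, μ i ≠ 0) ∧ N ^ (m + 1) = 0 ∧ Commute (Matrix.diagonal μ) N ∧
      P' * g * P = Matrix.diagonal μ * exK N m 1 := by
  classical
  let φ : Matrix σ σ K ≃ₐ[K] Module.End K (σ → K) := Matrix.toLinAlgEquiv'
  obtain ⟨n, hn, s, hs, hnil, hss, hf⟩ := (φ g).exists_isNilpotent_isSemisimple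
  have hcomm : Commute n s := by
    have h1 : Commute (φ g) s := Algebra.commute_of_mem_adjoin_self hs
    exact (Algebra.commute_of_mem_adjoin_singleton_of_commute hn h1.symm).symm
  obtain ⟨b, μ, hb⟩ := exists_eigenbasis s hss
  let P : Matrix σ σ K := (Pi.basisFun K σ).toMatrix b
  let P' : Matrix σ σ K := b.toMatrix (Pi.basisFun K σ)
  have h1 : P * P' = 1 := (Pi.basisFun K σ).toMatrix_mul_toMatrix_flip b
  have h2 : P' * P = 1 := b.toMatrix_mul_toMatrix_flip (Pi.basisFun K σ)
  have hPe : ∀ i, P.mulVec (Pi.single i 1) = b i := by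
    intro i
    rw [Matrix.mulVec_single_one]
    funext j
    simp [P, Module.Basis.toMatrix_apply]
  have hP'b : ∀ i, P'.mulVec (b i) = Pi.single i 1 := by
    intro i
    rw [← hPe, Matrix.mulVec_mulVec, h2, Matrix.one_mulVec]
  set S0 : Matrix σ σ K := φ.symm s with hS0
  set N0 : Matrix σ σ K := φ.symm n with hN0
  have hφ : ∀ (A : Matrix σ σ K) v, φ A v = A.mulVec v := fun A v =>
    Matrix.toLinAlgEquiv'_apply A v
  have hg0 : g = N0 + S0 := by
    rw [hN0, hS0, ← map_add, ← hf, AlgEquiv.symm_apply_apply]
  have hNS : Commute N0 S0 := by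
    have h3 := hcomm.map φ.symm
    exact h3
  have hS0b : ∀ i, S0.mulVec (b i) = μ i • b i := by
    intro i
    rw [← hφ, hS0, AlgEquiv.apply_symm_apply, hb]
  have hD : P' * S0 * P = Matrix.diagonal μ := by
    ext j i
    have h3 : (P' * S0 * P).mulVec (Pi.single i 1) = μ i • Pi.single i 1 := by
      rw [← Matrix.mulVec_mulVec, ← Matrix.mulVec_mulVec, hPe, hS0b, Matrix.mulVec_smul, hP'b]
    have h4 := congrFun h3 j
    rw [Matrix.mulVec_single_one] at h4
    have h5 : (P' * S0 * P) j i = (μ i • (Pi.single i 1 : σ → K)) j := h4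
    rw [h5, Matrix.diagonal_apply]
    by_cases hij : j = i
    · subst hij; simp
    · rw [if_neg hij]
      simp [Pi.single_apply, hij]
  set n' : Matrix σ σ K := P' * N0 * P with hn'
  have hconj : ∀ A B : Matrix σ σ K, (P' * A * P) * (P' * B * P) = P' * (A * B) * P := by
    intro A B
    calc (P' * A * P) * (P' * B * P) = P' * A * (P * P') * B * P := by
          simp only [Matrix.mul_assoc]
      _ = P' * (A * B) * P := by rw [h1, Matrix.mul_one]; simp only [Matrix.mul_assoc]
  have hconjpow : ∀ (A : Matrix σ σ K) (k : ℕ), (P' * A * P) ^ k = P' * A ^ k * P := by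
    intro A k
    induction k with
    | zero => rw [pow_zero, pow_zero, Matrix.mul_one, h2]
    | succ k ih => rw [pow_succ, ih, hconj, ← pow_succ]
  have hcommD : Commute (Matrix.diagonal μ) n' := by
    show Matrix.diagonal μ * n' = n' * Matrix.diagonal μ
    rw [← hD, hn', hconj, hconj, hNS.eq]
  obtain ⟨k0, hk0⟩ : ∃ k, N0 ^ k = 0 := by
    obtain ⟨k, hk⟩ := hnil
    refine ⟨k, ?_⟩
    rw [hN0, ← map_pow, hk, map_zero]
  have hn'k : n' ^ k0 = 0 := by rw [hn', hconjpow, hk0, Matrix.mul_zero, Matrix.zero_mul]
  have hg' : P' * g * P = Matrix.diagonal μ + n' := by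
    rw [hg0, hn', ← hD, Matrix.mul_add, Matrix.add_mul, add_comm]
  have hμ : ∀ i, μ i ≠ 0 := by
    intro i hi
    have hDe : (Matrix.diagonal μ).mulVec (Pi.single i 1) = 0 := by
      funext j
      rw [Matrix.mulVec_diagonal]
      by_cases hij : j = i
      · rw [hij, hi, zero_mul]; rfl
      · rw [Pi.single_apply, if_neg hij, mul_zero]; rfl
    have hpow : ∀ k, ((P' * g * P) ^ k).mulVec (Pi.single i 1 : σ → K) =
        (n' ^ k).mulVec (Pi.single i 1) := by
      intro k
      induction k with
      | zero => simp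
      | succ k ih =>
        rw [pow_succ', ← Matrix.mulVec_mulVec, ih, hg', Matrix.add_mulVec, Matrix.mulVec_mulVec,
          (hcommD.pow_right k).eq, ← Matrix.mulVec_mulVec, hDe, Matrix.mulVec_zero, zero_add,
          Matrix.mulVec_mulVec, ← pow_succ']
    have h3 := hpow k0
    rw [hn'k, Matrix.zero_mulVec, hconjpow, ← Matrix.mulVec_mulVec, hPe] at h3
    -- `g` is invertible
    obtain ⟨u, hu⟩ := hg.pow k0
    have h4 := congrArg (fun v => ((↑u⁻¹ : Matrix σ σ K) * P).mulVec v) h3
    simp only [Matrix.mulVec_mulVec, Matrix.mulVec_zero] at h4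
    have h5 : (↑u⁻¹ : Matrix σ σ K) * P * (P' * g ^ k0) = 1 := by
      rw [Matrix.mul_assoc, ← Matrix.mul_assoc P, h1, Matrix.one_mul, ← hu, Units.inv_mul]
    rw [h5, Matrix.one_mulVec] at h4
    exact b.ne_zero i h4
  set D' : Matrix σ σ K := Matrix.diagonal (fun i => (μ i)⁻¹) with hD'
  have hDD' : Matrix.diagonal μ * D' = 1 := by
    rw [hD', Matrix.diagonal_mul_diagonal]
    have : (fun i => μ i * (μ i)⁻¹) = fun _ => 1 := by
      funext i; exact mul_inv_cancel₀ (hμ i)
    rw [this, Matrix.diagonal_one]
  have hD'D : D' * Matrix.diagonal μ = 1 := by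
    rw [hD', Matrix.diagonal_mul_diagonal]
    have : (fun i => (μ i)⁻¹ * μ i) = fun _ => 1 := by
      funext i; exact inv_mul_cancel₀ (hμ i)
    rw [this, Matrix.diagonal_one]
  have hcommD' : Commute D' n' := by
    show D' * n' = n' * D'
    calc D' * n' = D' * n' * (Matrix.diagonal μ * D') := by rw [hDD', Matrix.mul_one]
      _ = D' * (Matrix.diagonal μ * n') * D' := by
          rw [hcommD.eq]; simp only [Matrix.mul_assoc]
      _ = n' * D' := by rw [← Matrix.mul_assoc, hD'D, Matrix.one_mul]
  have hnil2 : (D' * n') ^ (k0 + 1) = 0 := by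
    rw [hcommD'.mul_pow, pow_succ n', hn'k, Matrix.zero_mul, Matrix.mul_zero]
  obtain ⟨N, hN, hNc, hNe⟩ := exists_log (D' * n') k0 hnil2
  refine ⟨P, P', μ, N, k0, h1, h2, hμ, hN, hNc _ ?_, ?_⟩
  · have h3 : Commute (Matrix.diagonal μ) D' := by
      show Matrix.diagonal μ * D' = D' * Matrix.diagonal μ
      rw [hDD', hD'D]
    exact h3.mul_right hcommD
  · rw [hNe, hg', Matrix.mul_add, Matrix.mul_one, ← Matrix.mul_assoc, hDD', Matrix.one_mul]


end Jordan

end Pool.Agent.D0H89.OF
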