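import Mathlib
import Pool.Agent.D0H89.OF.Exp

/-!
# Project OF (helper89, MP_b685ef_ag slot 2): Frobenius semisimplicity in families

`K` algebraically closed of characteristic zero, `ρ : Γ → GL_ι(K)` a continuous representation of a
profinite group. Main point: if `ρ` is semisimple, `U` a normal subgroup of finite index, and `ρ g` has
the maximal number of distinct eigenvalues among the `ρ h`, `h ∈ g U`, then `ρ g` is semisimple.

Modules (independent; take any): JORD, GRAM0, GRAM1, RAD, LIE, ONE, COMP, PROF, DENS.
(SPLIT, DUAL and the assembly are written by helper89.)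
-/

set_option autoImplicit false

open Polynomial

namespace Pool.Agent.D0H89.OF



/-- The matrix `A` is semisimple (diagonalizable, as the field will be algebraically closed). -/
def IsSS {ι K : Type} [Fintype ι] [DecidableEq ι] [Field K] (A : Matrix ι ι K) : Prop :=
  Module.End.IsSemisimple (Matrix.toLin' A)

/-- The number of distinct eigenvalues. -/
noncomputable def numEig {ι K : Type} [Fintype ι] [DecidableEq ι] [Field K] (A : Matrix ι ι K) : ℕ :=
  A.charpoly.rootSet K |>.ncard

/-- `W` is stable under the matrices of `S`. -/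
def Stable {ι K : Type} [Fintype ι] [Field K] (S : Set (Matrix ι ι K)) (W : Submodule K (ι → K)) :
    Prop :=
  ∀ A ∈ S, ∀ w ∈ W, A.mulVec w ∈ W

/-- Every stable subspace has a stable complement. -/
def Semi {ι K : Type} [Fintype ι] [Field K] (S : Set (Matrix ι ι K)) : Prop :=
  ∀ W : Submodule K (ι → K), Stable S W → ∃ W', Stable S W' ∧ IsCompl W W'

/-- The Gram determinant `det (tr (p_a(M) q_b(M)))` over a commutative `K`-algebra `R`. -/
noncomputable def gram {ι K : Type} [Fintype ι] [DecidableEq ι] [Field K] {R : Type} [CommRing R]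
    [Algebra K R] {n : ℕ} (M : Matrix ι ι R) (p q : Fin n → K[X]) : R :=
  (Matrix.of fun a b => (aeval M (p a) * aeval M (q b)).trace).det

/-- **JORD** (45 min). The Jordan decomposition of an invertible matrix, with the logarithm of the
unipotent part in the algebra generated by `A`.
Proof: copy `exists_jordan` (file D0H89/OF/Exp.lean) and keep track of
`P * N * P' ∈ Algebra.adjoin K {A}`: there `s, n ∈ adjoin {A}` are the semisimple and nilpotent part,
`s` is invertible, so its inverse is in `adjoin {A}` (multiplication by `s` on the finite-dimensional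
algebra `adjoin {A}` is injective, hence surjective), `ν = s⁻¹ n ∈ adjoin {A}` is nilpotent, and the
logarithm is a polynomial in `ν` (`exists_logP` in the same file gives `p` with `X ∣ p`). If `N = 0` then
`A = s` is semisimple. `A' ∈ adjoin {A}` in the same way. -/
def S_JORD : Prop := ∀ (ι K : Type) [Fintype ι] [DecidableEq ι] [Field K] [IsAlgClosed K] [CharZero K]
  (A A' : Matrix ι ι K), A * A' = 1 →
  ∃ (P P' : Matrix ι ι K) (μ : ι → Kˣ) (N : Matrix ι ι K) (m : ℕ), P * P' = 1 ∧ P' * P = 1 ∧
    N ^ (m + 1) = 0 ∧ Commute (Matrix.diagonal fun i => (μ i : K)) N ∧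
    P' * A * P = Matrix.diagonal (fun i => (μ i : K)) * exK N m 1 ∧
    A' ∈ Algebra.adjoin K {A} ∧ P * N * P' ∈ Algebra.adjoin K {A} ∧ (N = 0 → IsSS A)

/-- **GRAM0** (40 min). If `A` has at most `k` distinct eigenvalues then all Gram determinants of size
`k + 1` vanish. Proof: `tr f(A) = ∑ mult(x) f(x)` over the distinct eigenvalues `x` (Mathlib:
`Matrix.charpoly`, roots, `Matrix.trace_eq_sum_roots_charpoly`, eigenvalues of a polynomial in `A`; or
the decomposition into generalised eigenspaces), so the Gram matrix is a product through a space of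
dimension `k`. Give the trace formula as a separate lemma (it is used in GRAM1). -/
def S_GRAM0 : Prop := ∀ (ι K : Type) [Fintype ι] [DecidableEq ι] [Field K] [IsAlgClosed K] [CharZero K]
  (A : Matrix ι ι K) (k : ℕ), numEig A ≤ k → ∀ p q : Fin (k + 1) → K[X], gram A p q = 0

/-- **GRAM1** (25 min). If `A` has exactly `k` distinct eigenvalues then the Gram determinant of
`1, X, ..., X^(k-1)` is not zero. Proof: it is `V^T diag(mult) V` with the Vandermonde matrix `V` of the
distinct eigenvalues. -/
def S_GRAM1 : Prop := ∀ (ι K : Type) [Fintype ι] [DecidableEq ι] [Field K] [IsAlgClosed K] [CharZero K]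
  (A : Matrix ι ι K) (k : ℕ), numEig A = k →
    gram A (fun a : Fin k => (X : K[X]) ^ (a : ℕ)) (fun a => X ^ (a : ℕ)) ≠ 0

/-- **RAD** (35 min). Let `B` be a matrix such that `tr ((u v)'(A) B) = 0` for all polynomials `u`,
`v` with `u(A)`, `v(A)` nilpotent. Then `tr (ν B) = 0` for every nilpotent `ν` in the algebra generated
by `A`. Proof: let `r` be the product of `X - x` over the distinct eigenvalues; `r(A)` is nilpotent,
`r(A)^M = 0`, and `f(A)` is nilpotent iff `r ∣ f`. Show by downward induction on `j ≥ 1` that
`tr (q(A) B) = 0` for `q ∈ (r^j)`; clear for `j ≥ M`. If it holds for `j + 1` and `q = r^j f`, choose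
`φ` with `(j + 1) r' φ ≡ f mod r` (`r`, `r'` are coprime); `w = r^(j+1) φ = r · (r^j φ)` is a product
`u v` as in the hypothesis and `w' ≡ r^j f mod r^(j+1)`. -/
def S_RAD : Prop := ∀ (ι K : Type) [Fintype ι] [DecidableEq ι] [Field K] [IsAlgClosed K] [CharZero K]
  (A B : Matrix ι ι K),
  (∀ u v : K[X], IsNilpotent (aeval A u) → IsNilpotent (aeval A v) →
    (aeval A (derivative (u * v)) * B).trace = 0) →
  ∀ ν ∈ Algebra.adjoin K {A}, IsNilpotent ν → (ν * B).trace = 0

/-- **LIE** (60 min). `N_x = ρ(x) N ρ(x)⁻¹`. Assume that `N` is nilpotent and in the algebra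
generated by `ρ(G)`, `tr (N_x N_y) = 0`, the span `L` of all `N_x` contains the brackets `[N_x, N_y]`,
and `ρ` is semisimple. Then `N = 0`. Proof: `L` is a Lie algebra with zero trace form on `K^ι`, by
Cartan's criterion (Mathlib: `LieModule.isNilpotent_derivedSeries_of_traceForm_eq_zero`) its derived
algebra acts nilpotently. The common kernel `V₁` of the derived algebra is stable under `ρ(G)` (as `L`
is stable under conjugation); let `V₂` be a stable complement, it is `L`-stable since `N_x` is in the
algebra generated by `ρ(G)`. If `V₂ ≠ 0` the derived algebra kills a nonzero vector of `V₂`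
(`LieModule.nontrivial_max_triv_of_isNilpotent` or directly), contradiction; so the derived algebra is
zero, the `N_x` are commuting nilpotent matrices, all elements of `L` are nilpotent, and the same
argument with `L` instead of the derived algebra (Engel, or: commuting nilpotent matrices have a
common kernel) shows that `L = 0`. -/
def S_LIE : Prop := ∀ (ι K G : Type) [Fintype ι] [DecidableEq ι] [Field K] [IsAlgClosed K] [CharZero K]
  [Group G] (ρ : G →* Matrix ι ι K) (N : Matrix ι ι K), IsNilpotent N →
  N ∈ Algebra.adjoin K (Set.range ρ) →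
  (∀ x y, (ρ x * N * ρ x⁻¹) * (ρ y * N * ρ y⁻¹) - (ρ y * N * ρ y⁻¹) * (ρ x * N * ρ x⁻¹) ∈
    Submodule.span K (Set.range fun z => ρ z * N * ρ z⁻¹)) →
  (∀ x y, ((ρ x * N * ρ x⁻¹) * (ρ y * N * ρ y⁻¹)).trace = 0) →
  Semi (Set.range ρ) → N = 0

/-- **ONE** (60 min). If `ρ` is semisimple on the normal subgroup `Nn`, `ρ g` is a semisimple matrix,
and the subspaces which are stable under `Nn` and `g` are stable under a subgroup `H` of finite index,
then `ρ` is semisimple. Proof: let `W` be stable under `Nn` and `g`; the projectors onto `W` which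
commute with `Nn` exist; the conjugation `T` by `ρ g` is a semisimple operator on matrices (product of
the commuting semisimple operators `LinearMap.mulLeft`, `LinearMap.mulRight`), and on the `T`-stable
space `𝓟` of all `p` commuting with `Nn` with image in `W`; the subspace `𝓚` of those which kill `W`
has a `T`-stable complement `𝓛` in `𝓟`; the component in `𝓛` of a projector `p₀` is fixed by `T`
(as `T p₀ - p₀ ∈ 𝓚`), hence a projector commuting with `Nn` and `g`. Its kernel is stable under `H`.
So every `G`-stable `W` has an `H`-stable complement; average the corresponding projector over the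
cosets of `H` (replace `H` by its normal core if you like). -/
def S_ONE : Prop := ∀ (ι K G : Type) [Fintype ι] [DecidableEq ι] [Field K] [IsAlgClosed K] [CharZero K]
  [Group G] (ρ : G →* Matrix ι ι K) (Nn H : Subgroup G) (g : G), Nn.Normal → H.FiniteIndex →
  Semi (ρ '' (Nn : Set G)) → IsSS (ρ g) →
  (∀ W, Stable (ρ '' (Nn : Set G)) W → Stable {ρ g, ρ g⁻¹} W → Stable (ρ '' (H : Set G)) W) →
  Semi (Set.range ρ)

/-- The entries of `ρ γ` as values of the variables. -/
def entries {ι K G : Type} (ρ : G → Matrix ι ι K) (γ : G) : ι × ι → K := fun i => ρ γ i.1 i.2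

/-- **COMP** (60 min). The identity component. `Γ` compact, `μ` a left invariant probability measure,
`ρ : Γ → GL_ι(K)` continuous. There is a closed normal subgroup `H` of finite index such that every
Zariski closed condition which holds on a subset of positive measure of a coset `c H` holds on all of
`c H`. Proof: call the sets `{γ | ∀ p ∈ I, p(ρ γ) = 0}` (I a set of polynomials) Zariski closed; they
are closed, stable under intersections, left and right translations, and satisfy the descending chain
condition (Hilbert's basis theorem: their vanishing ideals in the Noetherian ring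
`MvPolynomial (ι × ι) K`). Let `Z` be minimal among the Zariski closed sets of positive measure. Two
left translates of `Z` are equal or have an intersection of measure zero, hence the stabilizer
`H₁ = {γ | γ Z = Z}` has finite index. It is Zariski closed, as `γ Z = Z` iff `γ Z ⊆ Z` (minimality)
iff `γ ∈ ⋂_{z ∈ Z} Z z⁻¹`. For `z ∈ Z` the Zariski closed set `H₁ z = z (z⁻¹ H₁ z) ⊆ Z` has positive
measure, so `Z = z H` with `H = z⁻¹ H₁ z`, and `H` is also minimal. The normal core of `H` is Zariski
closed of finite index, therefore it is equal to `H`. -/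
def S_COMP : Prop := ∀ (ι K Γ : Type) [Fintype ι] [DecidableEq ι] [Field K] [TopologicalSpace K]
  [IsTopologicalRing K] [T2Space K] [Group Γ] [TopologicalSpace Γ] [IsTopologicalGroup Γ]
  [CompactSpace Γ] [T2Space Γ] [MeasurableSpace Γ] [BorelSpace Γ] (μ : MeasureTheory.Measure Γ)
  [MeasureTheory.IsProbabilityMeasure μ] [μ.IsMulLeftInvariant] (ρ : Γ →* Matrix ι ι K),
  Continuous ρ →
  ∃ H : Subgroup Γ, H.Normal ∧ IsClosed (H : Set Γ) ∧ H.FiniteIndex ∧
    ∀ (I : Set (MvPolynomial (ι × ι) K)) (c : Γ),
      μ {γ | c⁻¹ * γ ∈ H ∧ ∀ p ∈ I, MvPolynomial.eval (entries ρ γ) p = 0} ≠ 0 →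
      ∀ γ, c⁻¹ * γ ∈ H → ∀ p ∈ I, MvPolynomial.eval (entries ρ γ) p = 0

/-- **PROF** (20 min). In a profinite group, a closed conjugation invariant set of measure zero is
contained in clopen conjugation invariant sets of small measure. Proof: outer regularity of the Haar
measure, compactness, and open normal subgroups form a basis at `1`
(`exist_openNormalSubgroup_sub_open_nhds_of_one`). -/
def S_PROF : Prop := ∀ (Γ : Type) [Group Γ] [TopologicalSpace Γ] [IsTopologicalGroup Γ]
  [CompactSpace Γ] [T2Space Γ] [TotallyDisconnectedSpace Γ] [MeasurableSpace Γ] [BorelSpace Γ]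
  (μ : MeasureTheory.Measure Γ) [MeasureTheory.IsProbabilityMeasure μ] [μ.IsHaarMeasure]
  (B : Set Γ), IsClosed B → (∀ x, ∀ γ ∈ B, x * γ * x⁻¹ ∈ B) → μ B = 0 → ∀ ε : ENNReal, 0 < ε →
  ∃ C : Set Γ, IsClopen C ∧ (∀ x, ∀ γ ∈ C, x * γ * x⁻¹ ∈ C) ∧ B ⊆ C ∧ μ C < ε

/-- The set `S` of closed points (norms `nm`, dimension `d`) has Dirichlet density `δ`. -/
def HasDensity {P : Type} (nm : P → ℝ) (d : ℝ) (S : Set P) (δ : ℝ) : Prop :=
  Filter.Tendsto (fun s : ℝ => (∑' x : S, (nm x) ^ (-s)) / ∑' x, (nm x) ^ (-s))
    (nhdsWithin d (Set.Ioi d)) (nhds δ)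

/-- **DENS** (25 min). If for all `ε > 0` the set `B` is contained in a set `C` which has a density
`< ε`, then the complement of `B` has density `1`. -/
def S_DENS : Prop := ∀ (P : Type) [Nonempty P] (nm : P → ℝ) (d : ℝ), (∀ x, 1 < nm x) →
  (∀ s : ℝ, d < s → Summable fun x => (nm x) ^ (-s)) → ∀ B : Set P,
  (∀ ε : ℝ, 0 < ε → ∃ (C : Set P) (δ : ℝ), B ⊆ C ∧ δ < ε ∧ HasDensity nm d C δ) →
  HasDensity nm d Bᶜ 1

end Pool.Agent.D0H89.OF
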