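import Mathlib
import Pool.Agent.D0H89.OF.Stm

/-!
# Project OF: the mixed case

The matrices which respect the weight filtration (in a basis adapted to it) are block triangular
with respect to `b : ι → J` (the weights of the basis vectors).
-/

set_option autoImplicit false

open Polynomial

namespace Pool.Agent.D0H89.OF

/-- The matrix of the action on the associated graded space. -/
def grM {ι J K : Type} [DecidableEq J] [Zero K] (b : ι → J) (M : Matrix ι ι K) : Matrix ι ι K :=
  Matrix.of fun i k => if b i = b k then M i k else 0

/-- The eigenvalues on the different graded pieces are different. -/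
def Apart {ι J K : Type} [Fintype ι] [DecidableEq ι] [DecidableEq J] [Field K] (b : ι → J)
    (M : Matrix ι ι K) : Prop :=
  ∀ j k, j ≠ k → IsCoprime (M.toSquareBlock b j).charpoly (M.toSquareBlock b k).charpoly

/-- **MIX** (60 min). `M` is semisimple if and only if `grM b M` is. Proof: `A` is semisimple iff
`(A - z)² v = 0` implies `(A - z) v = 0` for all `z`, `v` (`K` is algebraically closed). If `z` is an
eigenvalue then it is an eigenvalue of exactly one block `j` (`Apart`). (⇐) Let `(M - z)² v = 0`, `v ≠ 0`,
and let `k` be the largest weight with `v_k ≠ 0` (the component of `v` in the block `k`). Then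
`(M_k - z)² v_k = 0`, so `z` is an eigenvalue of `M_k`. By the semisimplicity of `M_k` we have
`(M_k - z) v_k = 0`, so `w = (M - z) v` has only components of weight `< k`; as `(M - z) w = 0`, its top
component, if `w ≠ 0`, is an eigenvector of a block `≠ k` with the eigenvalue `z`, contradiction.
(⇒) `f(grM b M) = grM b (f(M))` for polynomials `f`; apply this to a squarefree `f` with `f(M) = 0`
(the minimal polynomial). Second claim: `Matrix.BlockTriangular.charpoly` for both. -/
def S_MIX : Prop := ∀ (ι K J : Type) [Fintype ι] [DecidableEq ι] [Field K] [IsAlgClosed K] [CharZero K]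
  [LinearOrder J] (b : ι → J) (M : Matrix ι ι K), M.BlockTriangular b →
  (Apart b M → (IsSS M ↔ IsSS (grM b M))) ∧ (grM b M).charpoly = M.charpoly

end Pool.Agent.D0H89.OF
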