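import Mathlib
import Pool.Agent.D0H89.OF.Stm2

/-!
# Project OF, second part: the Jordan types of the Frobenius elements

`ρ` a continuous representation of `Γ = π₁(S)`, semisimple on the normal subgroup `Nn` (geometric
fundamental group), `Γ` topologically generated by `Nn` and `g`, `δ : Γ → K` the degree. Main point:
there is a nilpotent matrix `d` which commutes with `ρ(Γ)` such that `ρ'(γ) = ρ(γ) exp(-δ(γ) d)` is
semisimple. Let `ρ(g) = s exp(n)` be the Jordan decomposition, `𝔄` the centralizer of `ρ(Nn)`.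
(LOGB) `[n, 𝔄] ⊆ 𝔄`; (DEC) `n = b + d`, `d ∈ 𝔄`, `b` commutes with `𝔄`; conjugation by
`ρ'(g) = s exp(b)` is conjugation by `s` on `𝔄`, (ONE2) shows that `ρ'` is semisimple.

Modules (independent; take any): TRN, DEC, LOGB, ONE2, NIL, BLK, CHR, SIM, UNQ.
-/

set_option autoImplicit false

open Polynomial

namespace Pool.Agent.D0H89.OF

/-- **TRN** (30 min). If `Semi S` then the trace form is non-degenerate on the centralizer of `S`.
Proof: `ker a` and `im a` are stable, with stable complements `W'` and `W''`; let `e` be the inverse of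
`a : W' ≃ im a` on `im a` and `0` on `W''`. It commutes with `S`, and `a e` is a projector onto `im a`
with the trace `rank a ≠ 0`. (In `Pool.Agent.D0H98.OF.One` there is `exists_proj`.) -/
def S_TRN : Prop := ∀ (ι K : Type) [Fintype ι] [DecidableEq ι] [Field K] [CharZero K]
  (S : Set (Matrix ι ι K)), Semi S → ∀ a : Matrix ι ι K, (∀ A ∈ S, A * a = a * A) → a ≠ 0 →
  ∃ e : Matrix ι ι K, (∀ A ∈ S, A * e = e * A) ∧ (a * e).trace ≠ 0

/-- **DEC** (35 min). Let the trace form be non-degenerate on the subalgebra `𝔄` and let `n` be a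
nilpotent matrix with `[n, 𝔄] ⊆ 𝔄`. Then `n = b + d` with `d ∈ 𝔄`, `b` commutes with `𝔄`, both
nilpotent. Proof: let `d ∈ 𝔄` with `tr (d e) = tr (n e)` for all `e ∈ 𝔄` (the map `𝔄 → 𝔄^*` is
injective, hence surjective), `b = n - d`. For `e, e' ∈ 𝔄`, `[b, e] = [n, e] - [d, e] ∈ 𝔄`, and
`tr ([b, e] e') = tr (b [e, e']) = 0`, so `[b, e] = 0`. In particular `b`, `d`, `n` commute. For a
polynomial `p`, `b p(b) - b p(-d) = b n (⋯)` is nilpotent and `tr (b p(-d)) = 0`, hence
`tr (b p(b)) = 0`, and `b` is nilpotent (`p = X ^ k`; all the traces of the powers vanish). -/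
def S_DEC : Prop := ∀ (ι K : Type) [Fintype ι] [DecidableEq ι] [Field K] [IsAlgClosed K] [CharZero K]
  (𝔄 : Subalgebra K (Matrix ι ι K)), (∀ a ∈ 𝔄, a ≠ 0 → ∃ e ∈ 𝔄, (a * e).trace ≠ 0) →
  ∀ n : Matrix ι ι K, IsNilpotent n → (∀ e ∈ 𝔄, n * e - e * n ∈ 𝔄) →
  ∃ b d : Matrix ι ι K, n = b + d ∧ d ∈ 𝔄 ∧ (∀ e ∈ 𝔄, b * e = e * b) ∧ IsNilpotent b ∧
    IsNilpotent d

/-- **LOGB** (45 min). Let `g = s exp(n)` be the Jordan decomposition and `W` a space of matrices which
is stable under the conjugation by `g`. Then it is stable under the conjugation by `s`, and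
`[n, W] ⊆ W`. Proof: `T = conj(g)` is the product of the commuting operators `conj(s)` (semisimple) and
`conj(exp n)` (unipotent), so `T = conj(s) + ν`, `ν` nilpotent, is the additive Jordan decomposition of
`T` on all matrices, and `conj(s)`, `ν` are polynomials in `T` (Mathlib:
`Module.End.exists_isNilpotent_isSemisimple` and `Module.End.isNilpotent_isSemisimple_unique` or
similar); hence `W` is stable under `conj(s)`, its inverse (`W` is finite-dimensional) and
`conj(exp n)`. So for a linear form `φ` vanishing on `W` and `X ∈ W`, `φ(exp(t n) X exp(-t n))` is a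
polynomial in `t` (`Exp.lean`: `exp_poly`, or expand) which vanishes for `t ∈ ℕ`; its coefficient at `t`
is `φ([n, X])`. -/
def S_LOGB : Prop := ∀ (ι K : Type) [Fintype ι] [DecidableEq ι] [Field K] [IsAlgClosed K] [CharZero K]
  (s s' n : Matrix ι ι K) (m : ℕ), s * s' = 1 → IsSS s → Commute s n → n ^ (m + 1) = 0 →
  ∀ W : Submodule K (Matrix ι ι K),
  (∀ X ∈ W, (s * exK n m 1) * X * (exK n m (-1) * s') ∈ W) →
  (∀ X ∈ W, s * X * s' ∈ W) ∧ (∀ X ∈ W, s' * X * s ∈ W) ∧ ∀ X ∈ W, n * X - X * n ∈ W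

/-- **ONE2** (40 min; variant of ONE without `H`, with a semisimple `s` which acts on the centralizer
of `ρ(Nn)` as `ρ g` does). Proof as for ONE: on the space `𝓟` of the `p` commuting with `ρ(Nn)` with image
in `W` the conjugation `T` by `ρ g` is equal to the conjugation by `s`, which is semisimple. -/
def S_ONE2 : Prop := ∀ (ι K G : Type) [Fintype ι] [DecidableEq ι] [Field K] [IsAlgClosed K] [CharZero K]
  [Group G] (ρ : G →* Matrix ι ι K) (Nn : Subgroup G) (g : G) (s s' : Matrix ι ι K), Nn.Normal →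
  Semi (ρ '' (Nn : Set G)) → s * s' = 1 → IsSS s →
  (∀ X : Matrix ι ι K, (∀ x ∈ Nn, ρ x * X = X * ρ x) → ρ g * X * ρ g⁻¹ = s * X * s') →
  (∀ W, Stable (ρ '' (Nn : Set G)) W → Stable {ρ g, ρ g⁻¹} W → Stable (Set.range ρ) W) →
  Semi (Set.range ρ)

/-- **NIL** (20 min). Proof: let `d ^ k = 0`, `d ^ (k - 1) ≠ 0` and suppose `k > m`. Then
`0 = (n + d) ^ (k - 1) = ∑ C(k-1, i) n ^ i d ^ (k - 1 - i)`. Choose `e ∈ 𝔄` with
`tr (d ^ (k - 1) e) ≠ 0`; the matrices `n ^ i d ^ (k - 1 - i) e`, `i > 0`, are nilpotent. -/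
def S_NIL : Prop := ∀ (ι K : Type) [Fintype ι] [DecidableEq ι] [Field K] [CharZero K]
  (𝔄 : Subalgebra K (Matrix ι ι K)), (∀ a ∈ 𝔄, a ≠ 0 → ∃ e ∈ 𝔄, (a * e).trace ≠ 0) →
  ∀ (n d : Matrix ι ι K) (m : ℕ), IsNilpotent n → (∀ e ∈ 𝔄, n * e = e * n) → d ∈ 𝔄 →
  IsNilpotent d → (n + d) ^ m = 0 → d ^ m = 0

/-- All Jordan blocks of `A` have the size at most `m`. -/
def BlocksLE {ι K : Type} [Fintype ι] [DecidableEq ι] [Field K] (m : ℕ) (A : Matrix ι ι K) : Prop :=
  ∀ (z : K) (v : ι → K), ((A - Matrix.scalar ι z) ^ (m + 1)).mulVec v = 0 →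
    ((A - Matrix.scalar ι z) ^ m).mulVec v = 0

/-- **BLK** (45 min). Proof: `K ^ ι` is the sum of the eigenspaces `E_z` of `s`, which are stable under
`ν`; on `E_z`, `A - z = z ν (1 + ν / 2 + ⋯)`, so `(A - z) ^ m` and `ν ^ m` have the same kernel on
`E_z`, and `A - z` is invertible on the other `E_w`. -/
def S_BLK : Prop := ∀ (ι K : Type) [Fintype ι] [DecidableEq ι] [Field K] [IsAlgClosed K] [CharZero K]
  (s s' ν : Matrix ι ι K) (M m : ℕ), s * s' = 1 → IsSS s → Commute s ν → ν ^ (M + 1) = 0 →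
  (BlocksLE m (s * exK ν M 1) ↔ ν ^ m = 0)

/-- **CHR** (20 min). Proof: `A - z` is invertible iff `A + ν - z` is (Mathlib:
`IsNilpotent.isUnit_add_left_of_commute` or similar); the roots of the characteristic polynomial are
the `z` such that `A - z` is not invertible. -/
def S_CHR : Prop := ∀ (ι K : Type) [Fintype ι] [DecidableEq ι] [Field K] (A ν : Matrix ι ι K),
  Commute A ν → IsNilpotent ν → numEig (A + ν) = numEig A

/-- **SIM** (45 min; replaces the first half of MIX). `M` is conjugate to `D = grM b M`. Proof: on the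
strictly block upper triangular matrices `X` (`X i k = 0` unless `b i < b k`) the map `Φ X = M X - X D`
is injective: in each block column `k` let `j < k` be maximal with `X_{jk} ≠ 0`; then
`D_j X_{jk} = X_{jk} D_k`, and `X_{jk} = 0` as the characteristic polynomials `χ_j`, `χ_k` are coprime
(`χ_j(D_j) = 0` gives `X_{jk} χ_j(D_k) = 0`, and `χ_j(D_k)` is invertible). So `Φ` is surjective, and
there is `X` with `Φ X = D - M`; `P = 1 + X` is invertible (unipotent) and `M P = P D`. Also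
`(grM b M).charpoly = M.charpoly` (`Matrix.BlockTriangular.charpoly` for both). -/
def S_SIM : Prop := ∀ (ι K J : Type) [Fintype ι] [DecidableEq ι] [Field K]
  [LinearOrder J] (b : ι → J) (M : Matrix ι ι K), M.BlockTriangular b →
  (Apart b M → ∃ P P' : Matrix ι ι K, P * P' = 1 ∧ P' * P = 1 ∧ P' * M * P = grM b M) ∧
    (grM b M).charpoly = M.charpoly

/-- **UNQ** (30 min). Uniqueness of the logarithm of the unipotent part. Proof:
`s * exK n m 1 = s + ν`, `ν` nilpotent, commuting with `s`; uniqueness of the additive Jordan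
decomposition (Mathlib) gives `s₁ = s₂`, so `exK n₁ m 1 = exK n₂ m 1`, `exK n₁ m k = exK n₂ m k` for
`k : ℕ` (`exK_pow`), polynomials in `k`; compare the coefficients at `k`. -/
def S_UNQ : Prop := ∀ (ι K : Type) [Fintype ι] [DecidableEq ι] [Field K] [IsAlgClosed K] [CharZero K]
  (s₁ s₁' s₂ s₂' n₁ n₂ : Matrix ι ι K) (m : ℕ), s₁ * s₁' = 1 → s₂ * s₂' = 1 → IsSS s₁ → IsSS s₂ →
  Commute s₁ n₁ → Commute s₂ n₂ → n₁ ^ (m + 1) = 0 → n₂ ^ (m + 1) = 0 →
  s₁ * exK n₁ m 1 = s₂ * exK n₂ m 1 → n₁ = n₂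

end Pool.Agent.D0H89.OF
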