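import Pool.Agent.D0H89.OF.Stm4
import Pool.Agent.D0H87.OF.Blk

/-!
# The Jordan type of `s exp(ν)` (extends the module BLK of helper87)
-/

set_option autoImplicit false

namespace Pool.Agent.D0H89.OF

open Matrix Pool.Agent.D0H87.OF

section

variable {ι K : Type} [Fintype ι] [DecidableEq ι] [Field K]

theorem scalar_mul' (z : K) (e : Matrix ι ι K) : Matrix.scalar ι z * e = z • e := by
  ext a b
  simp [Matrix.scalar_apply, Matrix.diagonal_mul]

theorem key_pow (s ν c A : Matrix ι ι K) (hsν : Commute s ν) (hsc : Commute s c)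
    (hνc : Commute ν c) (hA : A = s * (1 + ν * c)) (z : K) (e : Matrix ι ι K)
    (he : s * e = z • e) (j : ℕ) :
    (A - Matrix.scalar ι z) ^ j * e = z ^ j • (c ^ j * ν ^ j * e) := by
  have h1 : (A - Matrix.scalar ι z) * e = z • (c * ν * e) := by
    rw [Matrix.sub_mul, scalar_mul', hA]
    calc s * (1 + ν * c) * e - z • e = (1 + ν * c) * (s * e) - z • e := by
          have : Commute s (1 + ν * c) := (Commute.one_right s).add_right (hsν.mul_right hsc)
          rw [this.eq, Matrix.mul_assoc]
      _ = z • (c * ν * e) := by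
          rw [he, Matrix.mul_smul, Matrix.add_mul, Matrix.one_mul, smul_add, add_sub_cancel_left,
            hνc.eq]
  have hN : Commute (A - Matrix.scalar ι z) (c * ν) := by
    have h2 : Commute A (c * ν) := by
      rw [hA]
      refine Commute.mul_left (hsc.mul_right hsν) ?_
      refine Commute.add_left (Commute.one_left _) ?_
      rw [hνc.eq]
      exact Commute.refl _
    exact h2.sub_left (scalar_commute z _)
  induction j with
  | zero => simp
  | succ j ih =>
    rw [pow_succ', Matrix.mul_assoc, ih, Matrix.mul_smul]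
    have hcν : c ^ j * ν ^ j = (c * ν) ^ j := (hνc.symm.mul_pow j).symm
    have hcν' : c ^ (j + 1) * ν ^ (j + 1) = (c * ν) ^ (j + 1) := (hνc.symm.mul_pow _).symm
    rw [hcν, hcν', ← Matrix.mul_assoc, (hN.pow_right j).eq, Matrix.mul_assoc, h1,
      Matrix.mul_smul, smul_smul, ← Matrix.mul_assoc, pow_succ z, pow_succ (c * ν)]

theorem e_fix {s e : Matrix ι ι K} {z : K} (he2 : e * e = e) (he3 : s * e = z • e)
    (he4 : IsUnit (s - Matrix.scalar ι z + e)) {v : ι → K} (hv : s *ᵥ v = z • v) :
    e *ᵥ v = v := by
  have h8 : (s - Matrix.scalar ι z + e).mulVec (v - e.mulVec v) = 0 := by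
    have h9 : (s - Matrix.scalar ι z + e) * (1 - e) = s - Matrix.scalar ι z -
        (s - Matrix.scalar ι z) * e := by
      rw [Matrix.mul_sub, Matrix.mul_one, Matrix.add_mul, he2]
      abel
    have h10 : v - e.mulVec v = (1 - e).mulVec v := by
      rw [Matrix.sub_mulVec, Matrix.one_mulVec]
    have h11 : (s - Matrix.scalar ι z) * e = 0 := by
      rw [Matrix.sub_mul, he3, scalar_mul', sub_self]
    rw [h10, Matrix.mulVec_mulVec, h9, h11, sub_zero, Matrix.sub_mulVec, hv]
    funext a
    simp [Matrix.scalar_apply, Matrix.mulVec_diagonal]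
  exact (sub_eq_zero.1 (mulVec_zero_of_unit he4 h8)).symm

end

theorem t_BLKR : S_BLKR := by
  intro ι K _ _ _ _ _ s s' ν M k hss' hs hsν hν
  classical
  obtain ⟨c, hc, hcu, hcX⟩ := exK_one ν M hν
  have hs's : s' * s = 1 := mul_eq_one_comm.1 hss'
  have hsu : IsUnit s := IsUnit.of_mul_eq_one _ hss'
  have hsc : Commute s c := hcX s hsν
  have hνc : Commute ν c := hcX ν (Commute.refl ν)
  set A : Matrix ι ι K := s * exK ν M 1 with hA
  have hA' : A = s * (1 + ν * c) := by rw [hA, hc]
  rcases Nat.eq_zero_or_pos k with hk | hk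
  · subst hk
    have h0 : LinearMap.ker (Matrix.toLin' (1 : Matrix ι ι K)) = ⊥ := by
      rw [Matrix.toLin'_one]
      exact LinearMap.ker_id
    have h5 : (fun z : K => Module.finrank K
        (LinearMap.ker (Matrix.toLin' ((A - Matrix.scalar ι z) ^ 0)))) = fun _ => 0 := by
      funext z
      rw [_root_.pow_zero, h0, finrank_bot]
    unfold jordanDim
    rw [h5, finsum_zero, _root_.pow_zero, h0, finrank_bot]
  choose e he1 he2 he3 he4 using fun z : K => exists_proj hs z
  have heν : ∀ z, Commute (e z) ν := fun z => he1 z ν hsν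
  have hec : ∀ z, Commute (e z) c := fun z => he1 z c hsc
  have hes : ∀ z, Commute (e z) s := fun z => he1 z s (Commute.refl s)
  have hee : ∀ z w, z ≠ w → e z * e w = 0 := by
    intro z w hzw
    have h1 : s * (e z * e w) = z • (e z * e w) := by
      rw [← Matrix.mul_assoc, he3, Matrix.smul_mul]
    have h2 : s * (e z * e w) = w • (e z * e w) := by
      rw [← Matrix.mul_assoc, ← (hes z).eq, Matrix.mul_assoc, he3, Matrix.mul_smul]
    have h3 : (z - w) • (e z * e w) = 0 := by rw [sub_smul, ← h1, ← h2, sub_self]
    exact (smul_eq_zero.1 h3).resolve_left (sub_ne_zero.2 hzw)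
  -- the eigenvalues
  obtain ⟨P, P', μ, h1, h2, h3⟩ := exists_diag hs
  set Z : Finset K := Finset.univ.image μ with hZ
  have hsP : s * P = P * Matrix.diagonal μ := by
    rw [← h3]
    calc s * P = (P * P') * s * P := by rw [h1, Matrix.one_mul]
      _ = P * (P' * s * P) := by simp only [Matrix.mul_assoc]
  have hsum : ∑ z ∈ Z, e z = 1 := by
    have h4 : (∑ z ∈ Z, e z) * P = P := by
      ext a i
      have hcol : s.mulVec (fun k => P k i) = μ i • fun k => P k i := by
        funext k
        have := congrFun (congrFun hsP k) i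
        rw [Matrix.mul_diagonal] at this
        rw [Pi.smul_apply, smul_eq_mul, mul_comm, ← this]
        rfl
      have h5 : e (μ i) *ᵥ (fun k => P k i) = fun k => P k i :=
        e_fix (he2 _) (he3 _) (he4 _) hcol
      have h6 : ∀ z ∈ Z, z ≠ μ i → e z *ᵥ (fun k => P k i) = 0 := by
        intro z _ hz
        rw [← h5, Matrix.mulVec_mulVec, hee _ _ hz, Matrix.zero_mulVec]
      have h7 : (∑ z ∈ Z, e z) *ᵥ (fun k => P k i) = fun k => P k i := by
        rw [Matrix.sum_mulVec, Finset.sum_eq_single (μ i) h6, h5]
        intro h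
        exact absurd (Finset.mem_image_of_mem μ (Finset.mem_univ i)) h
      exact congrFun h7 a
    calc ∑ z ∈ Z, e z = (∑ z ∈ Z, e z) * (P * P') := by rw [h1, Matrix.mul_one]
      _ = 1 := by rw [← Matrix.mul_assoc, h4, h1]
  -- the kernels
  have hker : ∀ z, LinearMap.ker (Matrix.toLin' ((A - Matrix.scalar ι z) ^ k)) =
      LinearMap.ker (Matrix.toLin' (ν ^ k)) ⊓ LinearMap.ker (Matrix.toLin' (s - Matrix.scalar ι z)) := by
    intro z
    have hkp := key_pow s ν c A hsν hsc hνc hA' z (e z) (he3 z) k
    ext v
    rw [Submodule.mem_inf, LinearMap.mem_ker, LinearMap.mem_ker, LinearMap.mem_ker,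
      Matrix.toLin'_apply, Matrix.toLin'_apply, Matrix.toLin'_apply]
    have hsz : (s - Matrix.scalar ι z) *ᵥ v = 0 ↔ s *ᵥ v = z • v := by
      rw [Matrix.sub_mulVec, sub_eq_zero]
      have : Matrix.scalar ι z *ᵥ v = z • v := by
        funext a
        simp [Matrix.scalar_apply, Matrix.mulVec_diagonal]
      rw [this]
    rw [hsz]
    constructor
    · intro hv
      have heA : Commute (e z) A := by
        rw [hA']
        exact (hes z).mul_right ((Commute.one_right _).add_right ((heν z).mul_right (hec z)))
      have heN : Commute (e z) (A - Matrix.scalar ι z) :=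
        heA.sub_right (scalar_commute z (e z)).symm
      set B : Matrix ι ι K := (A - Matrix.scalar ι z) * (1 - e z) + e z with hB
      have h11 : (s - Matrix.scalar ι z) * e z = 0 := by
        rw [Matrix.sub_mul, he3, scalar_mul', sub_self]
      have hBu : IsUnit B := by
        have h12 : A = s + s * ν * c := by
          rw [hA', Matrix.mul_add, Matrix.mul_one, Matrix.mul_assoc]
        have hB1 : B = (s - Matrix.scalar ι z + e z) + s * ν * c * (1 - e z) := by
          have : (A - Matrix.scalar ι z) * (1 - e z) =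
              (s - Matrix.scalar ι z) - (s - Matrix.scalar ι z) * e z +
                s * ν * c * (1 - e z) := by
            rw [h12]
            noncomm_ring
          rw [hB, this, h11]
          abel
        rw [hB1]
        have hc1 : Commute ν (s * c * (1 - e z)) :=
          (hsν.symm.mul_right hνc).mul_right ((Commute.one_right ν).sub_right (heν z).symm)
        have hn1 : IsNilpotent (s * ν * c * (1 - e z)) := by
          have : s * ν * c * (1 - e z) = ν * (s * c * (1 - e z)) := by
            rw [hsν.eq]; simp only [Matrix.mul_assoc]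
          rw [this]
          exact hc1.isNilpotent_mul_right ⟨M + 1, hν⟩
        refine hn1.isUnit_add_left_of_commute (he4 z) ?_
        have hz1 : ∀ X : Matrix ι ι K, Commute X s → Commute X (e z) →
            Commute X (s - Matrix.scalar ι z + e z) := fun X hX hXe =>
          (hX.sub_right (scalar_commute z X).symm).add_right hXe
        have a1 := hz1 s (Commute.refl s) (hes z).symm
        have a2 := hz1 ν hsν.symm (heν z).symm
        have a3 := hz1 c hsc.symm (hec z).symm
        have a4 := hz1 (1 - e z) ((Commute.one_left s).sub_left (hes z))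
          ((Commute.one_left (e z)).sub_left (Commute.refl (e z)))
        exact ((a1.mul_left a2).mul_left a3).mul_left a4
      have hw : v - e z *ᵥ v = 0 := by
        have hBk : ∀ j : ℕ, (B ^ j) *ᵥ (v - e z *ᵥ v) =
            ((A - Matrix.scalar ι z) ^ j) *ᵥ (v - e z *ᵥ v) := by
          intro j
          have h1' : (1 - e z) * e z = 0 := by rw [Matrix.sub_mul, Matrix.one_mul, he2, sub_self]
          have hidem : (1 - e z) * (1 - e z) = 1 - e z := by
            rw [Matrix.mul_sub, Matrix.mul_one, h1', sub_zero]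
          have hBe : B * (1 - e z) = (A - Matrix.scalar ι z) * (1 - e z) := by
            rw [hB, Matrix.add_mul, Matrix.mul_assoc, hidem, Matrix.mul_sub (e z), he2,
              Matrix.mul_one, sub_self, add_zero]
          have hpow : B ^ j * (1 - e z) = (A - Matrix.scalar ι z) ^ j * (1 - e z) := by
            induction j with
            | zero => rw [pow_zero, pow_zero]
            | succ j ih =>
              have hcomm : Commute (1 - e z) (A - Matrix.scalar ι z) :=
                (Commute.one_left _).sub_left heN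
              rw [pow_succ, Matrix.mul_assoc, hBe, ← hcomm.eq, ← Matrix.mul_assoc, ih,
                Matrix.mul_assoc, hcomm.eq, ← Matrix.mul_assoc, ← pow_succ]
          have h10 : v - e z *ᵥ v = (1 - e z) *ᵥ v := by
            rw [Matrix.sub_mulVec, Matrix.one_mulVec]
          rw [h10, Matrix.mulVec_mulVec, hpow, ← Matrix.mulVec_mulVec]
        have h13 : ((A - Matrix.scalar ι z) ^ k) *ᵥ (v - e z *ᵥ v) = 0 := by
          rw [Matrix.mulVec_sub, hv, Matrix.mulVec_mulVec, ← (heN.pow_right k).eq,
            ← Matrix.mulVec_mulVec, hv, Matrix.mulVec_zero, sub_zero]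
        rw [← hBk] at h13
        exact mulVec_zero_of_unit (hBu.pow k) h13
      have hev : e z *ᵥ v = v := (sub_eq_zero.1 hw).symm
      have hsv : s *ᵥ v = z • v := by
        rw [← hev, Matrix.mulVec_mulVec, he3, Matrix.smul_mulVec]
      refine ⟨?_, hsv⟩
      by_cases hz : z = 0
      · rw [hz, zero_smul] at hsv
        rw [mulVec_zero_of_unit hsu hsv, Matrix.mulVec_zero]
      · have h14 : ((A - Matrix.scalar ι z) ^ k * e z) *ᵥ v =
            (z ^ k • (c ^ k * ν ^ k * e z)) *ᵥ v := by rw [hkp]
        rw [← Matrix.mulVec_mulVec, hev, hv, Matrix.smul_mulVec, Matrix.mul_assoc,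
          ← Matrix.mulVec_mulVec, ← Matrix.mulVec_mulVec, hev] at h14
        have h15 := (smul_eq_zero.1 h14.symm).resolve_left (pow_ne_zero k hz)
        exact mulVec_zero_of_unit (hcu.pow k) h15
    · rintro ⟨hv1, hv2⟩
      have hev : e z *ᵥ v = v := e_fix (he2 z) (he3 z) (he4 z) hv2
      have h14 : ((A - Matrix.scalar ι z) ^ k * e z) *ᵥ v =
          (z ^ k • (c ^ k * ν ^ k * e z)) *ᵥ v := by rw [hkp]
      rw [← Matrix.mulVec_mulVec, hev, Matrix.smul_mulVec, Matrix.mul_assoc,
        ← Matrix.mulVec_mulVec, ← Matrix.mulVec_mulVec, hev, hv1, Matrix.mulVec_zero,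
        smul_zero] at h14
      exact h14
  -- the decomposition
  set V₀ := LinearMap.ker (Matrix.toLin' (ν ^ k)) with hV₀
  set N : K → Submodule K (ι → K) := fun z =>
    V₀ ⊓ LinearMap.ker (Matrix.toLin' (s - Matrix.scalar ι z)) with hN
  have hmemN : ∀ z v, v ∈ N z ↔ (ν ^ k) *ᵥ v = 0 ∧ s *ᵥ v = z • v := by
    intro z v
    rw [hN, Submodule.mem_inf, hV₀, LinearMap.mem_ker, LinearMap.mem_ker, Matrix.toLin'_apply,
      Matrix.toLin'_apply, Matrix.sub_mulVec, sub_eq_zero]
    have : Matrix.scalar ι z *ᵥ v = z • v := by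
      funext a
      simp [Matrix.scalar_apply, Matrix.mulVec_diagonal]
    rw [this]
  have hfixN : ∀ z, ∀ v ∈ N z, e z *ᵥ v = v := fun z v hv =>
    e_fix (he2 z) (he3 z) (he4 z) ((hmemN z v).1 hv).2
  have hzeroN : ∀ z w, z ≠ w → ∀ v ∈ N w, e z *ᵥ v = 0 := by
    intro z w hzw v hv
    rw [← hfixN w v hv, Matrix.mulVec_mulVec, hee _ _ hzw, Matrix.zero_mulVec]
  have hsumv : ∀ v : ι → K, ∑ z ∈ Z, e z *ᵥ v = v := by
    intro v
    rw [← Matrix.sum_mulVec, hsum, Matrix.one_mulVec]
  have hsupp : Function.support (fun z => Module.finrank K (N z)) ⊆ (Z : Set K) := by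
    intro z hz
    by_contra hzZ
    apply hz
    have h5 : N z = ⊥ := by
      rw [eq_bot_iff]
      intro v hv
      rw [Submodule.mem_bot, ← hsumv v]
      refine Finset.sum_eq_zero fun w hw => hzeroN w z ?_ v hv
      rintro rfl
      exact hzZ hw
    change Module.finrank K (N z) = 0
    rw [h5, finrank_bot]
  have hfun : (fun z : K => Module.finrank K
      (LinearMap.ker (Matrix.toLin' ((A - Matrix.scalar ι z) ^ k)))) =
      fun z => Module.finrank K (N z) := by
    funext z
    rw [hker z]
  have hjd : jordanDim k A = ∑ᶠ z : K, Module.finrank K (N z) := by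
    unfold jordanDim
    rw [hfun]
  rw [hjd]
  have hfs : ∑ᶠ z : K, Module.finrank K (N z) = ∑ z ∈ Z, Module.finrank K (N z) :=
    finsum_eq_sum_of_support_subset _ hsupp
  rw [hfs]
  let φ : V₀ ≃ₗ[K] ((z : Z) → N (z : K)) :=
    { toFun := fun v z => ⟨e (z : K) *ᵥ (v : ι → K), (hmemN _ _).2 ⟨by
          have h5 : (ν ^ k) *ᵥ (v : ι → K) = 0 := by
            have h6 : (v : ι → K) ∈ LinearMap.ker (Matrix.toLin' (ν ^ k)) := v.2
            rwa [LinearMap.mem_ker, Matrix.toLin'_apply] at h6
          rw [Matrix.mulVec_mulVec, ← ((heν (z : K)).pow_right k).eq, ← Matrix.mulVec_mulVec, h5,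
            Matrix.mulVec_zero], by
          rw [Matrix.mulVec_mulVec, he3, Matrix.smul_mulVec]⟩⟩
      map_add' := fun v w => by
        funext z
        apply Subtype.ext
        change e (z : K) *ᵥ ((v : ι → K) + w) = _
        rw [Matrix.mulVec_add]
        rfl
      map_smul' := fun a v => by
        funext z
        apply Subtype.ext
        change e (z : K) *ᵥ (a • (v : ι → K)) = _
        rw [Matrix.mulVec_smul]
        rfl
      invFun := fun w => ⟨∑ z : Z, (w z : ι → K), V₀.sum_mem fun z _ => (w z).2.1⟩
      left_inv := fun v => by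
        apply Subtype.ext
        change ∑ z : Z, e (z : K) *ᵥ (v : ι → K) = v
        rw [Finset.sum_coe_sort Z (fun z => e z *ᵥ (v : ι → K))]
        exact hsumv v
      right_inv := fun w => by
        funext y
        apply Subtype.ext
        change e (y : K) *ᵥ (∑ z : Z, (w z : ι → K)) = w y
        rw [Matrix.mulVec_sum, Finset.sum_eq_single y]
        · exact hfixN _ _ (w y).2
        · intro z _ hzy
          exact hzeroN _ _ (fun h => hzy (Subtype.ext h.symm)) _ (w z).2
        · intro h
          exact absurd (Finset.mem_univ y) h }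
  rw [LinearEquiv.finrank_eq φ, Module.finrank_pi_fintype,
    Finset.sum_coe_sort Z (fun z => Module.finrank K (N z))]

end Pool.Agent.D0H89.OF
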