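import Pool.Agent.D0H89.OF.Stm3

set_option autoImplicit false

open Polynomial

namespace Pool.Agent.D0H89.OF

theorem numEig_eq {ι K : Type} [Fintype ι] [DecidableEq ι] [Field K] (A : Matrix ι ι K) :
    numEig A = (spectrum K A).ncard := by
  rw [numEig]
  congr 1
  ext z
  rw [Matrix.mem_spectrum_iff_isRoot_charpoly, Polynomial.mem_rootSet_of_ne
    (Matrix.charpoly_monic A).ne_zero, Polynomial.IsRoot.def, Polynomial.coe_aeval_eq_eval]

theorem t_CHR : S_CHR := by
  intro ι K _ _ _ A ν hc hν
  rw [numEig_eq, numEig_eq]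
  congr 1
  ext z
  rw [spectrum.mem_iff, spectrum.mem_iff, not_iff_not]
  have h1 : algebraMap K (Matrix ι ι K) z - (A + ν) = (algebraMap K (Matrix ι ι K) z - A) + -ν := by
    abel
  have h2 : Commute (algebraMap K (Matrix ι ι K) z - A) (-ν) :=
    ((Algebra.commute_algebraMap_left z ν).sub_left hc).neg_right
  rw [h1]
  constructor
  · intro h
    have h3 := hν.isUnit_add_right_of_commute h (by
      refine Commute.add_right ?_ (Commute.refl ν).neg_right
      exact ((Algebra.commute_algebraMap_left z ν).sub_left hc).symm)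
    simpa using h3
  · intro h
    exact hν.neg.isUnit_add_left_of_commute h h2.symm

end Pool.Agent.D0H89.OF
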