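import Pool.Agent.D0H89.OF.Stm4

set_option autoImplicit false

namespace Pool.Agent.D0H89.OF

theorem t_CNJ : S_CNJ := by
  intro ι K _ _ _ A P P' k h1 h2
  unfold jordanDim
  congr 1
  funext z
  have e : ∀ k : ℕ, (P' * A * P - Matrix.scalar ι z) ^ k =
      P' * (A - Matrix.scalar ι z) ^ k * P := by
    intro k
    have e1 : P' * A * P - Matrix.scalar ι z = P' * (A - Matrix.scalar ι z) * P := by
      rw [mul_sub, sub_mul, ← (Matrix.scalar_commute z (fun _ => Commute.all _ _) P').eq,
        mul_assoc (Matrix.scalar ι z), h2, mul_one]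
    rw [e1]
    induction k with
    | zero => rw [pow_zero, pow_zero, mul_one, h2]
    | succ k ih =>
      rw [pow_succ, ih, pow_succ]
      calc _ = P' * (A - Matrix.scalar ι z) ^ k * (P * P') * (A - Matrix.scalar ι z) * P := by
            simp only [mul_assoc]
        _ = _ := by rw [h1, mul_one]; simp only [mul_assoc]
  -- the isomorphism given by `P`
  let φ : (ι → K) ≃ₗ[K] (ι → K) :=
    LinearEquiv.ofLinear (Matrix.toLin' P) (Matrix.toLin' P')
      (by rw [← Matrix.toLin'_mul, h1, Matrix.toLin'_one])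
      (by rw [← Matrix.toLin'_mul, h2, Matrix.toLin'_one])
  have hmap : (LinearMap.ker (Matrix.toLin' ((P' * A * P - Matrix.scalar ι z) ^ k))).map
      (φ : (ι → K) →ₗ[K] (ι → K)) =
      LinearMap.ker (Matrix.toLin' ((A - Matrix.scalar ι z) ^ k)) := by
    ext v
    rw [Submodule.mem_map, LinearMap.mem_ker, Matrix.toLin'_apply]
    constructor
    · rintro ⟨w, hw, rfl⟩
      rw [LinearMap.mem_ker, Matrix.toLin'_apply, e, ← Matrix.mulVec_mulVec,
        ← Matrix.mulVec_mulVec] at hw
      have h3 := congrArg P.mulVec hw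
      rw [Matrix.mulVec_mulVec, h1, Matrix.one_mulVec, Matrix.mulVec_zero] at h3
      exact h3
    · intro hv
      refine ⟨P'.mulVec v, ?_, ?_⟩
      · rw [LinearMap.mem_ker, Matrix.toLin'_apply, e, ← Matrix.mulVec_mulVec,
          ← Matrix.mulVec_mulVec, Matrix.mulVec_mulVec v P P', h1, Matrix.one_mulVec, hv,
          Matrix.mulVec_zero]
      · change P.mulVec (P'.mulVec v) = v
        rw [Matrix.mulVec_mulVec, h1, Matrix.one_mulVec]
  rw [← hmap]
  exact (LinearEquiv.finrank_map_eq φ _).symm

end Pool.Agent.D0H89.OF
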