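import Pool.Agent.D0H89.OF.Key

/-!
# Density one
-/

set_option autoImplicit false
set_option linter.unusedSectionVars false

open Polynomial MeasureTheory

namespace Pool.Agent.D0H89.OF

section Poly

variable {ι K : Type} [Fintype ι] [DecidableEq ι] [Field K]

/-- the generic matrix -/
noncomputable def gm : Matrix ι ι (MvPolynomial (ι × ι) K) :=
  Matrix.of fun i j => MvPolynomial.X (i, j)

/-- The Gram determinant of `1, X, ..., X^(k-1)` as a polynomial in the entries. -/
noncomputable def gp (k : ℕ) : MvPolynomial (ι × ι) K :=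
  gram (gm : Matrix ι ι (MvPolynomial (ι × ι) K)) (fun a : Fin k => (X : K[X]) ^ (a : ℕ))
    (fun a => X ^ (a : ℕ))

theorem eval_gp {G : Type} (ρ : G → Matrix ι ι K) (γ : G) (k : ℕ) :
    MvPolynomial.eval (entries ρ γ) (gp k) =
      gram (ρ γ) (fun a : Fin k => (X : K[X]) ^ (a : ℕ)) (fun a => X ^ (a : ℕ)) := by
  have h := gram_map (MvPolynomial.aeval (entries ρ γ) : MvPolynomial (ι × ι) K →ₐ[K] K)
    (gm : Matrix ι ι (MvPolynomial (ι × ι) K)) (fun a : Fin k => (X : K[X]) ^ (a : ℕ))
    (fun a => X ^ (a : ℕ))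
  rw [← MvPolynomial.coe_aeval_eq_eval]
  refine h.trans ?_
  congr 1
  ext i j
  simp [gm, entries]

end Poly

section Den

variable {ι K Γ : Type} [Fintype ι] [DecidableEq ι] [Field K] [IsAlgClosed K] [CharZero K]
  [TopologicalSpace K] [IsTopologicalRing K] [T2Space K] [Group Γ] [TopologicalSpace Γ]
  [IsTopologicalGroup Γ] [CompactSpace Γ] [T2Space Γ] [TotallyDisconnectedSpace Γ]
  [MeasurableSpace Γ] [BorelSpace Γ]

theorem numEig_le (A : Matrix ι ι K) : numEig A ≤ Fintype.card ι := by
  classical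
  rw [numEig, Polynomial.rootSet_def, Set.ncard_coe_finset]
  refine (Multiset.toFinset_card_le _).trans ?_
  refine (Polynomial.card_roots' _).trans ?_
  refine (Polynomial.natDegree_map_le).trans ?_
  rw [Matrix.charpoly_natDegree_eq_dim]

theorem numEig_conj (ρ : Γ →* Matrix ι ι K) (x γ : Γ) : numEig (ρ (x * γ * x⁻¹)) = numEig (ρ γ) := by
  have h : (ρ (x * γ * x⁻¹)).charpoly = (ρ γ).charpoly := by
    have h1 : ρ x * ρ x⁻¹ = 1 := by rw [← map_mul, mul_inv_cancel, map_one]
    have h2 : ρ x⁻¹ * ρ x = 1 := by rw [← map_mul, inv_mul_cancel, map_one]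
    rw [map_mul, map_mul, Matrix.charpoly_mul_comm, ← mul_assoc, h2, one_mul]
  rw [numEig, numEig, h]

theorem cont_eval (ρ : Γ →* Matrix ι ι K) (hρ : Continuous ρ) (p : MvPolynomial (ι × ι) K) :
    Continuous fun γ => MvPolynomial.eval (entries ρ γ) p := by
  have h : Continuous fun γ => entries ρ γ := by
    refine continuous_pi fun i => ?_
    exact hρ.matrix_elem i.1 i.2
  exact (MvPolynomial.continuous_eval p).comp h

end Den

end Pool.Agent.D0H89.OF
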