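import Pool.Agent.D0H89.OF.Split

/-!
# Gram determinants over the dual numbers
-/

set_option autoImplicit false

open Polynomial

namespace Pool.Agent.D0H89.OF

variable {ι K : Type} [Fintype ι] [DecidableEq ι] [Field K]

/-- the constant term of a matrix of dual numbers -/
def m0 (M : Matrix ι ι (DualNumber K)) : Matrix ι ι K := M.map TrivSqZeroExt.fst
/-- the coefficient of `ε` of a matrix of dual numbers -/
def m1 (M : Matrix ι ι (DualNumber K)) : Matrix ι ι K := M.map TrivSqZeroExt.snd

theorem m0_mul (A B : Matrix ι ι (DualNumber K)) : m0 (A * B) = m0 A * m0 B := by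
  ext i j
  simp [m0, Matrix.mul_apply, TrivSqZeroExt.fst_sum]

theorem m1_mul (A B : Matrix ι ι (DualNumber K)) : m1 (A * B) = m0 A * m1 B + m1 A * m0 B := by
  ext i j
  simp only [m0, m1, Matrix.mul_apply, Matrix.map_apply, Matrix.add_apply, TrivSqZeroExt.snd_sum,
    ← Finset.sum_add_distrib]
  refine Finset.sum_congr rfl fun k _ => ?_
  simp [mul_comm]

theorem m0_one : m0 (1 : Matrix ι ι (DualNumber K)) = 1 := by
  ext i j
  simp only [m0, Matrix.map_apply, Matrix.one_apply]
  split_ifs <;> simp

theorem m1_one : m1 (1 : Matrix ι ι (DualNumber K)) = 0 := by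
  ext i j
  simp only [m1, Matrix.map_apply, Matrix.one_apply, Matrix.zero_apply]
  split_ifs <;> simp

theorem fst_trace (M : Matrix ι ι (DualNumber K)) : (M.trace).fst = (m0 M).trace := by
  simp [Matrix.trace, m0, TrivSqZeroExt.fst_sum]

theorem snd_trace (M : Matrix ι ι (DualNumber K)) : (M.trace).snd = (m1 M).trace := by
  simp [Matrix.trace, m1, TrivSqZeroExt.snd_sum]

theorem m0_pow (M : Matrix ι ι (DualNumber K)) (n : ℕ) : m0 (M ^ n) = m0 M ^ n := by
  induction n with
  | zero => rw [pow_zero, pow_zero, m0_one]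
  | succ n ih => rw [pow_succ, pow_succ, m0_mul, ih]

theorem trace_m1_pow (M : Matrix ι ι (DualNumber K)) (n : ℕ) : ∀ j : ℕ,
    (m1 (M ^ n) * m0 M ^ j).trace = n * (m0 M ^ (n - 1 + j) * m1 M).trace := by
  induction n with
  | zero => intro j; rw [pow_zero, m1_one]; simp
  | succ n ih =>
    intro j
    rw [pow_succ, m1_mul, add_mul, Matrix.trace_add, m0_pow, mul_assoc (m1 (M ^ n)), ← pow_succ', ih,
      Matrix.trace_mul_cycle, Nat.add_sub_cancel, ← pow_add, add_comm j n]
    rcases Nat.eq_zero_or_pos n with rfl | hn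
    · simp
    · have : n - 1 + (j + 1) = n + j := by omega
      rw [this]
      push_cast
      ring

theorem aeval_trace_fst (M : Matrix ι ι (DualNumber K)) (f : K[X]) :
    ((aeval M f).trace).fst = (aeval (m0 M) f).trace := by
  induction f using Polynomial.induction_on' with
  | add p q hp hq => rw [map_add, map_add, Matrix.trace_add, Matrix.trace_add, TrivSqZeroExt.fst_add,
      hp, hq]
  | monomial n a =>
    rw [fst_trace, aeval_monomial, aeval_monomial, m0_mul, m0_pow]
    congr 2
    ext i j
    simp only [m0, Matrix.map_apply, Matrix.algebraMap_matrix_apply]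
    split_ifs <;> simp [TrivSqZeroExt.algebraMap_eq_inl]

theorem aeval_trace_snd (M : Matrix ι ι (DualNumber K)) (f : K[X]) :
    ((aeval M f).trace).snd = (aeval (m0 M) (derivative f) * m1 M).trace := by
  induction f using Polynomial.induction_on' with
  | add p q hp hq => rw [map_add, map_add, map_add, Matrix.trace_add, add_mul, Matrix.trace_add,
      TrivSqZeroExt.snd_add, hp, hq]
  | monomial n a =>
    rw [snd_trace, aeval_monomial, m1_mul]
    have h0 : m0 (algebraMap K (Matrix ι ι (DualNumber K)) a) = algebraMap K (Matrix ι ι K) a := by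
      ext i j
      simp only [m0, Matrix.map_apply, Matrix.algebraMap_matrix_apply]
      split_ifs <;> simp [TrivSqZeroExt.algebraMap_eq_inl]
    have h1 : m1 (algebraMap K (Matrix ι ι (DualNumber K)) a) = 0 := by
      ext i j
      simp only [m1, Matrix.map_apply, Matrix.algebraMap_matrix_apply, Matrix.zero_apply]
      split_ifs <;> simp [TrivSqZeroExt.algebraMap_eq_inl]
    have h2 := trace_m1_pow M n 0
    rw [pow_zero, mul_one, add_zero] at h2
    rw [h0, h1, zero_mul, add_zero, derivative_monomial, aeval_monomial,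
      Algebra.algebraMap_eq_smul_one, Algebra.algebraMap_eq_smul_one, smul_mul_assoc, one_mul,
      smul_mul_assoc, one_mul, smul_mul_assoc, Matrix.trace_smul, Matrix.trace_smul, h2, smul_eq_mul,
      smul_eq_mul, mul_assoc]

/-- **The derivative of a Gram determinant of maximal rank.** -/
theorem gram_deriv (M : Matrix ι ι (DualNumber K)) (k : ℕ) (u v : K[X])
    (hu : IsNilpotent (aeval (m0 M) u)) (hv : IsNilpotent (aeval (m0 M) v))
    (h0 : gram (m0 M) (fun a : Fin k => (X : K[X]) ^ (a : ℕ)) (fun a => X ^ (a : ℕ)) ≠ 0)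
    (h : gram M (Fin.snoc (fun a : Fin k => (X : K[X]) ^ (a : ℕ)) u)
      (Fin.snoc (fun a : Fin k => (X : K[X]) ^ (a : ℕ)) v) = 0) :
    (aeval (m0 M) (derivative (u * v)) * m1 M).trace = 0 := by
  set p : Fin (k + 1) → K[X] := Fin.snoc (fun a : Fin k => (X : K[X]) ^ (a : ℕ)) u with hp
  set q : Fin (k + 1) → K[X] := Fin.snoc (fun a : Fin k => (X : K[X]) ^ (a : ℕ)) v with hq
  set G : Matrix (Fin (k + 1)) (Fin (k + 1)) (DualNumber K) :=
    Matrix.of fun a b => (aeval M (p a) * aeval M (q b)).trace with hG
  have hdet : G.det = 0 := h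
  have hnil : ∀ f g : K[X], IsNilpotent (aeval (m0 M) f) →
      (aeval (m0 M) (f * g)).trace = 0 := by
    intro f g hf
    rw [map_mul]
    apply IsNilpotent.eq_zero
    apply Matrix.isNilpotent_trace_of_isNilpotent
    have hc : Commute (aeval (m0 M) f) (aeval (m0 M) g) := by
      show _ * _ = _ * _
      rw [← map_mul, ← map_mul, mul_comm]
    exact hc.isNilpotent_mul_right hf
  have hfst : ∀ a b, (G a b).fst = (aeval (m0 M) (p a * q b)).trace := by
    intro a b
    rw [hG, Matrix.of_apply, ← map_mul, aeval_trace_fst]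
  have hlastrow : ∀ b, (G (Fin.last k) b).fst = 0 := by
    intro b
    rw [hfst, hp, Fin.snoc_last]
    exact hnil u _ hu
  have hlastcol : ∀ a, (G a (Fin.last k)).fst = 0 := by
    intro a
    rw [hfst, hq, Fin.snoc_last, mul_comm]
    exact hnil v _ hv
  have hfd : ∀ (n : ℕ) (D : Matrix (Fin n) (Fin n) (DualNumber K)),
      (D.det).fst = (Matrix.of fun a b => (D a b).fst).det := by
    intro n D
    rw [show (D.det).fst = TrivSqZeroExt.fstHom K K K D.det from rfl, AlgHom.map_det]
    congr 1
  have hmul : ∀ x y z : DualNumber K, y.fst = 0 → (x * y * z).snd = x.fst * y.snd * z.fst := by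
    intro x y z hy
    simp [hy]
  rw [Matrix.det_succ_row G (Fin.last k)] at hdet
  have h3 := congrArg TrivSqZeroExt.snd hdet
  rw [TrivSqZeroExt.snd_sum, TrivSqZeroExt.snd_zero, Fin.sum_univ_castSucc,
    Finset.sum_eq_zero, zero_add, hmul _ _ _ (hlastrow _), hfd] at h3
  · have h4 : ((-1 : DualNumber K) ^ (((Fin.last k : Fin (k + 1)) : ℕ) +
        ((Fin.last k : Fin (k + 1)) : ℕ))).fst = 1 := by
      rw [← two_mul, pow_mul]
      simp
    rw [h4, one_mul] at h3
    rcases mul_eq_zero.1 h3 with h5 | h5
    · rw [hG, Matrix.of_apply, ← map_mul, aeval_trace_snd, hp, hq, Fin.snoc_last, Fin.snoc_last] at h5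
      exact h5
    · exfalso
      apply h0
      rw [← h5, gram]
      congr 1
      ext a b
      simp only [Matrix.of_apply, Matrix.submatrix_apply]
      rw [hfst, Fin.succAbove_last, hp, hq, Fin.snoc_castSucc, Fin.snoc_castSucc, map_mul]
  · intro b _
    rw [hmul _ _ _ (hlastrow _), hfd]
    have h4 : (Matrix.of fun a c => (G.submatrix (Fin.last k).succAbove (Fin.castSucc b).succAbove
        a c).fst).det = 0 := by
      obtain ⟨c, hc⟩ := Fin.exists_succAbove_eq (x := Fin.last k) (y := Fin.castSucc b)
        (Fin.castSucc_lt_last b).ne'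
      apply Matrix.det_eq_zero_of_column_eq_zero c
      intro a
      simp only [Matrix.of_apply, Matrix.submatrix_apply, hc]
      exact hlastcol _
    rw [h4, mul_zero]

end Pool.Agent.D0H89.OF
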