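import Pool.Agent.D0H89.OF.Stm2

/-!
# Families of complete varieties over a finite field
-/

set_option autoImplicit false

open MeasureTheory

namespace Pool.Agent.D0H89.OF

/-- The cohomology in degree `i` of the fibres of a proper morphism `X → S`, where `S` is a connected
normal scheme of finite type over a finite field and `Rⁱ f_* ℚ̄_ℓ` is lisse: `Γ = π₁(S)` with the Haar
measure `μ`, `P` is the set of the closed points of `S`, `ι` is a basis of the stalk `V` of
`Rⁱ f_* ℚ̄_ℓ` at a geometric generic point, adapted to the weight filtration. -/
structure Family (ι P K Γ : Type) [Fintype ι] [DecidableEq ι] [Field K] [TopologicalSpace K]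
    [Group Γ] [TopologicalSpace Γ] [IsTopologicalGroup Γ] [MeasurableSpace Γ] (μ : Measure Γ) where
  /-- the action of `π₁(S)` on `V` -/
  ρ : Γ →* Matrix ι ι K
  cont : Continuous ρ
  /-- the weights of the elements of the basis -/
  wt : ι → ℤ
  /-- the weight filtration is stable -/
  filtered : ∀ γ, (ρ γ).BlockTriangular wt
  /-- the geometric fundamental group -/
  geom : Subgroup Γ
  normal : geom.Normal
  /-- the pure graded pieces of `V` are semisimple representations of the geometric fundamental
  group (Deligne) -/
  pure_semi : Semi ((fun γ => grM wt (ρ γ)) '' (geom : Set Γ))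
  /-- the Frobenius elements of the closed points -/
  frob : P → Γ
  /-- Frobenius has different eigenvalues on the different graded pieces (Deligne) -/
  weights : ∀ x, Apart wt (ρ (frob x))
  /-- `geom` and a Frobenius element of degree `n` generate a subgroup of index `n` -/
  index : ∀ x, (geom ⊔ Subgroup.zpowers (frob x)).topologicalClosure.FiniteIndex
  /-- the number of elements of the residue field -/
  nm : P → ℝ
  one_lt_nm : ∀ x, 1 < nm x
  /-- the dimension of `S` -/
  dim : ℝ
  summable : ∀ s : ℝ, dim < s → Summable fun x => (nm x) ^ (-s)
  /-- Chebotarev's density theorem (Serre) -/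
  chebotarev : ∀ C : Set Γ, IsClopen C → (∀ x, ∀ γ ∈ C, x * γ * x⁻¹ ∈ C) →
    HasDensity nm dim {x | frob x ∈ C} (μ C).toReal

namespace Family

variable {ι P K Γ : Type} [Fintype ι] [DecidableEq ι] [Field K] [TopologicalSpace K]
  [Group Γ] [TopologicalSpace Γ] [IsTopologicalGroup Γ] [MeasurableSpace Γ] {μ : Measure Γ}

/-- The closed points such that Frobenius is semisimple on the cohomology in degree `i` of the
fibre. -/
def Good (F : Family ι P K Γ μ) : Set P := {x | IsSS (F.ρ (F.frob x))}

/-- The graded pieces of `Rⁱ f_* ℚ̄_ℓ` for the weight filtration are semisimple representations of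
`π₁(S)`. -/
def Arith (F : Family ι P K Γ μ) : Prop := Semi (Set.range fun γ => grM F.wt (F.ρ γ))

/-- The closed points `x` such that the number of the different eigenvalues of Frobenius is maximal
among the closed points whose Frobenius elements are conjugate modulo `U` to the one of `x`. -/
def MaxMod (F : Family ι P K Γ μ) (U : Subgroup Γ) : Set P :=
  {x | ∀ y, (∃ g, (F.frob x)⁻¹ * (g * F.frob y * g⁻¹) ∈ U) →
    numEig (F.ρ (F.frob y)) ≤ numEig (F.ρ (F.frob x))}

end Family

end Pool.Agent.D0H89.OF
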