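import Pool.Agent.D0H89.OF.Fam
import Pool.Agent.D0H89.OF.Stm3

/-!
# Families of complete varieties over a finite field, with the degree
-/

set_option autoImplicit false

open MeasureTheory

namespace Pool.Agent.D0H89.OF

/-- A family with the degree homomorphism `π₁(S) → π₁(Spec 𝔽_q) = ℤ^ → ℤ_ℓ ⊆ K`. -/
structure DegFamily (ι P K Γ : Type) [Fintype ι] [DecidableEq ι] [Field K] [TopologicalSpace K]
    [Group Γ] [TopologicalSpace Γ] [IsTopologicalGroup Γ] [MeasurableSpace Γ] (μ : Measure Γ)
    extends Family ι P K Γ μ where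
  /-- the degree -/
  deg : Γ → K
  deg_cont : Continuous deg
  deg_mul : ∀ x y, deg (x * y) = deg x + deg y
  deg_geom : ∀ x ∈ geom, deg x = 0
  /-- the quotient of `π₁(S)` by the geometric fundamental group is topologically generated by an
  element of degree `1` -/
  exists_gen : ∃ g, deg g = 1 ∧ (geom ⊔ Subgroup.zpowers g).topologicalClosure = ⊤
  /-- the degrees of the closed points -/
  degP : P → ℕ
  degP_pos : ∀ x, 0 < degP x
  deg_frob : ∀ x, deg (frob x) = degP x

namespace DegFamily

variable {ι P K Γ : Type} [Fintype ι] [DecidableEq ι] [Field K] [TopologicalSpace K]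
  [Group Γ] [TopologicalSpace Γ] [IsTopologicalGroup Γ] [MeasurableSpace Γ] {μ : Measure Γ}

/-- `d` is a nilpotent endomorphism of the lisse sheaf `gr Rⁱ f_* ℚ̄_ℓ`, and the representation
`γ ↦ ρ(γ) exp(-deg(γ) d)` of `π₁(S)` is semisimple, `ρ` the representation on the graded space. -/
structure IsLog [CharZero K] (F : DegFamily ι P K Γ μ) (d : Matrix ι ι K) : Prop where
  nilp : IsNilpotent d
  comm : ∀ γ, grM F.wt (F.ρ γ) * d = d * grM F.wt (F.ρ γ)
  semi : Semi (Set.range fun γ => grM F.wt (F.ρ γ) * IsNilpotent.exp (-(F.deg γ) • d))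

/-- All Jordan blocks of the Frobenius element of `x` on the cohomology in degree `i` of the fibre over
`x` have the size at most `m`. -/
def Blocks (F : DegFamily ι P K Γ μ) (m : ℕ) (x : P) : Prop := BlocksLE m (F.ρ (F.frob x))

end DegFamily

end Pool.Agent.D0H89.OF
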