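import Pool.Agent.D0H89.OF.Gen
import Pool.Agent.D0H89.OF.Fam
import Pool.Agent.D0H21.OF.Lie
import Pool.Agent.D0H21.OF.Comp
import Pool.Agent.D0H98.OF.One
import Pool.Agent.D0H98.OF.Dens
import Pool.Agent.D0H52.OF.Gram
import Pool.Agent.D0H52.OF.Rad
import Pool.Agent.D0H35.OF.Jord
import Pool.Agent.D0H35.OF.Prof

/-!
# One fibre decides: the assembly
-/

set_option autoImplicit false
set_option linter.unusedSectionVars false

open Polynomial MeasureTheory

namespace Pool.Agent.D0H89.OF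

section gr

variable {ι J K : Type} [Fintype ι] [DecidableEq ι] [LinearOrder J] [Field K] (b : ι → J)

theorem grM_mul {A B : Matrix ι ι K} (hA : A.BlockTriangular b) (hB : B.BlockTriangular b) :
    grM b (A * B) = grM b A * grM b B := by
  ext i k
  simp only [grM, Matrix.mul_apply, Matrix.of_apply]
  split_ifs with h
  · refine Finset.sum_congr rfl fun j _ => ?_
    by_cases h1 : b i = b j
    · rw [if_pos h1, if_pos (h1.symm.trans h)]
    · rw [if_neg h1, zero_mul]
      rcases lt_or_gt_of_ne h1 with h2 | h2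
      · rw [hB (show b k < b j by rw [← h]; exact h2), mul_zero]
      · rw [hA h2, zero_mul]
  · refine (Finset.sum_eq_zero fun j _ => ?_).symm
    by_cases h1 : b i = b j
    · rw [if_neg (fun h2 => h (h1.trans h2)), mul_zero]
    · rw [if_neg h1, zero_mul]

theorem grM_one : grM b (1 : Matrix ι ι K) = 1 := by
  ext i k
  by_cases h : i = k
  · subst h
    simp [grM]
  · simp [grM, Matrix.one_apply_ne h]

/-- The associated graded representation. -/
def grRep {Γ : Type} [Group Γ] (ρ : Γ →* Matrix ι ι K) (h : ∀ γ, (ρ γ).BlockTriangular b) :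
    Γ →* Matrix ι ι K where
  toFun γ := grM b (ρ γ)
  map_one' := by rw [map_one, grM_one]
  map_mul' x y := by rw [map_mul, grM_mul b (h x) (h y)]

end gr

section fin

variable {ι P K Γ : Type} [Fintype ι] [DecidableEq ι] [Field K] [IsAlgClosed K] [CharZero K]
  [TopologicalSpace K] [IsTopologicalRing K] [T2Space K] [Group Γ] [TopologicalSpace Γ]
  [IsTopologicalGroup Γ] [CompactSpace Γ] [T2Space Γ] [TotallyDisconnectedSpace Γ]
  [MeasurableSpace Γ] [BorelSpace Γ] {μ : Measure Γ} [IsProbabilityMeasure μ] [μ.IsHaarMeasure]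

/-- The associated graded representation of a family. -/
def Family.gr (F : Family ι P K Γ μ) : Γ →* Matrix ι ι K := grRep F.wt F.ρ F.filtered

theorem Family.gr_cont (F : Family ι P K Γ μ) : Continuous F.gr := by
  refine continuous_matrix fun i k => ?_
  change Continuous fun γ => if F.wt i = F.wt k then F.ρ γ i k else 0
  by_cases h : F.wt i = F.wt k
  · simp only [if_pos h]
    exact F.cont.matrix_elem i k
  · simp only [if_neg h]
    exact continuous_const

theorem Family.numEig_gr (hM : S_MIX) (F : Family ι P K Γ μ) (γ : Γ) :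
    numEig (F.gr γ) = numEig (F.ρ γ) := by
  have h : (F.gr γ).charpoly = (F.ρ γ).charpoly := (hM ι K ℤ F.wt (F.ρ γ) (F.filtered γ)).2
  rw [numEig, numEig, h]

theorem Family.good_iff (hM : S_MIX) (F : Family ι P K Γ μ) (x : P) :
    x ∈ F.Good ↔ IsSS (F.gr (F.frob x)) :=
  (hM ι K ℤ F.wt (F.ρ (F.frob x)) (F.filtered _)).1 (F.weights x)

theorem stable_closed (ρ : Γ →* Matrix ι ι K) (hρ : Continuous ρ) (W : Submodule K (ι → K)) :
    IsClosed {γ | ∀ w ∈ W, (ρ γ).mulVec w ∈ W} := by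
  obtain ⟨W', hW⟩ := W.exists_isCompl
  have hmem : ∀ v, v ∈ W ↔ (LinearMap.toMatrix' (W'.projection W hW.symm)).mulVec v = 0 := by
    intro v
    rw [LinearMap.toMatrix'_mulVec, Submodule.projection_apply_eq_zero_iff]
  simp only [hmem, Set.setOf_forall]
  refine isClosed_iInter fun w => isClosed_iInter fun _ => ?_
  refine isClosed_eq ?_ continuous_const
  exact Continuous.matrix_mulVec continuous_const (Continuous.matrix_mulVec hρ continuous_const)

theorem Family.arith_of_good (hM : S_MIX) (F : Family ι P K Γ μ) (x : P) (hx : x ∈ F.Good) :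
    F.Arith := by
  rw [F.good_iff hM] at hx
  have hn := F.normal
  have h := Pool.Agent.D0H98.OF.t_ONE ι K Γ F.gr F.geom
    (F.geom ⊔ Subgroup.zpowers (F.frob x)).topologicalClosure (F.frob x) F.normal (F.index x)
    F.pure_semi hx ?_
  · exact h
  intro W h1 h2
  let T : Subgroup Γ :=
    { carrier := {γ | (∀ w ∈ W, (F.gr γ).mulVec w ∈ W) ∧ ∀ w ∈ W, (F.gr γ⁻¹).mulVec w ∈ W}
      one_mem' := by
        constructor <;> intro w hw <;> simpa using hw
      mul_mem' := by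
        rintro a c ⟨ha, ha'⟩ ⟨hc, hc'⟩
        constructor
        · intro w hw
          rw [map_mul, ← Matrix.mulVec_mulVec]
          exact ha _ (hc _ hw)
        · intro w hw
          rw [mul_inv_rev, map_mul, ← Matrix.mulVec_mulVec]
          exact hc' _ (ha' _ hw)
      inv_mem' := by
        rintro a ⟨ha, ha'⟩
        exact ⟨ha', by rw [inv_inv]; exact ha⟩ }
  have hTc : IsClosed (T : Set Γ) := by
    have h3 := stable_closed F.gr F.gr_cont W
    exact h3.inter (h3.preimage continuous_inv)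
  have hle : F.geom ⊔ Subgroup.zpowers (F.frob x) ≤ T := by
    rw [sup_le_iff, Subgroup.zpowers_le]
    refine ⟨fun γ hγ => ⟨h1 _ ⟨γ, hγ, rfl⟩, h1 _ ⟨γ⁻¹, F.geom.inv_mem hγ, rfl⟩⟩,
      h2 _ (Set.mem_insert _ _), h2 _ (Set.mem_insert_of_mem _ rfl)⟩
  have hle' := Subgroup.topologicalClosure_minimal _ hle hTc
  rintro _ ⟨γ, hγ, rfl⟩
  exact (hle' hγ).1

theorem Family.key' (F : Family ι P K Γ μ) (ha : F.Arith) (U : Subgroup Γ) (hUn : U.Normal)
    (hU : IsOpen (U : Set Γ)) (g : Γ)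
    (hmax : ∀ h, g⁻¹ * h ∈ U → numEig (F.gr h) ≤ numEig (F.gr g)) : IsSS (F.gr g) := by
  have hf : U.FiniteIndex := by
    have h1 : Finite (Γ ⧸ U) := by
      have h2 : DiscreteTopology (Γ ⧸ U) := QuotientGroup.discreteTopology hU
      have h3 : CompactSpace (Γ ⧸ U) := inferInstance
      exact finite_of_compact_of_discrete
    exact Subgroup.finiteIndex_of_finite_quotient
  exact key Pool.Agent.D0H35.OF.t_JORD Pool.Agent.D0H52.OF.t_GRAM0 Pool.Agent.D0H52.OF.t_GRAM1
    Pool.Agent.D0H52.OF.t_RAD Pool.Agent.D0H21.OF.t_LIE F.gr ha U hUn hf g hmax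

/-- A closed conjugation invariant null set contains the Frobenius elements of a set of closed points
of density zero. -/
theorem Family.density [Nonempty P] (F : Family ι P K Γ μ) (B : Set Γ) (hBc : IsClosed B)
    (hBi : ∀ x, ∀ γ ∈ B, x * γ * x⁻¹ ∈ B) (hB0 : μ B = 0) (S : Set P)
    (hS : ∀ x, F.frob x ∉ B → x ∈ S) : HasDensity F.nm F.dim S 1 := by
  have h := Pool.Agent.D0H98.OF.t_DENS P F.nm F.dim F.one_lt_nm F.summable Sᶜ ?_
  · rwa [compl_compl] at h
  intro ε hε
  obtain ⟨C, hC1, hC2, hC3, hC4⟩ := Pool.Agent.D0H35.OF.t_PROF Γ μ B hBc hBi hB0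
    (ENNReal.ofReal ε) (ENNReal.ofReal_pos.2 hε)
  refine ⟨{x | F.frob x ∈ C}, (μ C).toReal, ?_, ?_, F.chebotarev C hC1 hC2⟩
  · intro x hx
    by_contra hxC
    exact hx (hS x fun h1 => hxC (hC3 h1))
  · exact ENNReal.toReal_lt_of_lt_ofReal hC4

theorem Family.nonempty_of_density [Nonempty P] (F : Family ι P K Γ μ) (S : Set P) (δ : ℝ)
    (hδ : δ ≠ 0) (h : HasDensity F.nm F.dim S δ) : S.Nonempty := by
  by_contra hne
  rw [Set.not_nonempty_iff_eq_empty] at hne
  subst hne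
  apply hδ
  refine tendsto_nhds_unique h ?_
  refine tendsto_const_nhds.congr fun s => ?_
  rw [tsum_empty, zero_div]

theorem Family.max_of_maxMod [Nonempty P] (hM : S_MIX) (F : Family ι P K Γ μ) (U : Subgroup Γ)
    (hUn : U.Normal) (hU : IsOpen (U : Set Γ)) (x : P) (hx : x ∈ F.MaxMod U) (h : Γ)
    (hh : (F.frob x)⁻¹ * h ∈ U) : numEig (F.gr h) ≤ numEig (F.gr (F.frob x)) := by
  by_contra hlt
  rw [not_le] at hlt
  obtain ⟨k, hk⟩ : ∃ k, numEig (F.gr h) = k + 1 := ⟨numEig (F.gr h) - 1, by omega⟩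
  have h1 : IsOpen {γ | (F.frob x)⁻¹ * γ ∈ (U : Set Γ) ∧
      MvPolynomial.eval (entries F.gr γ) (gp (k + 1)) ≠ 0} := by
    apply IsOpen.inter
    · exact hU.preimage (continuous_const.mul continuous_id)
    · exact isOpen_ne_fun (cont_eval F.gr F.gr_cont _) continuous_const
  obtain ⟨C, hC1, hC2, hC3, hC4⟩ := exists_clopen _ h1 h ⟨hh, by
    rw [eval_gp]
    exact Pool.Agent.D0H52.OF.t_GRAM1 ι K (F.gr h) (k + 1) hk⟩
  have hpos : (μ C).toReal ≠ 0 := by
    have h2 : μ C ≠ 0 := (hC1.isOpen.measure_pos μ ⟨h, hC3⟩).ne'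
    exact (ENNReal.toReal_pos h2 (measure_ne_top μ C)).ne'
  obtain ⟨y, hy⟩ := F.nonempty_of_density _ _ hpos (F.chebotarev C hC1 hC2)
  obtain ⟨g, hg1, hg2⟩ := hC4 _ hy
  have h3 := hx y ⟨g, hg1⟩
  rw [← F.numEig_gr hM, ← F.numEig_gr hM, ← numEig_conj F.gr g] at h3
  apply hg2
  rw [eval_gp]
  exact Pool.Agent.D0H52.OF.t_GRAM0 ι K _ k (by omega) _ _

theorem Family.main [Nonempty P] (hM : S_MIX) (F : Family ι P K Γ μ) :
    [F.Good.Nonempty, F.Arith, HasDensity F.nm F.dim F.Good 1].TFAE ∧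
    (F.Good.Nonempty → ∀ U : Subgroup Γ, U.Normal → IsOpen (U : Set Γ) → F.MaxMod U ⊆ F.Good) ∧
    ∃ U₀ : Subgroup Γ, U₀.Normal ∧ IsOpen (U₀ : Set Γ) ∧
      ∀ U : Subgroup Γ, U ≤ U₀ → HasDensity F.nm F.dim (F.MaxMod U) 1 := by
  obtain ⟨H, hHn, hHo, B, hBc, hBi, hB0, hB⟩ := generic Pool.Agent.D0H52.OF.t_GRAM0
    Pool.Agent.D0H52.OF.t_GRAM1 Pool.Agent.D0H21.OF.t_COMP μ F.gr F.gr_cont
  have h12 : F.Good.Nonempty → F.Arith := fun ⟨x, hx⟩ => F.arith_of_good hM x hx
  have h23 : F.Arith → HasDensity F.nm F.dim F.Good 1 := by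
    intro ha
    refine F.density B hBc hBi hB0 _ fun x hx => ?_
    rw [F.good_iff hM]
    exact F.key' ha H hHn hHo _ (hB _ hx)
  have h31 : HasDensity F.nm F.dim F.Good 1 → F.Good.Nonempty :=
    F.nonempty_of_density _ _ one_ne_zero
  refine ⟨?_, ?_, H, hHn, hHo, ?_⟩
  · tfae_have 1 → 2 := h12
    tfae_have 2 → 3 := h23
    tfae_have 3 → 1 := h31
    tfae_finish
  · intro hg U hUn hU x hx
    rw [F.good_iff hM]
    exact F.key' (h12 hg) U hUn hU _ (F.max_of_maxMod hM U hUn hU x hx)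
  · intro U hU
    refine F.density B hBc hBi hB0 _ fun x hx => ?_
    rintro y ⟨g, hg⟩
    rw [← F.numEig_gr hM, ← F.numEig_gr hM, ← numEig_conj F.gr g]
    exact hB _ hx _ (hU hg)

end fin

end Pool.Agent.D0H89.OF
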