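import Pool.Agent.D0H89.OF.Fin
import Pool.Agent.D0H89.OF.Fam2
import Pool.Agent.D0H89.OF.Chr
import Pool.Agent.D0H52.OF.Mix

/-!
# The structure theorem: the assembly
-/

set_option autoImplicit false
set_option linter.unusedSectionVars false

open Polynomial MeasureTheory

namespace Pool.Agent.D0H89.OF

section jordan

variable {ι K : Type} [Fintype ι] [DecidableEq ι] [Field K] [IsAlgClosed K] [CharZero K]

theorem isSS_conj_diag (P P' : Matrix ι ι K) (μ : ι → K) (h : P' * P = 1) :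
    IsSS (P * Matrix.diagonal μ * P') := by
  have h' : P * P' = 1 := mul_eq_one_comm.1 h
  rw [Pool.Agent.D0H52.OF.ss_iff]
  intro z v hv
  have e : ∀ v : ι → K, Pool.Agent.D0H52.OF.dz (P * Matrix.diagonal μ * P') z v =
      P.mulVec (fun i => (μ i - z) * (P'.mulVec v) i) := by
    intro v
    have h1 : z • v = P.mulVec (z • P'.mulVec v) := by
      rw [Matrix.mulVec_smul, Matrix.mulVec_mulVec, h', Matrix.one_mulVec]
    change (P * Matrix.diagonal μ * P').mulVec v - z • v = _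
    rw [h1, ← Matrix.mulVec_mulVec, ← Matrix.mulVec_mulVec, ← Matrix.mulVec_sub]
    congr 1
    funext i
    simp only [Pi.sub_apply, Matrix.mulVec_diagonal, Pi.smul_apply, smul_eq_mul]
    ring
  have e2 : ∀ v : ι → K, P'.mulVec (P.mulVec v) = v := fun v => by
    rw [Matrix.mulVec_mulVec, h, Matrix.one_mulVec]
  rw [e, e, e2] at hv
  have h3 := congrArg P'.mulVec hv
  rw [e2, Matrix.mulVec_zero] at h3
  rw [e]
  have h4 : (fun i => (μ i - z) * (P'.mulVec v) i) = 0 := by
    funext i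
    have h5 := congrFun h3 i
    simp only [Pi.zero_apply] at h5 ⊢
    rcases mul_eq_zero.1 h5 with h6 | h6
    · rw [h6, zero_mul]
    · exact h6
  rw [h4, Matrix.mulVec_zero]

/-- The multiplicative Jordan decomposition. -/
theorem exists_jd (A A' : Matrix ι ι K) (h : A * A' = 1) :
    ∃ (s s' n : Matrix ι ι K) (m : ℕ), s * s' = 1 ∧ s' * s = 1 ∧ IsSS s ∧ Commute s n ∧
      n ^ (m + 1) = 0 ∧ A = s * exK n m 1 ∧ A' = exK n m (-1) * s' ∧ n ∈ Algebra.adjoin K {A} := by
  obtain ⟨P, P', μ, N, m, hPP, hPP', hN, hc, hA, hA', hN0, hss⟩ :=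
    Pool.Agent.D0H35.OF.t_JORD ι K A A' h
  have hconj : ∀ X Y : Matrix ι ι K, (P * X * P') * (P * Y * P') = P * (X * Y) * P' := by
    intro X Y
    calc _ = P * X * (P' * P) * Y * P' := by simp only [mul_assoc]
      _ = _ := by rw [hPP', mul_one]; simp only [mul_assoc]
  have hconjp : ∀ (X : Matrix ι ι K) (k : ℕ), (P * X * P') ^ k = P * X ^ k * P' := by
    intro X k
    induction k with
    | zero => rw [pow_zero, pow_zero, mul_one, hPP]
    | succ k ih => rw [pow_succ, ih, hconj, ← pow_succ]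
  have hexp : ∀ t : K, exK (P * N * P') m t = P * exK N m t * P' := by
    intro t
    rw [exK, exK, Finset.mul_sum, Finset.sum_mul]
    refine Finset.sum_congr rfl fun j _ => ?_
    rw [hconjp, Matrix.mul_smul, Matrix.smul_mul]
  have hd1 : (Matrix.diagonal fun i => (μ i : K)) * Matrix.diagonal (fun i => ((μ i)⁻¹ : Kˣ) : ι → K)
      = 1 := by
    rw [Matrix.diagonal_mul_diagonal]
    simp
  have hd2 : Matrix.diagonal (fun i => (((μ i)⁻¹ : Kˣ) : K)) * (Matrix.diagonal fun i => (μ i : K))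
      = 1 := by
    rw [Matrix.diagonal_mul_diagonal]
    simp
  have hnn : (P * N * P') ^ (m + 1) = 0 := by rw [hconjp, hN, mul_zero, zero_mul]
  have hs1 : (P * (Matrix.diagonal fun i => (μ i : K)) * P') *
      (P * Matrix.diagonal (fun i => (((μ i)⁻¹ : Kˣ) : K)) * P') = 1 := by
    rw [hconj, hd1, mul_one, hPP]
  have hs2 : (P * Matrix.diagonal (fun i => (((μ i)⁻¹ : Kˣ) : K)) * P') *
      (P * (Matrix.diagonal fun i => (μ i : K)) * P') = 1 := by
    rw [hconj, hd2, mul_one, hPP]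
  have hAs : A = (P * (Matrix.diagonal fun i => (μ i : K)) * P') * exK (P * N * P') m 1 := by
    rw [hexp, hconj, ← hA]
    calc A = (P * P') * A * (P * P') := by rw [hPP, one_mul, mul_one]
      _ = _ := by simp only [mul_assoc]
  refine ⟨P * (Matrix.diagonal fun i => (μ i : K)) * P',
    P * Matrix.diagonal (fun i => (((μ i)⁻¹ : Kˣ) : K)) * P', P * N * P', m, hs1, hs2,
    isSS_conj_diag P P' _ hPP', ?_, hnn, hAs, ?_, hN0⟩
  · change _ * _ = _ * _
    rw [hconj, hconj, hc.eq]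
  · have h1 : A * (exK (P * N * P') m (-1) *
        (P * Matrix.diagonal (fun i => (((μ i)⁻¹ : Kˣ) : K)) * P')) = 1 := by
      rw [hAs, mul_assoc, ← mul_assoc (exK _ _ 1), ← exK_add _ _ hnn, add_neg_cancel, exK_zero,
        one_mul, hs1]
    have h2 : A' * A = 1 := mul_eq_one_comm.1 h
    calc A' = A' * (A * (exK (P * N * P') m (-1) *
        (P * Matrix.diagonal (fun i => (((μ i)⁻¹ : Kˣ) : K)) * P'))) := by rw [h1, mul_one]
      _ = _ := by rw [← mul_assoc, h2, one_mul]

end jordan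

section twist

variable {ι K Γ : Type} [Fintype ι] [DecidableEq ι] [Field K] [CharZero K] [Group Γ]

/-- The twist of a representation by `exp(-δ(γ) d)`. -/
noncomputable def tw (ρ : Γ →* Matrix ι ι K) (δ : Γ → K) (hδ : ∀ x y, δ (x * y) = δ x + δ y)
    (d : Matrix ι ι K) (M : ℕ) (hd : d ^ (M + 1) = 0) (hc : ∀ γ, ρ γ * d = d * ρ γ) :
    Γ →* Matrix ι ι K where
  toFun γ := ρ γ * exK d M (-δ γ)
  map_one' := by
    have h : δ 1 = 0 := by
      have := hδ 1 1
      rw [mul_one] at this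
      simpa using this
    rw [h, neg_zero, exK_zero, map_one, mul_one]
  map_mul' x y := by
    have h1 : Commute (ρ y) (exK d M (-δ x)) := exK_commute _ _ _ _ (hc y)
    rw [hδ, neg_add, exK_add _ _ hd, map_mul]
    calc ρ x * ρ y * (exK d M (-δ x) * exK d M (-δ y))
        = ρ x * (ρ y * exK d M (-δ x)) * exK d M (-δ y) := by simp only [mul_assoc]
      _ = ρ x * exK d M (-δ x) * (ρ y * exK d M (-δ y)) := by
          rw [h1.eq]; simp only [mul_assoc]

theorem tw_apply (ρ : Γ →* Matrix ι ι K) (δ : Γ → K) (hδ : ∀ x y, δ (x * y) = δ x + δ y)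
    (d : Matrix ι ι K) (M : ℕ) (hd : d ^ (M + 1) = 0) (hc : ∀ γ, ρ γ * d = d * ρ γ) (γ : Γ) :
    tw ρ δ hδ d M hd hc γ = ρ γ * exK d M (-δ γ) := rfl

variable [TopologicalSpace K] [IsTopologicalRing K] [TopologicalSpace Γ]

theorem exK_cont (d : Matrix ι ι K) (M : ℕ) : Continuous fun t : K => exK d M t := by
  refine continuous_matrix fun i j => ?_
  have h : (fun t : K => exK d M t i j) =
      fun t : K => ∑ l ∈ Finset.range (M + 1), (t ^ l * (l.factorial : K)⁻¹) * (d ^ l) i j := by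
    funext t
    rw [exK, Matrix.sum_apply]
    rfl
  rw [h]
  fun_prop

theorem tw_cont (ρ : Γ →* Matrix ι ι K) (δ : Γ → K) (hδ : ∀ x y, δ (x * y) = δ x + δ y)
    (d : Matrix ι ι K) (M : ℕ) (hd : d ^ (M + 1) = 0) (hc : ∀ γ, ρ γ * d = d * ρ γ)
    (hρ : Continuous ρ) (hδc : Continuous δ) : Continuous (tw ρ δ hδ d M hd hc) := by
  change Continuous fun γ => ρ γ * exK d M (-δ γ)
  exact hρ.matrix_mul ((exK_cont d M).comp hδc.neg)

end twist

section nil

variable {ι K : Type} [Fintype ι] [DecidableEq ι] [Field K] [CharZero K]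

theorem trace_nil {A : Matrix ι ι K} (h : IsNilpotent A) : A.trace = 0 :=
  (Matrix.isNilpotent_trace_of_isNilpotent h).eq_zero

/-- A central nilpotent element of an algebra with non-degenerate trace form vanishes. -/
theorem central_nil (𝔄 : Subalgebra K (Matrix ι ι K))
    (h𝔄 : ∀ a ∈ 𝔄, a ≠ 0 → ∃ e ∈ 𝔄, (a * e).trace ≠ 0) (z : Matrix ι ι K) (hz : z ∈ 𝔄)
    (hc : ∀ e ∈ 𝔄, Commute z e) (hn : IsNilpotent z) : z = 0 := by
  by_contra h
  obtain ⟨e, he, h1⟩ := h𝔄 z hz h
  exact h1 (trace_nil ((hc e he).isNilpotent_mul_right hn))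

end nil

section closure

variable {ι K Γ : Type} [Fintype ι] [DecidableEq ι] [Field K] [TopologicalSpace K]
  [IsTopologicalRing K] [T2Space K] [Group Γ] [TopologicalSpace Γ] [IsTopologicalGroup Γ]

theorem stable_closed' (ρ : Γ →* Matrix ι ι K) (hρ : Continuous ρ) (W : Submodule K (ι → K)) :
    IsClosed {γ | ∀ w ∈ W, (ρ γ).mulVec w ∈ W} := by
  obtain ⟨W', hW⟩ := W.exists_isCompl
  have hmem : ∀ v, v ∈ W ↔ (LinearMap.toMatrix' (W'.projection W hW.symm)).mulVec v = 0 := by
    intro v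
    rw [LinearMap.toMatrix'_mulVec, Submodule.projection_apply_eq_zero_iff]
  have h : {γ | ∀ w ∈ W, (ρ γ).mulVec w ∈ W} = ⋂ w ∈ W,
      {γ | (LinearMap.toMatrix' (W'.projection W hW.symm)).mulVec ((ρ γ).mulVec w) = 0} := by
    ext γ
    simp only [Set.mem_iInter]
    exact forall₂_congr fun w _ => hmem _
  rw [h]
  refine isClosed_iInter fun w => isClosed_iInter fun _ => ?_
  refine isClosed_eq ?_ continuous_const
  exact Continuous.matrix_mulVec continuous_const (Continuous.matrix_mulVec hρ continuous_const)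

theorem stable_of_gen (ρ : Γ →* Matrix ι ι K) (hρ : Continuous ρ) (A : Subgroup Γ) (g : Γ)
    (hg : (A ⊔ Subgroup.zpowers g).topologicalClosure = ⊤) (W : Submodule K (ι → K))
    (h1 : Stable (ρ '' (A : Set Γ)) W) (h2 : Stable {ρ g, ρ g⁻¹} W) :
    Stable (Set.range ρ) W := by
  let T : Subgroup Γ :=
    { carrier := {γ | (∀ w ∈ W, (ρ γ).mulVec w ∈ W) ∧ ∀ w ∈ W, (ρ γ⁻¹).mulVec w ∈ W}
      one_mem' := by
        constructor <;> intro w hw <;> simpa using hw
      mul_mem' := by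
        rintro a c ⟨ha, ha'⟩ ⟨hc, hc'⟩
        constructor
        · intro w hw
          rw [map_mul, ← Matrix.mulVec_mulVec]
          exact ha _ (hc _ hw)
        · intro w hw
          rw [mul_inv_rev, map_mul, ← Matrix.mulVec_mulVec]
          exact hc' _ (ha' _ hw)
      inv_mem' := by
        rintro a ⟨ha, ha'⟩
        exact ⟨ha', by rw [inv_inv]; exact ha⟩ }
  have hTc : IsClosed (T : Set Γ) := by
    have h3 := stable_closed' ρ hρ W
    exact h3.inter (h3.preimage continuous_inv)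
  have hle : A ⊔ Subgroup.zpowers g ≤ T := by
    rw [sup_le_iff, Subgroup.zpowers_le]
    refine ⟨fun γ hγ => ⟨h1 _ ⟨γ, hγ, rfl⟩, h1 _ ⟨γ⁻¹, A.inv_mem hγ, rfl⟩⟩,
      h2 _ (Set.mem_insert _ _), h2 _ (Set.mem_insert_of_mem _ rfl)⟩
  have hle' := Subgroup.topologicalClosure_minimal _ hle hTc
  rintro _ ⟨γ, rfl⟩
  exact (hle' (hg ▸ Subgroup.mem_top γ)).1

theorem commute_of_gen (ρ : Γ →* Matrix ι ι K) (hρ : Continuous ρ) (A : Subgroup Γ) (g : Γ)
    (hg : (A ⊔ Subgroup.zpowers g).topologicalClosure = ⊤) (d : Matrix ι ι K)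
    (h1 : ∀ x ∈ A, ρ x * d = d * ρ x) (h2 : ρ g * d = d * ρ g) (γ : Γ) : ρ γ * d = d * ρ γ := by
  have hinv : ∀ x : Γ, ρ x * ρ x⁻¹ = 1 := fun x => by rw [← map_mul, mul_inv_cancel, map_one]
  have hinv' : ∀ x : Γ, ρ x⁻¹ * ρ x = 1 := fun x => by rw [← map_mul, inv_mul_cancel, map_one]
  let T : Subgroup Γ :=
    { carrier := {γ | ρ γ * d = d * ρ γ}
      one_mem' := by
        change ρ 1 * d = d * ρ 1
        rw [map_one, one_mul, mul_one]
      mul_mem' := by
        intro a c ha hc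
        change ρ (a * c) * d = d * ρ (a * c)
        have ha' : ρ a * d = d * ρ a := ha
        have hc' : ρ c * d = d * ρ c := hc
        rw [map_mul, mul_assoc, hc', ← mul_assoc, ha', mul_assoc]
      inv_mem' := by
        intro a ha
        change ρ a⁻¹ * d = d * ρ a⁻¹
        have ha' : ρ a * d = d * ρ a := ha
        calc ρ a⁻¹ * d = ρ a⁻¹ * (d * ρ a) * ρ a⁻¹ := by
              rw [mul_assoc, mul_assoc, hinv, mul_one]
          _ = (ρ a⁻¹ * ρ a) * d * ρ a⁻¹ := by rw [← ha']; simp only [mul_assoc]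
          _ = d * ρ a⁻¹ := by rw [hinv', one_mul] }
  have hTc : IsClosed (T : Set Γ) :=
    isClosed_eq (hρ.matrix_mul continuous_const) (continuous_const.matrix_mul hρ)
  have hle : A ⊔ Subgroup.zpowers g ≤ T := by
    rw [sup_le_iff, Subgroup.zpowers_le]
    exact ⟨h1, h2⟩
  have hle' := Subgroup.topologicalClosure_minimal _ hle hTc
  exact hle' (hg ▸ Subgroup.mem_top γ)

end closure

end Pool.Agent.D0H89.OF
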