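import Pool.Agent.D0H89.OF.Fin2

/-!
# The structure theorem: the nilpotent endomorphism
-/

set_option autoImplicit false
set_option linter.unusedSectionVars false

open Polynomial MeasureTheory

namespace Pool.Agent.D0H89.OF

section alg

variable {ι K : Type} [Fintype ι] [DecidableEq ι] [Field K] [IsAlgClosed K] [CharZero K]

/-- The decomposition `n = b + d` for the Jordan decomposition `g = s exp(n)` of an invertible matrix
which normalizes the algebra `𝔄`. -/
theorem exists_bd (hD : S_DEC) (hLB : S_LOGB) (𝔄 : Subalgebra K (Matrix ι ι K))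
    (h𝔄 : ∀ a ∈ 𝔄, a ≠ 0 → ∃ e ∈ 𝔄, (a * e).trace ≠ 0)
    (s s' n : Matrix ι ι K) (m : ℕ) (hss : s * s' = 1) (hs's : s' * s = 1) (hs : IsSS s)
    (hsn : Commute s n) (hn : n ^ (m + 1) = 0)
    (hg : ∀ X ∈ 𝔄, (s * exK n m 1) * X * (exK n m (-1) * s') ∈ 𝔄) :
    ∃ b d : Matrix ι ι K, n = b + d ∧ d ∈ 𝔄 ∧ (∀ e ∈ 𝔄, b * e = e * b) ∧ IsNilpotent b ∧
      IsNilpotent d ∧ Commute s d := by
  obtain ⟨h1, h2, h3⟩ := hLB ι K s s' n m hss hs hsn hn (Subalgebra.toSubmodule 𝔄) hg
  obtain ⟨b, d, hbd, hd, hb, hbn, hdn⟩ := hD ι K 𝔄 h𝔄 n ⟨m + 1, hn⟩ h3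
  refine ⟨b, d, hbd, hd, hb, hbn, hdn, ?_⟩
  have hconj : ∀ X Y : Matrix ι ι K, (s * X * s') * (s * Y * s') = s * (X * Y) * s' := by
    intro X Y
    calc _ = s * X * (s' * s) * Y * s' := by simp only [mul_assoc]
      _ = _ := by rw [hs's, mul_one]; simp only [mul_assoc]
  have hconjp : ∀ (X : Matrix ι ι K) (k : ℕ), (s * X * s') ^ k = s * X ^ k * s' := by
    intro X k
    induction k with
    | zero => rw [pow_zero, pow_zero, mul_one, hss]
    | succ k ih => rw [pow_succ, ih, hconj, ← pow_succ]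
  have hsns : s * n * s' = n := by rw [hsn.eq, mul_assoc, hss, mul_one]
  have hz : b - s * b * s' = s * d * s' - d := by
    have h4 : s * b * s' + s * d * s' = b + d := by
      rw [← hbd, ← add_mul, ← mul_add, ← hbd, hsns]
    rw [sub_eq_sub_iff_add_eq_add, add_comm (s * d * s'), h4]
  have hzm : b - s * b * s' ∈ 𝔄 := by
    rw [hz]
    exact 𝔄.sub_mem (h1 d hd) hd
  have hbz : Commute b (b - s * b * s') := hb _ hzm
  have hbsb : Commute b (s * b * s') := by
    have h4 : s * b * s' = b - (b - s * b * s') := by abel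
    rw [h4]
    exact (Commute.refl b).sub_right hbz
  have hnil : IsNilpotent (b - s * b * s') := by
    refine hbsb.isNilpotent_sub hbn ?_
    obtain ⟨k, hk⟩ := hbn
    exact ⟨k, by rw [hconjp, hk, mul_zero, zero_mul]⟩
  have hcen : ∀ e ∈ 𝔄, Commute (b - s * b * s') e := by
    intro e he
    have h4 : Commute b e := hb e he
    refine h4.sub_left ?_
    have h5 : Commute b (s' * e * s) := hb _ (h2 e he)
    change s * b * s' * e = e * (s * b * s')
    have h6 : s' * e = (s' * e * s) * s' := by rw [mul_assoc _ s, hss, mul_one]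
    have h7 : e * s = s * (s' * e * s) := by rw [← mul_assoc, ← mul_assoc, hss, one_mul]
    calc s * b * s' * e = s * b * (s' * e) := by rw [mul_assoc]
      _ = s * b * ((s' * e * s) * s') := congrArg (s * b * ·) h6
      _ = s * (b * (s' * e * s)) * s' := by simp only [mul_assoc]
      _ = s * (s' * e * s) * b * s' := by rw [h5.eq]; simp only [mul_assoc]
      _ = e * (s * b * s') := by rw [← h7]; simp only [mul_assoc]
  have h0 := central_nil 𝔄 h𝔄 _ hzm hcen hnil
  rw [hz, sub_eq_zero] at h0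
  change s * d = d * s
  calc s * d = s * d * s' * s := by rw [mul_assoc _ s', hs's, mul_one]
    _ = d * s := by rw [h0]

end alg

section fin

variable {ι P K Γ : Type} [Fintype ι] [DecidableEq ι] [Field K] [IsAlgClosed K] [CharZero K]
  [TopologicalSpace K] [IsTopologicalRing K] [T2Space K] [Group Γ] [TopologicalSpace Γ]
  [IsTopologicalGroup Γ] [CompactSpace Γ] [T2Space Γ] [TotallyDisconnectedSpace Γ]
  [MeasurableSpace Γ] [BorelSpace Γ] {μ : Measure Γ} [IsProbabilityMeasure μ] [μ.IsHaarMeasure]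

theorem DegFamily.exists_d (hT : S_TRN) (hD : S_DEC) (hLB : S_LOGB) (hO : S_ONE2)
    (F : DegFamily ι P K Γ μ) :
    ∃ (d : Matrix ι ι K) (M : ℕ) (hd : d ^ (M + 1) = 0)
      (hc : ∀ γ, F.toFamily.gr γ * d = d * F.toFamily.gr γ),
      Semi (Set.range (tw F.toFamily.gr F.deg F.deg_mul d M hd hc)) := by
  set ρ := F.toFamily.gr with hρ
  have hρc : Continuous ρ := F.toFamily.gr_cont
  have hinv : ∀ x : Γ, ρ x * ρ x⁻¹ = 1 := fun x => by rw [← map_mul, mul_inv_cancel, map_one]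
  have hinv' : ∀ x : Γ, ρ x⁻¹ * ρ x = 1 := fun x => by rw [← map_mul, inv_mul_cancel, map_one]
  obtain ⟨g, hg1, hgt⟩ := F.exists_gen
  obtain ⟨s, s', n, m, hss, hs's, hs, hsn, hn, hA, hA', -⟩ := exists_jd (ρ g) (ρ g⁻¹) (hinv g)
  set 𝔄 : Subalgebra K (Matrix ι ι K) := Subalgebra.centralizer K (ρ '' (F.geom : Set Γ)) with h𝔄d
  have hmem : ∀ X, X ∈ 𝔄 ↔ ∀ x ∈ F.geom, ρ x * X = X * ρ x := by
    intro X
    rw [h𝔄d, Subalgebra.mem_centralizer_iff]
    simp
  have h𝔄 : ∀ a ∈ 𝔄, a ≠ 0 → ∃ e ∈ 𝔄, (a * e).trace ≠ 0 := by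
    intro a ha ha0
    obtain ⟨e, he, h⟩ := hT ι K (ρ '' (F.geom : Set Γ)) F.pure_semi a
      (by rintro _ ⟨x, hx, rfl⟩; exact (hmem a).1 ha x hx) ha0
    exact ⟨e, (hmem e).2 fun x hx => he _ ⟨x, hx, rfl⟩, h⟩
  have hconj : ∀ X ∈ 𝔄, ρ g * X * ρ g⁻¹ ∈ 𝔄 := by
    intro X hX
    rw [hmem] at hX ⊢
    intro x hx
    have h1 : g⁻¹ * x * g ∈ F.geom := by
      have := F.normal.conj_mem x hx g⁻¹
      rwa [inv_inv] at this
    have h2 := hX _ h1
    have h3 : ρ x * ρ g = ρ g * ρ (g⁻¹ * x * g) := by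
      rw [← map_mul, ← map_mul]
      congr 1
      group
    have h4 : ρ (g⁻¹ * x * g) * ρ g⁻¹ = ρ g⁻¹ * ρ x := by
      rw [← map_mul, ← map_mul]
      congr 1
      group
    calc ρ x * (ρ g * X * ρ g⁻¹) = (ρ x * ρ g) * X * ρ g⁻¹ := by simp only [mul_assoc]
      _ = ρ g * (ρ (g⁻¹ * x * g) * X) * ρ g⁻¹ := by rw [h3]; simp only [mul_assoc]
      _ = ρ g * X * (ρ (g⁻¹ * x * g) * ρ g⁻¹) := by rw [h2]; simp only [mul_assoc]
      _ = ρ g * X * ρ g⁻¹ * ρ x := by rw [h4]; simp only [mul_assoc]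
  obtain ⟨b, d, hbd, hd, hb, hbn, hdn, hsd⟩ := exists_bd hD hLB 𝔄 h𝔄 s s' n m hss hs's hs hsn hn
    (by rw [← hA, ← hA']; exact hconj)
  obtain ⟨M, hM⟩ := hdn
  have hdM : d ^ (M + 1) = 0 := by rw [pow_succ, hM, zero_mul]
  have hdb : Commute d b := (show Commute b d from hb d hd).symm
  have hdn' : Commute d n := by rw [hbd]; exact hdb.add_right (Commute.refl d)
  have hgd : ρ g * d = d * ρ g := by
    rw [hA]
    exact (Commute.mul_right hsd.symm (exK_commute d n m 1 hdn')).symm.eq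
  have hc : ∀ γ, ρ γ * d = d * ρ γ :=
    commute_of_gen ρ hρc F.geom g hgt d (fun x hx => (hmem d).1 hd x hx) hgd
  refine ⟨d, M, hdM, hc, ?_⟩
  have htwc := tw_cont ρ F.deg F.deg_mul d M hdM hc hρc F.deg_cont
  have htw0 : ∀ x ∈ F.geom, tw ρ F.deg F.deg_mul d M hdM hc x = ρ x := by
    intro x hx
    rw [tw_apply, F.deg_geom x hx, neg_zero, exK_zero, mul_one]
  have himg : tw ρ F.deg F.deg_mul d M hdM hc '' (F.geom : Set Γ) = ρ '' (F.geom : Set Γ) :=
    Set.image_congr htw0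
  refine hO ι K Γ (tw ρ F.deg F.deg_mul d M hdM hc) F.geom g s s' F.normal ?_ hss hs ?_ ?_
  · rw [himg]
    exact F.pure_semi
  · intro X hX
    have hXA : X ∈ 𝔄 := by
      rw [hmem]
      intro x hx
      have := hX x hx
      rwa [htw0 x hx] at this
    -- `exp(n) exp(-d) = exp(b)`
    obtain ⟨kb, hkb⟩ := hbn
    have hkb' : b ^ (kb + 1) = 0 := by rw [pow_succ, hkb, zero_mul]
    have hE : exK n m 1 * exK d M (-1) = exK b kb 1 := by
      rw [exK_eq n m hn, exK_eq d M hdM, exK_eq b kb hkb', ← IsNilpotent.exp_add_of_commute]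
      · congr 1
        rw [one_smul, one_smul, neg_smul, one_smul, hbd]
        abel
      · exact (hdn'.symm.smul_left 1).smul_right (-1)
      · exact ⟨m + 1, by rw [one_smul, hn]⟩
      · exact ⟨M + 1, by rw [_root_.smul_pow, hdM, smul_zero]⟩
    have hXb : Commute X (exK b kb 1) := exK_commute X b kb 1 (hb X hXA).symm
    have hdeg : F.deg g⁻¹ = -1 := by
      have h1 := F.deg_mul g g⁻¹
      have h2 := F.deg_mul 1 1
      rw [mul_one] at h2
      have h3 : F.deg 1 = 0 := by simpa using h2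
      rw [mul_inv_cancel, h3, hg1] at h1
      exact (neg_eq_of_add_eq_zero_right h1.symm).symm
    have h1 : tw ρ F.deg F.deg_mul d M hdM hc g = s * exK b kb 1 := by
      rw [tw_apply, hg1, hA, mul_assoc, hE]
    have hs'd : Commute s' (exK d M 1) := by
      refine exK_commute _ _ _ _ ?_
      change s' * d = d * s'
      calc s' * d = s' * (d * s) * s' := by rw [mul_assoc, mul_assoc, hss, mul_one]
        _ = s' * (s * d) * s' := by rw [hsd.eq]
        _ = d * s' := by rw [← mul_assoc s', hs's, one_mul]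
    have h2 : tw ρ F.deg F.deg_mul d M hdM hc g⁻¹ = exK b kb (-1) * s' := by
      have h3 : exK b kb (-1) = exK n m (-1) * exK d M 1 := by
        rw [exK_eq n m hn, exK_eq d M hdM, exK_eq b kb hkb', ← IsNilpotent.exp_add_of_commute]
        · congr 1
          rw [one_smul, neg_smul, neg_smul, one_smul, one_smul, hbd]
          abel
        · exact (hdn'.symm.smul_left (-1)).smul_right 1
        · exact ⟨m + 1, by rw [_root_.smul_pow, hn, smul_zero]⟩
        · exact ⟨M + 1, by rw [one_smul, hdM]⟩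
      rw [tw_apply, hdeg, neg_neg, hA', h3, mul_assoc, mul_assoc, hs'd.eq]
    rw [h1, h2]
    calc s * exK b kb 1 * X * (exK b kb (-1) * s')
        = s * (exK b kb 1 * X) * exK b kb (-1) * s' := by simp only [mul_assoc]
      _ = s * X * (exK b kb 1 * exK b kb (-1)) * s' := by rw [← hXb.eq]; simp only [mul_assoc]
      _ = s * X * s' := by
          rw [← exK_add _ _ hkb', add_neg_cancel, exK_zero, mul_one]
  · intro W h1 h2
    exact stable_of_gen _ htwc F.geom g hgt W h1 h2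

end fin

end Pool.Agent.D0H89.OF
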