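import Pool.Agent.D0H89.OF.Fin3
import Pool.Agent.D0H2.OF.Dec
import Pool.Agent.D0H9.OF.Logb
import Pool.Agent.D0H9.OF.Nil
import Pool.Agent.D0H98.OF.Trn
import Pool.Agent.D0H98.OF.One2
import Pool.Agent.D0H52.OF.Sim

/-!
# The structure theorem
-/

set_option autoImplicit false
set_option linter.unusedSectionVars false

open Polynomial MeasureTheory

namespace Pool.Agent.D0H89.OF

section alg

variable {ι K : Type} [Fintype ι] [DecidableEq ι] [Field K] [CharZero K]

theorem exK_sub_one (d : Matrix ι ι K) (M : ℕ) (t : K) :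
    ∃ c : Matrix ι ι K, exK d M t = 1 + d * c ∧ c ∈ Algebra.adjoin K {d} := by
  refine ⟨∑ j ∈ Finset.range M, (t ^ (j + 1) * ((j + 1).factorial : K)⁻¹) • d ^ j, ?_, ?_⟩
  · rw [exK, Finset.sum_range_succ', add_comm]
    congr 1
    · simp
    · rw [Finset.mul_sum]
      refine Finset.sum_congr rfl fun j _ => ?_
      rw [Matrix.mul_smul, ← pow_succ']
  · refine Subalgebra.sum_mem _ fun j _ => Subalgebra.smul_mem _ (Subalgebra.pow_mem _ ?_ _) _
    exact Algebra.subset_adjoin rfl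

theorem numEig_exK (A d : Matrix ι ι K) (M : ℕ) (hd : d ^ (M + 1) = 0) (hc : A * d = d * A)
    (t : K) : numEig (A * exK d M t) = numEig A := by
  obtain ⟨c, h1, h2⟩ := exK_sub_one d M t
  have hdc : Commute d c := (Algebra.commute_of_mem_adjoin_self h2).symm.symm
  have hAc : Commute A c := Algebra.commute_of_mem_adjoin_singleton_of_commute h2 hc
  have hnil : IsNilpotent (A * (d * c)) := by
    have h3 : Commute A (d * c) := (show Commute A d from hc).mul_right hAc
    exact h3.isNilpotent_mul_left (hdc.isNilpotent_mul_right ⟨M + 1, hd⟩)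
  rw [h1, mul_add, mul_one]
  exact t_CHR ι K A (A * (d * c)) ((Commute.refl A).mul_right
    ((show Commute A d from hc).mul_right hAc)) hnil

theorem blocksLE_sim {A P P' : Matrix ι ι K} (hPP : P * P' = 1) (hPP' : P' * P = 1) (m : ℕ) :
    BlocksLE m (P' * A * P) ↔ BlocksLE m A := by
  have key : ∀ (A P P' : Matrix ι ι K), P * P' = 1 → P' * P = 1 → BlocksLE m A →
      BlocksLE m (P' * A * P) := by
    intro A P P' hPP hPP' h z v hv
    have e : ∀ k : ℕ, (P' * A * P - Matrix.scalar ι z) ^ k =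
        P' * (A - Matrix.scalar ι z) ^ k * P := by
      intro k
      have e1 : P' * A * P - Matrix.scalar ι z = P' * (A - Matrix.scalar ι z) * P := by
        rw [mul_sub, sub_mul, ← (Matrix.scalar_commute z (fun _ => Commute.all _ _) P').eq,
          mul_assoc (Matrix.scalar ι z), hPP', mul_one]
      rw [e1]
      induction k with
      | zero => rw [pow_zero, pow_zero, mul_one, hPP']
      | succ k ih =>
        rw [pow_succ, ih, pow_succ]
        calc _ = P' * (A - Matrix.scalar ι z) ^ k * (P * P') * (A - Matrix.scalar ι z) * P := by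
              simp only [mul_assoc]
          _ = _ := by rw [hPP, mul_one]; simp only [mul_assoc]
    rw [e, ← Matrix.mulVec_mulVec, ← Matrix.mulVec_mulVec] at hv
    have h1 := congrArg P.mulVec hv
    rw [Matrix.mulVec_mulVec, hPP, Matrix.one_mulVec, Matrix.mulVec_zero] at h1
    rw [e, ← Matrix.mulVec_mulVec, ← Matrix.mulVec_mulVec, h z _ h1, Matrix.mulVec_zero]
  refine ⟨fun h => ?_, key A P P' hPP hPP'⟩
  have h1 := key (P' * A * P) P' P hPP' hPP h
  have h2 : P * (P' * A * P) * P' = A := by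
    calc _ = (P * P') * A * (P * P') := by simp only [mul_assoc]
      _ = A := by rw [hPP, one_mul, mul_one]
  rwa [h2] at h1

end alg

section fin

variable {ι P K Γ : Type} [Fintype ι] [DecidableEq ι] [Field K] [IsAlgClosed K] [CharZero K]
  [TopologicalSpace K] [IsTopologicalRing K] [T2Space K] [Group Γ] [TopologicalSpace Γ]
  [IsTopologicalGroup Γ] [CompactSpace Γ] [T2Space Γ] [TotallyDisconnectedSpace Γ]
  [MeasurableSpace Γ] [BorelSpace Γ] {μ : Measure Γ} [IsProbabilityMeasure μ] [μ.IsHaarMeasure]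

theorem DegFamily.blocks_iff (F : DegFamily ι P K Γ μ) (m : ℕ) (x : P) :
    F.Blocks m x ↔ BlocksLE m (F.toFamily.gr (F.frob x)) := by
  obtain ⟨Q, Q', h1, h2, h3⟩ := (Pool.Agent.D0H52.OF.t_SIM ι K ℤ F.wt (F.ρ (F.frob x))
    (F.filtered _)).1 (F.weights x)
  change BlocksLE m (F.ρ (F.frob x)) ↔ BlocksLE m (grM F.wt (F.ρ (F.frob x)))
  rw [← h3, blocksLE_sim h1 h2]

theorem DegFamily.IsLog.comm' {F : DegFamily ι P K Γ μ} {d : Matrix ι ι K} (h : F.IsLog d) :
    ∀ γ, F.toFamily.gr γ * d = d * F.toFamily.gr γ := h.comm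

/-- The data of the twist from `IsLog`. -/
theorem DegFamily.IsLog.data {F : DegFamily ι P K Γ μ} {d : Matrix ι ι K} (h : F.IsLog d) :
    ∃ (M : ℕ) (hd : d ^ (M + 1) = 0), (∀ t : K, IsNilpotent.exp (t • d) = exK d M t) ∧
      Semi (Set.range (tw F.toFamily.gr F.deg F.deg_mul d M hd h.comm')) := by
  obtain ⟨M, hM⟩ := h.nilp
  have hd : d ^ (M + 1) = 0 := by rw [pow_succ, hM, zero_mul]
  have he : ∀ t : K, IsNilpotent.exp (t • d) = exK d M t := fun t => (exK_eq d M hd t).symm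
  refine ⟨M, hd, he, ?_⟩
  have hs := h.semi
  simp only [he] at hs
  exact hs

theorem DegFamily.exists_isLog (F : DegFamily ι P K Γ μ) : ∃ d, F.IsLog d := by
  obtain ⟨d, M, hd, hc, hs⟩ := F.exists_d Pool.Agent.D0H98.OF.t_TRN Pool.Agent.D0H2.OF.t_DEC
    Pool.Agent.D0H9.OF.t_LOGB Pool.Agent.D0H98.OF.t_ONE2
  refine ⟨d, ⟨M + 1, hd⟩, hc, ?_⟩
  simp only [← exK_eq d M hd]
  exact hs

/-- At the generic closed points the twist is semisimple. -/
theorem DegFamily.generic_ss [Nonempty P] (F : DegFamily ι P K Γ μ) (d : Matrix ι ι K) (M : ℕ)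
    (hd : d ^ (M + 1) = 0) (hc : ∀ γ, F.toFamily.gr γ * d = d * F.toFamily.gr γ)
    (hs : Semi (Set.range (tw F.toFamily.gr F.deg F.deg_mul d M hd hc)))
    (U : Subgroup Γ) (hUn : U.Normal) (hU : IsOpen (U : Set Γ)) (x : P)
    (hx : x ∈ F.toFamily.MaxMod U) :
    IsSS (F.toFamily.gr (F.frob x) * exK d M (-F.deg (F.frob x))) := by
  have hf : U.FiniteIndex := by
    have h1 : Finite (Γ ⧸ U) := by
      have h2 : DiscreteTopology (Γ ⧸ U) := QuotientGroup.discreteTopology hU
      have h3 : CompactSpace (Γ ⧸ U) := inferInstance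
      exact finite_of_compact_of_discrete
    exact Subgroup.finiteIndex_of_finite_quotient
  refine key Pool.Agent.D0H35.OF.t_JORD Pool.Agent.D0H52.OF.t_GRAM0 Pool.Agent.D0H52.OF.t_GRAM1
    Pool.Agent.D0H52.OF.t_RAD Pool.Agent.D0H21.OF.t_LIE
    (tw F.toFamily.gr F.deg F.deg_mul d M hd hc) hs U hUn hf (F.frob x) fun h hh => ?_
  rw [tw_apply, tw_apply, numEig_exK _ _ _ hd (hc _), numEig_exK _ _ _ hd (hc _)]
  exact F.toFamily.max_of_maxMod Pool.Agent.D0H52.OF.t_MIX U hUn hU x hx h hh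

theorem DegFamily.main [Nonempty P] (hB : S_BLK) (hQ : S_UNQ) (F : DegFamily ι P K Γ μ) :
    ∃ d : Matrix ι ι K, F.IsLog d ∧ (∀ d', F.IsLog d' → d' = d) ∧
      (∀ (m : ℕ) (x : P), F.Blocks m x → d ^ m = 0) ∧
      (∀ U : Subgroup Γ, U.Normal → IsOpen (U : Set Γ) → ∀ x ∈ F.toFamily.MaxMod U,
        IsSS (grM F.wt (F.ρ (F.frob x)) * IsNilpotent.exp (-(F.degP x : K) • d)) ∧
        ∀ m, F.Blocks m x ↔ d ^ m = 0) ∧
      (∃ U₀ : Subgroup Γ, U₀.Normal ∧ IsOpen (U₀ : Set Γ) ∧
        ∀ U : Subgroup Γ, U ≤ U₀ → HasDensity F.nm F.dim (F.toFamily.MaxMod U) 1) ∧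
      [F.toFamily.Good.Nonempty, F.toFamily.Arith, HasDensity F.nm F.dim F.toFamily.Good 1,
        d = 0].TFAE := by
  have hinv : ∀ x : Γ, F.toFamily.gr x * F.toFamily.gr x⁻¹ = 1 := fun x => by
    rw [← map_mul, mul_inv_cancel, map_one]
  obtain ⟨hT, hC, U₀, hU₀n, hU₀o, hU₀⟩ := F.toFamily.main Pool.Agent.D0H52.OF.t_MIX
  obtain ⟨d, hd⟩ := F.exists_isLog
  obtain ⟨x₀, hx₀⟩ := F.toFamily.nonempty_of_density _ _ one_ne_zero (hU₀ U₀ le_rfl)
  -- the Frobenius element at the generic points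
  have hgen : ∀ (d : Matrix ι ι K) (h : F.IsLog d) (M : ℕ) (hM : d ^ (M + 1) = 0)
      (hs : Semi (Set.range (tw F.toFamily.gr F.deg F.deg_mul d M hM h.comm')))
      (U : Subgroup Γ), U.Normal → IsOpen (U : Set Γ) → ∀ x ∈ F.toFamily.MaxMod U,
      ∃ s s' : Matrix ι ι K, s * s' = 1 ∧ IsSS s ∧ Commute s ((F.degP x : K) • d) ∧
        F.toFamily.gr (F.frob x) = s * exK ((F.degP x : K) • d) M 1 ∧
        s = F.toFamily.gr (F.frob x) * exK d M (-(F.degP x : K)) := by
    intro d h M hM hs U hUn hU x hx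
    have h1 := F.generic_ss d M hM h.comm' hs U hUn hU x hx
    rw [F.deg_frob] at h1
    have hcd : Commute (F.toFamily.gr (F.frob x)) d := h.comm' _
    have h2 : Commute (F.toFamily.gr (F.frob x) * exK d M (-(F.degP x : K))) d :=
      hcd.mul_left (exK_commute _ _ _ _ (Commute.refl d)).symm
    refine ⟨_, exK d M (F.degP x : K) * F.toFamily.gr (F.frob x)⁻¹, ?_, h1, h2.smul_right _, ?_,
      rfl⟩
    · rw [mul_assoc, ← mul_assoc (exK d M (-(F.degP x : K))), ← exK_add _ _ hM, neg_add_cancel,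
        exK_zero, one_mul, hinv]
    · have h3 : exK ((F.degP x : K) • d) M 1 = exK d M (F.degP x : K) := by
        rw [exK, exK]
        refine Finset.sum_congr rfl fun j _ => ?_
        rw [_root_.smul_pow, smul_smul, one_pow, one_mul, mul_comm]
      rw [h3, mul_assoc, ← exK_add _ _ hM, neg_add_cancel, exK_zero, mul_one]
  have hdeg : ∀ x, (F.degP x : K) ≠ 0 := fun x => Nat.cast_ne_zero.2 (F.degP_pos x).ne'
  have hpow0 : ∀ (d : Matrix ι ι K) (x : P) (m : ℕ), ((F.degP x : K) • d) ^ m = 0 ↔ d ^ m = 0 := by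
    intro d x m
    rw [_root_.smul_pow, smul_eq_zero_iff_right (pow_ne_zero m (hdeg x))]
  have huniq : ∀ d', F.IsLog d' → d' = d := by
    intro d' hd'
    obtain ⟨M, hM, -, hs⟩ := hd.data
    obtain ⟨M', hM', -, hs'⟩ := hd'.data
    have hN : d ^ (M + M' + 1) = 0 := by
      rw [show M + M' + 1 = (M + 1) + M' by ring, pow_add, hM, zero_mul]
    have hN' : d' ^ (M + M' + 1) = 0 := by
      rw [show M + M' + 1 = (M' + 1) + M by ring, pow_add, hM', zero_mul]
    have hsN : Semi (Set.range (tw F.toFamily.gr F.deg F.deg_mul d (M + M') hN hd.comm')) := by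
      have : ⇑(tw F.toFamily.gr F.deg F.deg_mul d (M + M') hN hd.comm') =
          ⇑(tw F.toFamily.gr F.deg F.deg_mul d M hM hd.comm') := by
        funext γ
        rw [tw_apply, tw_apply, exK_eq _ _ hN, exK_eq _ _ hM]
      rw [this]
      exact hs
    have hsN' : Semi (Set.range (tw F.toFamily.gr F.deg F.deg_mul d' (M + M') hN' hd'.comm')) := by
      have : ⇑(tw F.toFamily.gr F.deg F.deg_mul d' (M + M') hN' hd'.comm') =
          ⇑(tw F.toFamily.gr F.deg F.deg_mul d' M' hM' hd'.comm') := by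
        funext γ
        rw [tw_apply, tw_apply, exK_eq _ _ hN', exK_eq _ _ hM']
      rw [this]
      exact hs'
    obtain ⟨s, s', h1, h2, h3, h4, -⟩ := hgen d hd (M + M') hN hsN U₀ hU₀n hU₀o x₀ hx₀
    obtain ⟨r, r', k1, k2, k3, k4, -⟩ := hgen d' hd' (M + M') hN' hsN' U₀ hU₀n hU₀o x₀ hx₀
    have h5 := hQ ι K r r' s s' _ _ (M + M') k1 h1 k2 h2 k3 h3 ((hpow0 _ _ _).2 hN')
      ((hpow0 _ _ _).2 hN) (k4.symm.trans h4)
    exact smul_right_injective _ (hdeg x₀) h5
  refine ⟨d, hd, huniq, ?_, ?_, ⟨U₀, hU₀n, hU₀o, hU₀⟩, ?_⟩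
  · intro m x hx
    rw [F.blocks_iff] at hx
    obtain ⟨M, hM, -, hs⟩ := hd.data
    set τ := tw F.toFamily.gr F.deg F.deg_mul d M hM hd.comm' with hτ
    have hτinv : τ (F.frob x) * τ (F.frob x)⁻¹ = 1 := by rw [← map_mul, mul_inv_cancel, map_one]
    obtain ⟨s, s', n, k, h1, h2, h3, h4, h5, h6, -, h7⟩ := exists_jd _ _ hτinv
    have hcd : Commute (τ (F.frob x)) d := by
      rw [hτ, tw_apply]
      exact (show Commute (F.toFamily.gr (F.frob x)) d from hd.comm' _).mul_left
        (exK_commute _ _ _ _ (Commute.refl d)).symm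
    have hnd : Commute n d :=
      (Algebra.commute_of_mem_adjoin_singleton_of_commute h7 hcd.symm).symm
    have hsd : Commute s d := by
      have e : s = τ (F.frob x) * exK n k (-1) := by
        rw [h6, mul_assoc, ← exK_add _ _ h5, add_neg_cancel, exK_zero, mul_one]
      rw [e]
      exact hcd.mul_left (exK_commute _ _ _ _ hnd.symm).symm
    have hND : (n + (F.degP x : K) • d) ^ (k + M + 1) = 0 := by
      have hc1 : Commute n ((F.degP x : K) • d) := hnd.smul_right _
      have := hc1.add_pow_eq_zero_of_add_le_succ_of_pow_eq_zero (m := k + 1) (n := M + 1)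
        (k := k + M + 1) h5 ((hpow0 _ _ _).2 hM) (by omega)
      exact this
    have hgr : F.toFamily.gr (F.frob x) = s * exK (n + (F.degP x : K) • d) (k + M) 1 := by
      have e1 : exK (n + (F.degP x : K) • d) (k + M) 1 = exK n k 1 * exK d M (F.degP x : K) := by
        rw [exK_eq _ _ hND, exK_eq _ _ h5, exK_eq _ _ hM, ← IsNilpotent.exp_add_of_commute]
        · rw [one_smul, one_smul]
        · exact (hnd.smul_right _).smul_left _
        · exact ⟨k + 1, by rw [one_smul, h5]⟩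
        · exact ⟨M + 1, (hpow0 _ _ _).2 hM⟩
      rw [e1, ← mul_assoc, ← h6, hτ, tw_apply, F.deg_frob, mul_assoc, ← exK_add _ _ hM,
        neg_add_cancel, exK_zero, mul_one]
    rw [hgr, hB ι K s s' _ _ m h1 h3 (h4.add_right (hsd.smul_right _)) hND] at hx
    have h8 := Pool.Agent.D0H9.OF.t_NIL ι K (Subalgebra.centralizer K (Set.range τ)) ?_ n
      ((F.degP x : K) • d) m ⟨k + 1, h5⟩ ?_ ?_ ⟨M + 1, (hpow0 _ _ _).2 hM⟩ hx
    · exact (hpow0 _ _ _).1 h8
    · intro a ha ha0
      obtain ⟨e, he, h⟩ := Pool.Agent.D0H98.OF.t_TRN ι K (Set.range τ) hs a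
        (fun A hA => (Subalgebra.mem_centralizer_iff K).1 ha A hA) ha0
      exact ⟨e, (Subalgebra.mem_centralizer_iff K).2 fun A hA => he A hA, h⟩
    · intro e he
      have h9 : Commute (τ (F.frob x)) e := (Subalgebra.mem_centralizer_iff K).1 he _ ⟨_, rfl⟩
      exact (Algebra.commute_of_mem_adjoin_singleton_of_commute h7 h9.symm).symm
    · rw [Subalgebra.mem_centralizer_iff]
      rintro _ ⟨γ, rfl⟩
      have h9 : Commute (τ γ) d := by
        rw [hτ, tw_apply]
        exact (show Commute (F.toFamily.gr γ) d from hd.comm' _).mul_left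
          (exK_commute _ _ _ _ (Commute.refl d)).symm
      exact h9.smul_right _
  · intro U hUn hU x hx
    obtain ⟨M, hM, he, hs⟩ := hd.data
    obtain ⟨s, s', h1, h2, h3, h4, h5⟩ := hgen d hd M hM hs U hUn hU x hx
    refine ⟨?_, fun m => ?_⟩
    · rw [he]
      change IsSS (F.toFamily.gr (F.frob x) * _)
      rw [← h5]
      exact h2
    · rw [F.blocks_iff, h4, hB ι K s s' _ _ m h1 h2 h3 ((hpow0 _ _ _).2 hM), hpow0]
  · tfae_have 1 ↔ 2 := hT.out 0 1
    tfae_have 2 ↔ 3 := hT.out 1 2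
    tfae_have 2 → 4 := by
      intro ha
      refine (huniq 0 ⟨IsNilpotent.zero, fun γ => by rw [mul_zero, zero_mul], ?_⟩).symm
      simp only [smul_zero, IsNilpotent.exp_zero, mul_one]
      exact ha
    tfae_have 4 → 2 := by
      intro h0
      have hs := hd.semi
      rw [h0] at hs
      simp only [smul_zero, IsNilpotent.exp_zero, mul_one] at hs
      exact hs
    tfae_finish

end fin

end Pool.Agent.D0H89.OF
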