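import Mathlib
import Pool.Agent.D0H89.OF.Stm3

/-!
# Project OF, third part: the whole Jordan type (partition) of the Frobenius elements

Modules: NILR, BLKR, CNJ.
-/

set_option autoImplicit false

namespace Pool.Agent.D0H89.OF

/-- `∑_z dim ker (A - z) ^ k`, that is `∑_i min (λ_i, k)` for the sizes `λ_i` of the Jordan blocks of
`A`. These numbers, for all `k`, determine the sizes; for `k = 1` it is the number of the blocks. -/
noncomputable def jordanDim {ι K : Type} [Fintype ι] [DecidableEq ι] [Field K] (k : ℕ)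
    (A : Matrix ι ι K) : ℕ :=
  ∑ᶠ z : K, Module.finrank K (LinearMap.ker (Matrix.toLin' ((A - Matrix.scalar ι z) ^ k)))

/-- **NILR** (40 min; the version of NIL with ranks). Proof: `a = d ^ k` commutes with `S`; as in TRN let
`e` commute with `S` and be the inverse of `a` on `I = im a` (`a e v = v` for `v ∈ I`, `p = a e` is a
projector onto `I`). Then `(n + d) ^ k e = p + n c`, where `c` is a sum of products of powers of `n`, `d`,
and `e`, so that `c` commutes with `n`, and so does `c' = p c p`. If `v ∈ I` and `(n + d) ^ k e v = 0` then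
`0 = p (n + d) ^ k e v = v + n c' v`, so `v = (-n c') ^ j v = (-1) ^ j c' ^ j n ^ j v = 0` for large `j`.
So `(n + d) ^ k e` is injective on `I`, and the rank of `(n + d) ^ k` is at least that of `a`. -/
def S_NILR : Prop := ∀ (ι K : Type) [Fintype ι] [DecidableEq ι] [Field K] [CharZero K]
  (S : Set (Matrix ι ι K)), Semi S → ∀ n d : Matrix ι ι K, IsNilpotent n →
  (∀ e : Matrix ι ι K, (∀ A ∈ S, A * e = e * A) → n * e = e * n) → (∀ A ∈ S, A * d = d * A) →
  ∀ k : ℕ, Module.finrank K (LinearMap.ker (Matrix.toLin' ((n + d) ^ k))) ≤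
    Module.finrank K (LinearMap.ker (Matrix.toLin' (d ^ k)))

/-- **BLKR** (40 min; the version of BLK with dimensions). Proof: `K ^ ι` is the direct sum of the
eigenspaces `E_z` of `s`, `ker ν ^ k` is the direct sum of the `ker ν ^ k ∩ E_z` (`ν` commutes with `s`),
and `ker (A - z) ^ k = ker ν ^ k ∩ E_z` for `A = s exp(ν)`, `k > 0` (see BLK; clear for `k = 0`). -/
def S_BLKR : Prop := ∀ (ι K : Type) [Fintype ι] [DecidableEq ι] [Field K] [IsAlgClosed K] [CharZero K]
  (s s' ν : Matrix ι ι K) (M k : ℕ), s * s' = 1 → IsSS s → Commute s ν → ν ^ (M + 1) = 0 →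
  jordanDim k (s * exK ν M 1) = Module.finrank K (LinearMap.ker (Matrix.toLin' (ν ^ k)))

/-- **CNJ** (15 min). Invariance under conjugation. -/
def S_CNJ : Prop := ∀ (ι K : Type) [Fintype ι] [DecidableEq ι] [Field K]
  (A P P' : Matrix ι ι K) (k : ℕ), P * P' = 1 → P' * P = 1 →
  jordanDim k (P' * A * P) = jordanDim k A

end Pool.Agent.D0H89.OF
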