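import Pool.Agent.D0H89.OF.Fam2
import Pool.Agent.D0H89.OF.Stm4

/-!
# Lisse sheaves on a normal scheme of finite type over a finite field
-/

set_option autoImplicit false

open MeasureTheory

namespace Pool.Agent.D0H89.OF

/-- A connected normal scheme `S` of finite type over a finite field: `Γ = π₁(S)` with its Haar measure
`μ`, and `P` is the set of the closed points of `S`. -/
structure Base (P Γ : Type) [Group Γ] [TopologicalSpace Γ] [IsTopologicalGroup Γ]
    [MeasurableSpace Γ] (μ : Measure Γ) where
  /-- the geometric fundamental group -/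
  geom : Subgroup Γ
  normal : geom.Normal
  /-- an element of degree `1` -/
  gen : Γ
  /-- `π₁(S)` is topologically generated by `geom` and `gen` -/
  gen_top : (geom ⊔ Subgroup.zpowers gen).topologicalClosure = ⊤
  /-- the Frobenius elements of the closed points -/
  frob : P → Γ
  /-- the degrees of the closed points -/
  degP : P → ℕ
  degP_pos : ∀ x, 0 < degP x
  /-- the closed subgroup generated by `geom` and a Frobenius element of degree `n` has index `n` -/
  index : ∀ x, (geom ⊔ Subgroup.zpowers (frob x)).topologicalClosure.FiniteIndex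
  /-- the number of elements of the residue field -/
  nm : P → ℝ
  one_lt_nm : ∀ x, 1 < nm x
  /-- the dimension of `S` -/
  dim : ℝ
  summable : ∀ s : ℝ, dim < s → Summable fun x => (nm x) ^ (-s)
  /-- Chebotarev's density theorem (Serre) -/
  chebotarev : ∀ C : Set Γ, IsClopen C → (∀ x, ∀ γ ∈ C, x * γ * x⁻¹ ∈ C) →
    HasDensity nm dim {x | frob x ∈ C} (μ C).toReal

section

variable {P Γ : Type} [Group Γ] [TopologicalSpace Γ] [IsTopologicalGroup Γ] [MeasurableSpace Γ]
  {μ : Measure Γ}

/-- The closed points `x` such that the number `num x` is maximal among the closed points whose Frobenius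
elements are conjugate modulo `U` to the one of `x`. -/
def Base.MaxMod (S : Base P Γ μ) (num : P → ℕ) (U : Subgroup Γ) : Set P :=
  {x | ∀ y, (∃ g, (S.frob x)⁻¹ * (g * S.frob y * g⁻¹) ∈ U) → num y ≤ num x}

/-- A lisse `ℓ`-adic sheaf `V` on `S` with a weight filtration, for example `V = ⊕ Rⁱ f_* ℚ̄_ℓ` or
`V = Rⁱ f_* ℚ̄_ℓ` for a proper morphism `f : X → S`, if it is lisse. `K = ℚ̄_ℓ`, and `ι` is a basis of the
stalk at a geometric generic point, adapted to the weight filtration. -/
structure Sheaf (S : Base P Γ μ) (ι K : Type) [Fintype ι] [DecidableEq ι] [Field K]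
    [TopologicalSpace K] where
  /-- the action of `π₁(S)` -/
  ρ : Γ →* Matrix ι ι K
  cont : Continuous ρ
  /-- the weights of the elements of the basis -/
  wt : ι → ℤ
  /-- the weight filtration is stable -/
  filtered : ∀ γ, (ρ γ).BlockTriangular wt
  /-- the graded pieces, which are pure, are semisimple representations of the geometric fundamental
  group (Deligne) -/
  pure_semi : Semi ((fun γ => grM wt (ρ γ)) '' (S.geom : Set Γ))
  /-- Frobenius has different eigenvalues on the different graded pieces (Deligne) -/
  weights : ∀ x, Apart wt (ρ (S.frob x))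
  /-- the degree `π₁(S) → π₁(Spec 𝔽_q) = ℤ^ → ℤ_ℓ ⊆ K` -/
  deg : Γ → K
  deg_cont : Continuous deg
  deg_mul : ∀ x y, deg (x * y) = deg x + deg y
  deg_geom : ∀ x ∈ S.geom, deg x = 0
  deg_gen : deg S.gen = 1
  deg_frob : ∀ x, deg (S.frob x) = S.degP x

namespace Sheaf

variable {S : Base P Γ μ} {ι K : Type} [Fintype ι] [DecidableEq ι] [Field K] [TopologicalSpace K]

/-- The closed points such that Frobenius is semisimple on the stalk. -/
def Good (V : Sheaf S ι K) : Set P := {x | IsSS (V.ρ (S.frob x))}

/-- The graded pieces of `V` are semisimple representations of `π₁(S)`. -/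
def Arith (V : Sheaf S ι K) : Prop := Semi (Set.range fun γ => grM V.wt (V.ρ γ))

/-- `d` is a nilpotent endomorphism of the lisse sheaf `gr V`, and the representation
`γ ↦ ρ(γ) exp(-deg(γ) d)` of `π₁(S)` on `gr V` is semisimple. -/
structure IsLog [CharZero K] (V : Sheaf S ι K) (d : Matrix ι ι K) : Prop where
  nilp : IsNilpotent d
  comm : ∀ γ, grM V.wt (V.ρ γ) * d = d * grM V.wt (V.ρ γ)
  semi : Semi (Set.range fun γ => grM V.wt (V.ρ γ) * IsNilpotent.exp (-(V.deg γ) • d))

/-- The family -/
def toDeg (V : Sheaf S ι K) : DegFamily ι P K Γ μ where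
  ρ := V.ρ
  cont := V.cont
  wt := V.wt
  filtered := V.filtered
  geom := S.geom
  normal := S.normal
  pure_semi := V.pure_semi
  frob := S.frob
  weights := V.weights
  index := S.index
  nm := S.nm
  one_lt_nm := S.one_lt_nm
  dim := S.dim
  summable := S.summable
  chebotarev := S.chebotarev
  deg := V.deg
  deg_cont := V.deg_cont
  deg_mul := V.deg_mul
  deg_geom := V.deg_geom
  exists_gen := ⟨S.gen, V.deg_gen, S.gen_top⟩
  degP := S.degP
  degP_pos := S.degP_pos
  deg_frob := V.deg_frob

end Sheaf

end

end Pool.Agent.D0H89.OF
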