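import Pool.Agent.D0H89.OF.Fin4
import Pool.Agent.D0H89.OF.Sheaf
import Pool.Agent.D0H87.OF.Blk

/-!
# The structure theorem with the whole Jordan type, for compatible systems
-/

set_option autoImplicit false
set_option linter.unusedSectionVars false

open Polynomial MeasureTheory

namespace Pool.Agent.D0H89.OF

section fin

variable {ι P K Γ : Type} [Fintype ι] [DecidableEq ι] [Field K] [IsAlgClosed K] [CharZero K]
  [TopologicalSpace K] [IsTopologicalRing K] [T2Space K] [Group Γ] [TopologicalSpace Γ]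
  [IsTopologicalGroup Γ] [CompactSpace Γ] [T2Space Γ] [TotallyDisconnectedSpace Γ]
  [MeasurableSpace Γ] [BorelSpace Γ] {μ : Measure Γ} [IsProbabilityMeasure μ] [μ.IsHaarMeasure]

theorem DegFamily.jordanDim_gr (hCj : S_CNJ) (F : DegFamily ι P K Γ μ) (k : ℕ) (x : P) :
    jordanDim k (F.ρ (F.frob x)) = jordanDim k (F.toFamily.gr (F.frob x)) := by
  obtain ⟨Q, Q', h1, h2, h3⟩ := (Pool.Agent.D0H52.OF.t_SIM ι K ℤ F.wt (F.ρ (F.frob x))
    (F.filtered _)).1 (F.weights x)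
  change _ = jordanDim k (grM F.wt (F.ρ (F.frob x)))
  rw [← h3, hCj ι K _ Q Q' k h1 h2]

theorem Family.exists_bad [Nonempty P] (F : Family ι P K Γ μ) :
    ∃ U₀ : Subgroup Γ, U₀.Normal ∧ IsOpen (U₀ : Set Γ) ∧ ∃ B : Set Γ, IsClosed B ∧
      (∀ x, ∀ γ ∈ B, x * γ * x⁻¹ ∈ B) ∧ μ B = 0 ∧
      ∀ x, F.frob x ∉ B → ∀ U : Subgroup Γ, U ≤ U₀ → x ∈ F.MaxMod U := by
  obtain ⟨H, hHn, hHo, B, hBc, hBi, hB0, hB⟩ := generic Pool.Agent.D0H52.OF.t_GRAM0
    Pool.Agent.D0H52.OF.t_GRAM1 Pool.Agent.D0H21.OF.t_COMP μ F.gr F.gr_cont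
  refine ⟨H, hHn, hHo, B, hBc, hBi, hB0, fun x hx U hU => ?_⟩
  rintro y ⟨g, hg⟩
  rw [← F.numEig_gr Pool.Agent.D0H52.OF.t_MIX, ← F.numEig_gr Pool.Agent.D0H52.OF.t_MIX,
    ← numEig_conj F.gr g]
  exact hB _ hx _ (hU hg)

theorem exK_smul1 (d : Matrix ι ι K) (M : ℕ) (c : K) : exK (c • d) M 1 = exK d M c := by
  rw [exK, exK]
  refine Finset.sum_congr rfl fun j _ => ?_
  rw [_root_.smul_pow, smul_smul, one_pow, one_mul, mul_comm]

theorem DegFamily.gen_jd [Nonempty P] (F : DegFamily ι P K Γ μ) (d : Matrix ι ι K)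
    (h : F.IsLog d) (M : ℕ) (hM : d ^ (M + 1) = 0)
    (hs : Semi (Set.range (tw F.toFamily.gr F.deg F.deg_mul d M hM h.comm')))
    (U : Subgroup Γ) (hUn : U.Normal) (hU : IsOpen (U : Set Γ)) (x : P)
    (hx : x ∈ F.toFamily.MaxMod U) :
    ∃ s s' : Matrix ι ι K, s * s' = 1 ∧ IsSS s ∧ Commute s ((F.degP x : K) • d) ∧
      F.toFamily.gr (F.frob x) = s * exK ((F.degP x : K) • d) M 1 ∧
      s = F.toFamily.gr (F.frob x) * exK d M (-(F.degP x : K)) := by
  have hinv : ∀ x : Γ, F.toFamily.gr x * F.toFamily.gr x⁻¹ = 1 := fun x => by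
    rw [← map_mul, mul_inv_cancel, map_one]
  have h1 := F.generic_ss d M hM h.comm' hs U hUn hU x hx
  rw [F.deg_frob] at h1
  have hcd : Commute (F.toFamily.gr (F.frob x)) d := h.comm' _
  have h2 : Commute (F.toFamily.gr (F.frob x) * exK d M (-(F.degP x : K))) d :=
    hcd.mul_left (exK_commute _ _ _ _ (Commute.refl d)).symm
  refine ⟨_, exK d M (F.degP x : K) * F.toFamily.gr (F.frob x)⁻¹, ?_, h1, h2.smul_right _, ?_,
    rfl⟩
  · rw [mul_assoc, ← mul_assoc (exK d M (-(F.degP x : K))), ← exK_add _ _ hM, neg_add_cancel,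
      exK_zero, one_mul, hinv]
  · rw [exK_smul1, mul_assoc, ← exK_add _ _ hM, neg_add_cancel, exK_zero, mul_one]

theorem DegFamily.log_unique [Nonempty P] (F : DegFamily ι P K Γ μ) (d d' : Matrix ι ι K)
    (hd : F.IsLog d) (hd' : F.IsLog d') : d' = d := by
  obtain ⟨U₀, hU₀n, hU₀o, B, hBc, hBi, hB0, hB⟩ := F.toFamily.exists_bad
  obtain ⟨x₀, hx₀⟩ := F.toFamily.nonempty_of_density _ _ one_ne_zero
    (F.toFamily.density B hBc hBi hB0 (F.toFamily.MaxMod U₀) fun x hx => hB x hx U₀ le_rfl)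
  obtain ⟨M, hM, -, hs⟩ := hd.data
  obtain ⟨M', hM', -, hs'⟩ := hd'.data
  have hdeg : ∀ x, (F.degP x : K) ≠ 0 := fun x => Nat.cast_ne_zero.2 (F.degP_pos x).ne'
  have hN : d ^ (M + M' + 1) = 0 := by
    rw [show M + M' + 1 = (M + 1) + M' by ring, pow_add, hM, zero_mul]
  have hN' : d' ^ (M + M' + 1) = 0 := by
    rw [show M + M' + 1 = (M' + 1) + M by ring, pow_add, hM', zero_mul]
  have hsN : Semi (Set.range (tw F.toFamily.gr F.deg F.deg_mul d (M + M') hN hd.comm')) := by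
    have : ⇑(tw F.toFamily.gr F.deg F.deg_mul d (M + M') hN hd.comm') =
        ⇑(tw F.toFamily.gr F.deg F.deg_mul d M hM hd.comm') := by
      funext γ
      rw [tw_apply, tw_apply, exK_eq _ _ hN, exK_eq _ _ hM]
    rw [this]
    exact hs
  have hsN' : Semi (Set.range (tw F.toFamily.gr F.deg F.deg_mul d' (M + M') hN' hd'.comm')) := by
    have : ⇑(tw F.toFamily.gr F.deg F.deg_mul d' (M + M') hN' hd'.comm') =
        ⇑(tw F.toFamily.gr F.deg F.deg_mul d' M' hM' hd'.comm') := by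
      funext γ
      rw [tw_apply, tw_apply, exK_eq _ _ hN', exK_eq _ _ hM']
    rw [this]
    exact hs'
  obtain ⟨s, s', h1, h2, h3, h4, -⟩ := F.gen_jd d hd (M + M') hN hsN U₀ hU₀n hU₀o x₀ hx₀
  obtain ⟨r, r', k1, k2, k3, k4, -⟩ := F.gen_jd d' hd' (M + M') hN' hsN' U₀ hU₀n hU₀o x₀ hx₀
  have h5 := Pool.Agent.D0H87.OF.t_UNQ ι K r r' s s' _ _ (M + M') k1 h1 k2 h2 k3 h3
    (by rw [_root_.smul_pow, hN', smul_zero]) (by rw [_root_.smul_pow, hN, smul_zero])
    (k4.symm.trans h4)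
  exact smul_right_injective _ (hdeg x₀) h5

theorem ker_smul_pow (d : Matrix ι ι K) (c : K) (hc : c ≠ 0) (k : ℕ) :
    LinearMap.ker (Matrix.toLin' ((c • d) ^ k)) = LinearMap.ker (Matrix.toLin' (d ^ k)) := by
  rw [_root_.smul_pow, map_smul]
  ext v
  rw [LinearMap.mem_ker, LinearMap.mem_ker, LinearMap.smul_apply,
    smul_eq_zero_iff_right (pow_ne_zero k hc)]

/-- The Jordan type at an arbitrary closed point. -/
theorem DegFamily.jordan_le (hB : S_BLKR) (hN : S_NILR) (hCj : S_CNJ) (F : DegFamily ι P K Γ μ)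
    (d : Matrix ι ι K) (hd : F.IsLog d) (x : P) (m : ℕ) :
    jordanDim m (F.ρ (F.frob x)) ≤ Module.finrank K (LinearMap.ker (Matrix.toLin' (d ^ m))) := by
  have hdeg : (F.degP x : K) ≠ 0 := Nat.cast_ne_zero.2 (F.degP_pos x).ne'
  rw [F.jordanDim_gr hCj]
  obtain ⟨M, hM, -, hs⟩ := hd.data
  have hcM : ((F.degP x : K) • d) ^ (M + 1) = 0 := by rw [_root_.smul_pow, hM, smul_zero]
  set τ := tw F.toFamily.gr F.deg F.deg_mul d M hM hd.comm' with hτ
  have hτinv : τ (F.frob x) * τ (F.frob x)⁻¹ = 1 := by rw [← map_mul, mul_inv_cancel, map_one]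
  obtain ⟨s, s', n, k, h1, h2, h3, h4, h5, h6, -, h7⟩ := exists_jd _ _ hτinv
  have hcd : Commute (τ (F.frob x)) d := by
    rw [hτ, tw_apply]
    exact (show Commute (F.toFamily.gr (F.frob x)) d from hd.comm' _).mul_left
      (exK_commute _ _ _ _ (Commute.refl d)).symm
  have hnd : Commute n d :=
    (Algebra.commute_of_mem_adjoin_singleton_of_commute h7 hcd.symm).symm
  have hsd : Commute s d := by
    have e : s = τ (F.frob x) * exK n k (-1) := by
      rw [h6, mul_assoc, ← exK_add _ _ h5, add_neg_cancel, exK_zero, mul_one]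
    rw [e]
    exact hcd.mul_left (exK_commute _ _ _ _ hnd.symm).symm
  have hND : (n + (F.degP x : K) • d) ^ (k + M + 1) = 0 := by
    have hc1 : Commute n ((F.degP x : K) • d) := hnd.smul_right _
    exact hc1.add_pow_eq_zero_of_add_le_succ_of_pow_eq_zero (m := k + 1) (n := M + 1)
      (k := k + M + 1) h5 hcM (by omega)
  have hgr : F.toFamily.gr (F.frob x) = s * exK (n + (F.degP x : K) • d) (k + M) 1 := by
    have e1 : exK (n + (F.degP x : K) • d) (k + M) 1 = exK n k 1 * exK d M (F.degP x : K) := by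
      rw [exK_eq _ _ hND, exK_eq _ _ h5, exK_eq _ _ hM, ← IsNilpotent.exp_add_of_commute]
      · rw [one_smul, one_smul]
      · exact (hnd.smul_right _).smul_left _
      · exact ⟨k + 1, by rw [one_smul, h5]⟩
      · exact ⟨M + 1, hcM⟩
    rw [e1, ← mul_assoc, ← h6, hτ, tw_apply, F.deg_frob, mul_assoc, ← exK_add _ _ hM,
      neg_add_cancel, exK_zero, mul_one]
  rw [hgr, hB ι K s s' _ _ m h1 h3 (h4.add_right (hsd.smul_right _)) hND,
    ← ker_smul_pow d _ hdeg m]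
  refine hN ι K (Set.range τ) hs n ((F.degP x : K) • d) ⟨k + 1, h5⟩ ?_ ?_ m
  · intro e he
    have h9 : Commute (τ (F.frob x)) e := he _ ⟨_, rfl⟩
    exact (Algebra.commute_of_mem_adjoin_singleton_of_commute h7 h9.symm).symm
  · rintro _ ⟨γ, rfl⟩
    have h9 : Commute (τ γ) d := by
      rw [hτ, tw_apply]
      exact (show Commute (F.toFamily.gr γ) d from hd.comm' _).mul_left
        (exK_commute _ _ _ _ (Commute.refl d)).symm
    exact h9.smul_right _

/-- The Jordan type at the generic closed points. -/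
theorem DegFamily.jordan_eq [Nonempty P] (hB : S_BLKR) (hCj : S_CNJ) (F : DegFamily ι P K Γ μ)
    (d : Matrix ι ι K) (hd : F.IsLog d) (U : Subgroup Γ) (hUn : U.Normal)
    (hU : IsOpen (U : Set Γ)) (x : P) (hx : x ∈ F.toFamily.MaxMod U) :
    IsSS (grM F.wt (F.ρ (F.frob x)) * IsNilpotent.exp (-(F.degP x : K) • d)) ∧
    ∀ k, jordanDim k (F.ρ (F.frob x)) =
      Module.finrank K (LinearMap.ker (Matrix.toLin' (d ^ k))) := by
  have hdeg : (F.degP x : K) ≠ 0 := Nat.cast_ne_zero.2 (F.degP_pos x).ne'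
  obtain ⟨M, hM, he, hs⟩ := hd.data
  have hcM : ((F.degP x : K) • d) ^ (M + 1) = 0 := by rw [_root_.smul_pow, hM, smul_zero]
  obtain ⟨s, s', h1, h2, h3, h4, h5⟩ := F.gen_jd d hd M hM hs U hUn hU x hx
  refine ⟨?_, fun m => ?_⟩
  · rw [he]
    change IsSS (F.toFamily.gr (F.frob x) * _)
    rw [← h5]
    exact h2
  · rw [F.jordanDim_gr hCj, h4, hB ι K s s' _ _ m h1 h2 h3 hcM, ker_smul_pow d _ hdeg m]

theorem DegFamily.arith_iff [Nonempty P] (F : DegFamily ι P K Γ μ) (d : Matrix ι ι K)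
    (hd : F.IsLog d) : F.toFamily.Arith ↔ d = 0 := by
  constructor
  · intro ha
    refine (F.log_unique d 0 hd ⟨IsNilpotent.zero, fun γ => by rw [mul_zero, zero_mul], ?_⟩).symm
    simp only [smul_zero, IsNilpotent.exp_zero, mul_one]
    exact ha
  · intro h0
    have hs := hd.semi
    rw [h0] at hs
    simp only [smul_zero, IsNilpotent.exp_zero, mul_one] at hs
    exact hs

theorem Sheaf.main (hB : S_BLKR) (hN : S_NILR) (hCj : S_CNJ) [Nonempty P] (S : Base P Γ μ)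
    {L : Type} [Nonempty L] {ι K : L → Type} [∀ l, Fintype (ι l)] [∀ l, DecidableEq (ι l)]
    [∀ l, Field (K l)] [∀ l, IsAlgClosed (K l)] [∀ l, CharZero (K l)]
    [∀ l, TopologicalSpace (K l)] [∀ l, IsTopologicalRing (K l)] [∀ l, T2Space (K l)]
    (V : ∀ l, Sheaf S (ι l) (K l)) (num : P → ℕ)
    (hnum : ∀ l x, numEig ((V l).ρ (S.frob x)) = num x) :
    (∃ U₀ : Subgroup Γ, U₀.Normal ∧ IsOpen (U₀ : Set Γ) ∧
      ∀ U : Subgroup Γ, U ≤ U₀ → HasDensity S.nm S.dim (S.MaxMod num U) 1) ∧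
    (∀ l, ∃ d : Matrix (ι l) (ι l) (K l), (V l).IsLog d ∧ (∀ d', (V l).IsLog d' → d' = d) ∧
      (∀ (x : P) (k : ℕ), jordanDim k ((V l).ρ (S.frob x)) ≤
        Module.finrank (K l) (LinearMap.ker (Matrix.toLin' (d ^ k)))) ∧
      (∀ U : Subgroup Γ, U.Normal → IsOpen (U : Set Γ) → ∀ x ∈ S.MaxMod num U,
        IsSS (grM (V l).wt ((V l).ρ (S.frob x)) * IsNilpotent.exp (-(S.degP x : K l) • d)) ∧
        ∀ k : ℕ, jordanDim k ((V l).ρ (S.frob x)) =
          Module.finrank (K l) (LinearMap.ker (Matrix.toLin' (d ^ k)))) ∧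
      [(V l).Good.Nonempty, (V l).Arith, HasDensity S.nm S.dim (V l).Good 1, d = 0].TFAE) ∧
    ((∀ l, (V l).Good.Nonempty) → HasDensity S.nm S.dim {x | ∀ l, x ∈ (V l).Good} 1) := by
  have hmax : ∀ l U, (V l).toDeg.toFamily.MaxMod U = S.MaxMod num U := by
    intro l U
    ext x
    change (∀ y, _ → numEig ((V l).ρ (S.frob y)) ≤ numEig ((V l).ρ (S.frob x))) ↔
      ∀ y, _ → num y ≤ num x
    simp only [hnum]
    exact Iff.rfl
  obtain ⟨l₀⟩ := ‹Nonempty L›
  obtain ⟨U₀, hU₀n, hU₀o, B, hBc, hBi, hB0, hBU⟩ := (V l₀).toDeg.toFamily.exists_bad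
  have hdens : ∀ T : Set P, (∀ x, S.frob x ∉ B → x ∈ T) → HasDensity S.nm S.dim T 1 :=
    fun T hT => (V l₀).toDeg.toFamily.density B hBc hBi hB0 T hT
  refine ⟨⟨U₀, hU₀n, hU₀o, fun U hU => hdens _ fun x hx => ?_⟩, fun l => ?_, fun hg => ?_⟩
  · rw [← hmax l₀]
    exact hBU x hx U hU
  · obtain ⟨d, hd⟩ := (V l).toDeg.exists_isLog
    refine ⟨d, ⟨hd.nilp, hd.comm, hd.semi⟩, fun d' hd' => ?_, fun x k => ?_, ?_, ?_⟩
    · exact (V l).toDeg.log_unique d d' hd ⟨hd'.nilp, hd'.comm, hd'.semi⟩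
    · exact (V l).toDeg.jordan_le hB hN hCj d hd x k
    · intro U hUn hU x hx
      rw [← hmax l] at hx
      exact (V l).toDeg.jordan_eq hB hCj d hd U hUn hU x hx
    · have h1 := (V l).toDeg.toFamily.main Pool.Agent.D0H52.OF.t_MIX
      have h2 := (V l).toDeg.arith_iff d hd
      have h3 : [(V l).Good.Nonempty, (V l).Arith, HasDensity S.nm S.dim (V l).Good 1].TFAE := h1.1
      have h4 : (V l).Arith ↔ d = 0 := h2
      tfae_have 1 ↔ 2 := h3.out 0 1
      tfae_have 2 ↔ 3 := h3.out 1 2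
      tfae_have 2 ↔ 4 := h4
      tfae_finish
  · refine hdens _ fun x hx l => ?_
    have h1 := ((V l).toDeg.toFamily.main Pool.Agent.D0H52.OF.t_MIX).2.1 (hg l) U₀ hU₀n hU₀o
    apply h1
    rw [hmax l, ← hmax l₀]
    exact hBU x hx U₀ le_rfl

end fin

end Pool.Agent.D0H89.OF
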