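import Pool.Agent.D0H89.OF.Den
import Pool.Agent.D0H89.OF.Stm2

/-!
# The generic Frobenius elements
-/

set_option autoImplicit false
set_option linter.unusedSectionVars false

open Polynomial MeasureTheory

namespace Pool.Agent.D0H89.OF

section Gen

variable {ι K Γ : Type} [Fintype ι] [DecidableEq ι] [Field K] [IsAlgClosed K] [CharZero K]
  [TopologicalSpace K] [IsTopologicalRing K] [T2Space K] [Group Γ] [TopologicalSpace Γ]
  [IsTopologicalGroup Γ] [CompactSpace Γ] [T2Space Γ] [TotallyDisconnectedSpace Γ]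
  [MeasurableSpace Γ] [BorelSpace Γ]

/-- Outside of a closed conjugation invariant null set all elements have the maximal number of
eigenvalues in their coset mod `H`. -/
theorem generic (hG0 : S_GRAM0) (hG1 : S_GRAM1)
    (hC : S_COMP) (μ : Measure Γ) [IsProbabilityMeasure μ] [μ.IsHaarMeasure]
    (ρ : Γ →* Matrix ι ι K) (hρ : Continuous ρ) :
    ∃ H : Subgroup Γ, H.Normal ∧ IsOpen (H : Set Γ) ∧ ∃ B : Set Γ, IsClosed B ∧
      (∀ x, ∀ γ ∈ B, x * γ * x⁻¹ ∈ B) ∧ μ B = 0 ∧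
      ∀ γ, γ ∉ B → ∀ h, γ⁻¹ * h ∈ H → numEig (ρ h) ≤ numEig (ρ γ) := by
  classical
  obtain ⟨H, hHn, hHc, hHf, hH⟩ := hC ι K Γ μ ρ hρ
  have hHo : IsOpen (H : Set Γ) := Subgroup.isOpen_of_isClosed_of_finiteIndex H hHc
  -- the maximum on a coset
  have hex : ∀ γ : Γ, ∃ k : ℕ, (∀ h, γ⁻¹ * h ∈ H → numEig (ρ h) ≤ k) ∧
      ∃ h, γ⁻¹ * h ∈ H ∧ numEig (ρ h) = k := by
    intro γ
    have hb : BddAbove {k | ∃ h, γ⁻¹ * h ∈ H ∧ numEig (ρ h) = k} := by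
      refine ⟨Fintype.card ι, ?_⟩
      rintro _ ⟨h, -, rfl⟩
      exact numEig_le _
    have hne : {k | ∃ h, γ⁻¹ * h ∈ H ∧ numEig (ρ h) = k}.Nonempty :=
      ⟨_, γ, by rw [inv_mul_cancel]; exact H.one_mem, rfl⟩
    refine ⟨sSup {k | ∃ h, γ⁻¹ * h ∈ H ∧ numEig (ρ h) = k}, fun h hh => ?_, Nat.sSup_mem hne hb⟩
    exact le_csSup hb ⟨h, hh, rfl⟩
  choose κ hκ1 hκ2 using hex
  have hκH : ∀ γ γ', γ⁻¹ * γ' ∈ H → κ γ = κ γ' := by
    intro γ γ' h
    have h' : γ'⁻¹ * γ ∈ H := by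
      have := H.inv_mem h
      rwa [mul_inv_rev, inv_inv] at this
    apply le_antisymm
    · obtain ⟨h1, h2, h3⟩ := hκ2 γ
      rw [← h3]
      apply hκ1
      have := H.mul_mem h' h2
      rwa [mul_assoc, mul_inv_cancel_left] at this
    · obtain ⟨h1, h2, h3⟩ := hκ2 γ'
      rw [← h3]
      apply hκ1
      have := H.mul_mem h h2
      rwa [mul_assoc, mul_inv_cancel_left] at this
  have hκconj : ∀ x γ, κ (x * γ * x⁻¹) = κ γ := by
    have hle : ∀ x γ, κ (x * γ * x⁻¹) ≤ κ γ := by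
      intro x γ
      obtain ⟨h1, h2, h3⟩ := hκ2 (x * γ * x⁻¹)
      rw [← h3, ← numEig_conj ρ x⁻¹ h1]
      apply hκ1
      have := hHn.conj_mem _ h2 x⁻¹
      have e : γ⁻¹ * (x⁻¹ * h1 * x⁻¹⁻¹) = x⁻¹ * ((x * γ * x⁻¹)⁻¹ * h1) * x⁻¹⁻¹ := by group
      rw [e]
      exact this
    intro x γ
    apply le_antisymm (hle x γ)
    have := hle x⁻¹ (x * γ * x⁻¹)
    have e : x⁻¹ * (x * γ * x⁻¹) * x⁻¹⁻¹ = γ := by group
    rwa [e] at this
  let B : Set Γ := {γ | MvPolynomial.eval (entries ρ γ) (gp (κ γ)) = 0}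
  have hgram : ∀ γ, γ ∈ B ↔ numEig (ρ γ) < κ γ := by
    intro γ
    change MvPolynomial.eval (entries ρ γ) (gp (κ γ)) = 0 ↔ _
    rw [eval_gp]
    constructor
    · intro h
      rcases (hκ1 γ γ (by rw [inv_mul_cancel]; exact H.one_mem)).lt_or_eq with h1 | h1
      · exact h1
      · exact absurd h (hG1 ι K (ρ γ) (κ γ) h1)
    · intro h
      obtain ⟨k, hk⟩ : ∃ k, κ γ = k + 1 := ⟨κ γ - 1, by omega⟩
      rw [hk]
      exact hG0 ι K (ρ γ) k (by omega) _ _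
  refine ⟨H, hHn, hHo, B, ?_, ?_, ?_, ?_⟩
  · rw [← isOpen_compl_iff, isOpen_iff_mem_nhds]
    intro γ hγ
    have h1 : IsOpen {x | γ⁻¹ * x ∈ H ∧ MvPolynomial.eval (entries ρ x) (gp (κ γ)) ≠ 0} := by
      apply IsOpen.inter
      · exact hHo.preimage (continuous_const.mul continuous_id)
      · exact isOpen_ne_fun (cont_eval ρ hρ _) continuous_const
    refine Filter.mem_of_superset (h1.mem_nhds ⟨by rw [inv_mul_cancel]; exact H.one_mem, hγ⟩) ?_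
    rintro x ⟨hx1, hx2⟩ hx
    apply hx2
    rw [hκH γ x hx1]
    exact hx
  · intro x γ hγ
    rw [hgram] at hγ ⊢
    rw [numEig_conj, hκconj]
    exact hγ
  · -- measure zero: finitely many cosets
    have hfin : Finite (Γ ⧸ H) := Subgroup.finite_quotient_of_finiteIndex
    have hcov : B ⊆ ⋃ c : Γ ⧸ H, {γ | (c.out)⁻¹ * γ ∈ H ∧
        MvPolynomial.eval (entries ρ γ) (gp (κ c.out)) = 0} := by
      intro γ hγ
      refine Set.mem_iUnion.2 ⟨(γ : Γ ⧸ H), ?_⟩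
      have h1 : ((γ : Γ ⧸ H).out)⁻¹ * γ ∈ H := by
        rw [← QuotientGroup.eq, QuotientGroup.out_eq']
      refine ⟨h1, ?_⟩
      rw [hκH _ _ h1]
      exact hγ
    refine measure_mono_null hcov ?_
    rw [measure_iUnion_null_iff]
    intro c
    by_contra hne
    have h2 := hH {gp (κ c.out)} c.out (by
      intro h0
      apply hne
      rw [← h0]
      congr 1
      ext γ
      simp)
    obtain ⟨h, hh1, hh2⟩ := hκ2 c.out
    have h3 := h2 h hh1 _ rfl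
    have h4 : h ∈ B := by
      change MvPolynomial.eval (entries ρ h) (gp (κ h)) = 0
      rw [← hκH _ _ hh1]
      exact h3
    rw [hgram, ← hκH _ _ hh1, hh2] at h4
    exact lt_irrefl _ h4
  · intro γ hγ h hh
    have h1 : ¬ numEig (ρ γ) < κ γ := fun h1 => hγ ((hgram γ).2 h1)
    exact (hκ1 γ h hh).trans (not_lt.1 h1)

/-- A clopen conjugation invariant set of conjugates of elements of an open set. -/
theorem exists_clopen (O : Set Γ) (hO : IsOpen O) (h : Γ) (hh : h ∈ O) :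
    ∃ C : Set Γ, IsClopen C ∧ (∀ x, ∀ γ ∈ C, x * γ * x⁻¹ ∈ C) ∧ h ∈ C ∧
      ∀ γ ∈ C, ∃ g, g * γ * g⁻¹ ∈ O := by
  have h1 : IsOpen {x | h * x ∈ O} := hO.preimage (continuous_const.mul continuous_id)
  obtain ⟨U, hU⟩ := ProfiniteGrp.exist_openNormalSubgroup_sub_open_nhds_of_one h1
    (show h * 1 ∈ O by simpa using hh)
  have hUo : IsOpen ((U : Set Γ)) := U.toOpenSubgroup.isOpen
  have hUn := U.isNormal'
  let C : Set Γ := {γ | ∃ x, h⁻¹ * (x⁻¹ * γ * x) ∈ U}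
  have hinv : ∀ γ ∈ C, ∀ v ∈ U, γ * v ∈ C := by
    rintro γ ⟨x, hx⟩ v hv
    refine ⟨x, ?_⟩
    have e : h⁻¹ * (x⁻¹ * (γ * v) * x) = h⁻¹ * (x⁻¹ * γ * x) * (x⁻¹ * v * x⁻¹⁻¹) := by group
    rw [e]
    exact mul_mem hx (hUn.conj_mem v hv x⁻¹)
  refine ⟨C, ⟨?_, ?_⟩, ?_, ⟨1, by simp⟩, ?_⟩
  · rw [← isOpen_compl_iff, isOpen_iff_mem_nhds]
    intro γ hγ
    have h2 : IsOpen {x | γ⁻¹ * x ∈ (U : Set Γ)} :=
      hUo.preimage (continuous_const.mul continuous_id)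
    refine Filter.mem_of_superset (h2.mem_nhds (by simp)) ?_
    intro x hx hxC
    apply hγ
    have h3 := hinv x hxC (γ⁻¹ * x)⁻¹ (inv_mem hx)
    have e : x * (γ⁻¹ * x)⁻¹ = γ := by group
    rwa [e] at h3
  · have h2 : C = ⋃ x, {γ | h⁻¹ * (x⁻¹ * γ * x) ∈ (U : Set Γ)} := by
      ext γ
      simp [C]
    rw [h2]
    refine isOpen_iUnion fun x => hUo.preimage ?_
    fun_prop
  · rintro y γ ⟨x, hx⟩
    refine ⟨y * x, ?_⟩
    have e : h⁻¹ * ((y * x)⁻¹ * (y * γ * y⁻¹) * (y * x)) = h⁻¹ * (x⁻¹ * γ * x) := by group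
    rw [e]
    exact hx
  · rintro γ ⟨x, hx⟩
    refine ⟨x⁻¹, ?_⟩
    have h3 : h * (h⁻¹ * (x⁻¹ * γ * x)) ∈ O := hU hx
    rw [mul_inv_cancel_left] at h3
    rwa [inv_inv]

end Gen

end Pool.Agent.D0H89.OF
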