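import Pool.Agent.D0H89.OF.Fin5

/-!
# The Jordan type by ranks
-/

set_option autoImplicit false

namespace Pool.Agent.D0H89.OF

/-- The dimension of the kernel of `A ^ k`. -/
noncomputable def kerDim {ι K : Type} [Fintype ι] [DecidableEq ι] [Field K] (k : ℕ)
    (A : Matrix ι ι K) : ℕ := Fintype.card ι - (A ^ k).rank

/-- `∑_z dim ker (A - z) ^ k`, that is `∑_i min (λ_i, k)` for the sizes `λ_i` of the Jordan blocks of
`A`. These numbers, for all `k`, determine the sizes; for `k = 1` it is the number of the blocks. -/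
noncomputable def jordanSum {ι K : Type} [Fintype ι] [DecidableEq ι] [Field K] (k : ℕ)
    (A : Matrix ι ι K) : ℕ := ∑ᶠ z : K, kerDim k (A - Matrix.scalar ι z)

theorem finrank_ker_eq {ι K : Type} [Fintype ι] [DecidableEq ι] [Field K] (k : ℕ)
    (A : Matrix ι ι K) :
    Module.finrank K (LinearMap.ker (Matrix.toLin' (A ^ k))) = kerDim k A := by
  have h := LinearMap.finrank_range_add_finrank_ker (Matrix.toLin' (A ^ k))
  rw [Module.finrank_fintype_fun_eq_card] at h
  have h2 : (A ^ k).rank = Module.finrank K (LinearMap.range (Matrix.toLin' (A ^ k))) := by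
    rw [Matrix.rank]
    rfl
  rw [kerDim, h2]
  omega

theorem jordanSum_eq {ι K : Type} [Fintype ι] [DecidableEq ι] [Field K] (k : ℕ)
    (A : Matrix ι ι K) : jordanDim k A = jordanSum k A := by
  unfold jordanDim jordanSum
  congr 1
  funext z
  exact finrank_ker_eq k _

end Pool.Agent.D0H89.OF
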