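import Pool.Agent.D0H89.OF.Dual

/-!
# Elements with the maximal number of distinct eigenvalues in their coset are semisimple
-/

set_option autoImplicit false

open Polynomial

namespace Pool.Agent.D0H89.OF

section Aux

variable {ι K : Type} [Fintype ι] [DecidableEq ι] [Field K]

theorem m0_em (A : Matrix ι ι K) : m0 (em (DualNumber K) A) = A := by
  ext i j
  simp [m0, em, TrivSqZeroExt.algebraMap_eq_inl]

theorem m1_em (A : Matrix ι ι K) : m1 (em (DualNumber K) A) = 0 := by
  ext i j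
  simp [m1, em, TrivSqZeroExt.algebraMap_eq_inl]

theorem m0_eps (N : Matrix ι ι K) :
    m0 (1 + (DualNumber.eps : DualNumber K) • em (DualNumber K) N) = 1 := by
  ext i j
  simp only [m0, Matrix.map_apply, Matrix.add_apply, Matrix.smul_apply, Matrix.one_apply, em,
    TrivSqZeroExt.algebraMap_eq_inl]
  split_ifs <;> simp

theorem m1_eps (N : Matrix ι ι K) :
    m1 (1 + (DualNumber.eps : DualNumber K) • em (DualNumber K) N) = N := by
  ext i j
  simp only [m1, Matrix.map_apply, Matrix.add_apply, Matrix.smul_apply, Matrix.one_apply, em,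
    TrivSqZeroExt.algebraMap_eq_inl]
  split_ifs <;> simp

theorem exK_neg (M : Matrix ι ι K) (m : ℕ) (t : K) : exK (-M) m t = exK M m (-t) := by
  rw [exK, exK]
  refine Finset.sum_congr rfl fun j _ => ?_
  rw [neg_pow, neg_pow t]
  rcases Nat.even_or_odd j with h | h
  · simp [h.neg_one_pow]
  · simp [h.neg_one_pow]

theorem exK_smul (M : Matrix ι ι K) (m : ℕ) (e t : K) : exK (e • M) m t = exK M m (e * t) := by
  rw [exK, exK]
  refine Finset.sum_congr rfl fun j _ => ?_
  rw [_root_.smul_pow, smul_smul, mul_pow]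
  congr 1
  ring

end Aux

variable {ι K G : Type} [Fintype ι] [DecidableEq ι] [Field K] [IsAlgClosed K] [CharZero K] [Group G]

/-- **The key theorem.** Let `ρ` be a semisimple representation over an algebraically closed field of
characteristic zero, `U` a normal subgroup of finite index, and let `ρ g` have the maximal number of
distinct eigenvalues among the elements of its coset. Then `ρ g` is semisimple. -/
theorem key (hJ : S_JORD) (hG0 : S_GRAM0) (hG1 : S_GRAM1) (hR : S_RAD) (hL : S_LIE)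
    (ρ : G →* Matrix ι ι K) (hs : Semi (Set.range ρ)) (U : Subgroup G) (hUn : U.Normal)
    (hU : U.FiniteIndex) (g : G)
    (hmax : ∀ h, g⁻¹ * h ∈ U → numEig (ρ h) ≤ numEig (ρ g)) : IsSS (ρ g) := by
  have hinv : ∀ x : G, ρ x * ρ x⁻¹ = 1 := fun x => by rw [← map_mul, mul_inv_cancel, map_one]
  have hinv' : ∀ x : G, ρ x⁻¹ * ρ x = 1 := fun x => by rw [← map_mul, inv_mul_cancel, map_one]
  obtain ⟨P, P', μ, N, m, hPP, hPP', hN, hc, hA, hA', hN0, hss⟩ := hJ ι K (ρ g) (ρ g⁻¹) (hinv g)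
  suffices h0 : N = 0 from hss h0
  set D : Matrix ι ι K := Matrix.diagonal fun i => (μ i : K) with hD
  set N0 : Matrix ι ι K := P * N * P' with hN0d
  have hconj : ∀ X Y : Matrix ι ι K, (P * X * P') * (P * Y * P') = P * (X * Y) * P' := by
    intro X Y
    calc _ = P * X * (P' * P) * Y * P' := by simp only [mul_assoc]
      _ = _ := by rw [hPP', mul_one]; simp only [mul_assoc]
  have hPN : N = P' * N0 * P := by
    rw [hN0d]
    calc N = (P' * P) * N * (P' * P) := by rw [hPP', one_mul, mul_one]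
      _ = _ := by simp only [mul_assoc]
  -- powers of `ρ g`
  have hg : ρ g = P * (D * exK N m 1) * P' := by
    rw [← hA]
    calc ρ g = (P * P') * ρ g * (P * P') := by rw [hPP, one_mul, mul_one]
      _ = _ := by simp only [mul_assoc]
  have hpow : ∀ k : ℕ, ρ g ^ k = P * (D ^ k * exK N m (k : K)) * P' := by
    intro k
    have h1 : ∀ k : ℕ, ρ g ^ k = P * (D * exK N m 1) ^ k * P' := by
      intro k
      induction k with
      | zero => rw [pow_zero, pow_zero, mul_one, hPP]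
      | succ k ih => rw [pow_succ, ih, pow_succ, ← hconj, ← hg]
    rw [h1, (exK_commute _ N m 1 hc).mul_pow, exK_pow N m hN]
  have hDinv : ∀ k : ℕ, D ^ k * (Matrix.diagonal fun i => ((μ i)⁻¹ : Kˣ).val) ^ k = 1 := by
    intro k
    rw [hD, Matrix.diagonal_pow, Matrix.diagonal_pow, Matrix.diagonal_mul_diagonal,
      ← Matrix.diagonal_one]
    congr 1
    funext i
    simp
  have hEinv : ∀ k : ℕ, exK N m (k : K) * exK (-N) m (k : K) = 1 := by
    intro k
    rw [exK_neg, ← exK_add N m hN, add_neg_cancel, exK_zero]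
  have hpowinv : ∀ k : ℕ, P * (exK (-N) m (k : K) *
      (Matrix.diagonal fun i => ((μ i)⁻¹ : Kˣ).val) ^ k) * P' = ρ (g⁻¹ ^ k) := by
    intro k
    have h1 : ρ g ^ k * (P * (exK (-N) m (k : K) *
      (Matrix.diagonal fun i => ((μ i)⁻¹ : Kˣ).val) ^ k) * P') = 1 := by
      rw [hpow, hconj]
      have h2 : D ^ k * exK N m (k : K) * (exK (-N) m (k : K) *
          (Matrix.diagonal fun i => ((μ i)⁻¹ : Kˣ).val) ^ k) = 1 := by
        calc _ = D ^ k * (exK N m (k : K) * exK (-N) m (k : K)) *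
            (Matrix.diagonal fun i => ((μ i)⁻¹ : Kˣ).val) ^ k := by simp only [mul_assoc]
          _ = 1 := by rw [hEinv, mul_one, hDinv]
      rw [h2, mul_one, hPP]
    have h3 : ρ (g⁻¹ ^ k) * ρ g ^ k = 1 := by
      rw [← map_pow, ← map_mul, inv_pow, inv_mul_cancel, map_one]
    calc _ = ρ (g⁻¹ ^ k) * ρ g ^ k * (P * (exK (-N) m (k : K) *
      (Matrix.diagonal fun i => ((μ i)⁻¹ : Kˣ).val) ^ k) * P') := by rw [h3, one_mul]
      _ = _ := by rw [mul_assoc, h1, mul_one]
  -- nilpotency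
  have hNnil : IsNilpotent N0 := by
    refine ⟨m + 1, ?_⟩
    have h1 : ∀ k : ℕ, N0 ^ k = P * N ^ k * P' := by
      intro k
      induction k with
      | zero => rw [pow_zero, pow_zero, mul_one, hPP]
      | succ k ih => rw [pow_succ, ih, pow_succ, ← hconj]
    rw [h1, hN, mul_zero, zero_mul]
  have hcomm : ∀ X ∈ Algebra.adjoin K {ρ g}, ∀ Y ∈ Algebra.adjoin K {ρ g}, Commute X Y := by
    intro X hX Y hY
    have h1 : Commute (ρ g) Y := Algebra.commute_of_mem_adjoin_self hY
    exact (Algebra.commute_of_mem_adjoin_singleton_of_commute hX h1.symm).symm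
  obtain ⟨e, he0, heU⟩ : ∃ e : ℕ, e ≠ 0 ∧ g ^ e ∈ U :=
    ⟨U.index, hU.index_ne_zero, U.pow_index_mem g⟩
  -- the trace identity
  have htr0 : ∀ x, (N0 * (ρ x * N0 * ρ x⁻¹)).trace = 0 := by
    intro x
    set M : Matrix ι ι (DualNumber K) := em (DualNumber K) (ρ x) * (em (DualNumber K) P *
      (1 + (DualNumber.eps : DualNumber K) • em (DualNumber K) ((e : K) • N)) *
        em (DualNumber K) P') * em (DualNumber K) (ρ x⁻¹ * ρ g) with hM
    have hm0 : m0 M = ρ g := by
      simp only [hM, m0_mul, m0_em, m0_eps, mul_one, hPP]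
      rw [← mul_assoc, hinv, one_mul]
    have hm1 : m1 M = (e : K) • ((ρ x * N0 * ρ x⁻¹) * ρ g) := by
      simp only [hM, m1_mul, m0_mul, m0_em, m1_em, m0_eps, m1_eps, mul_zero, zero_mul, zero_add,
        add_zero, hN0d, mul_smul_comm, smul_mul_assoc, mul_assoc]
    have hgram : ∀ p q : Fin (numEig (ρ g) + 1) → K[X], gram M p q = 0 := by
      intro p q
      apply split_gram (ρ x) (ρ x⁻¹ * ρ g) P P' (fun i => μ i ^ e) ((e : K) • N) m
        (by rw [_root_.smul_pow, hN, smul_zero]) p q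
      intro k
      have h1 : P * ((Matrix.diagonal fun i => ((μ i ^ e : Kˣ) : K)) ^ k *
          exK ((e : K) • N) m (k : K)) * P' = ρ (g ^ (e * k)) := by
        rw [map_pow, hpow, exK_smul, ← Nat.cast_mul]
        congr 3
        rw [hD, Matrix.diagonal_pow, Matrix.diagonal_pow]
        congr 1
        funext i
        simp [pow_mul]
      rw [h1, ← map_mul, ← map_mul, ← map_mul]
      apply hG0
      apply hmax
      have h2 : x * g ^ (e * k) * x⁻¹ ∈ U := hUn.conj_mem _ (by rw [pow_mul]; exact U.pow_mem heU k) x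
      have h3 := hUn.conj_mem _ h2 g⁻¹
      have h4 : g⁻¹ * (x * g ^ (e * k) * (x⁻¹ * g)) = g⁻¹ * (x * g ^ (e * k) * x⁻¹) * g⁻¹⁻¹ := by
        group
      rw [h4]
      exact h3
    have h1 := hR ι K (ρ g) (m1 M) (fun u v hu hv => by
      have h2 := gram_deriv M (numEig (ρ g)) u v (by rw [hm0]; exact hu) (by rw [hm0]; exact hv)
        (by rw [hm0]; exact hG1 ι K (ρ g) _ rfl) (hgram _ _)
      rw [hm0] at h2
      exact h2) (ρ g⁻¹ * N0) (Subalgebra.mul_mem _ hA' hN0)
      ((hcomm _ hA' _ hN0).isNilpotent_mul_left hNnil)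
    rw [hm1, mul_smul_comm, Matrix.trace_smul, smul_eq_zero] at h1
    have h2 := h1.resolve_left (by exact_mod_cast he0)
    rw [← mul_assoc, Matrix.trace_mul_comm] at h2
    have h3 : ρ g * (ρ g⁻¹ * N0 * (ρ x * N0 * ρ x⁻¹)) = N0 * (ρ x * N0 * ρ x⁻¹) := by
      rw [mul_assoc (ρ g⁻¹), ← mul_assoc (ρ g), hinv, one_mul]
    rw [h3] at h2
    exact h2
  have htr : ∀ x y, ((ρ x * N0 * ρ x⁻¹) * (ρ y * N0 * ρ y⁻¹)).trace = 0 := by
    intro x y
    rw [← htr0 (x⁻¹ * y), map_mul, mul_inv_rev, inv_inv, map_mul]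
    have h1 : ρ x * N0 * ρ x⁻¹ * (ρ y * N0 * ρ y⁻¹) = ρ x * (N0 * ρ x⁻¹ * (ρ y * N0 * ρ y⁻¹)) := by
      simp only [mul_assoc]
    rw [h1, Matrix.trace_mul_comm]
    congr 1
    simp only [mul_assoc]
  -- the brackets
  have hbr : ∀ x y, (ρ x * N0 * ρ x⁻¹) * (ρ y * N0 * ρ y⁻¹) - (ρ y * N0 * ρ y⁻¹) * (ρ x * N0 * ρ x⁻¹) ∈
      Submodule.span K (Set.range fun z => ρ z * N0 * ρ z⁻¹) := by
    intro x y
    rw [← Subspace.forall_mem_dualAnnihilator_apply_eq_zero_iff]
    intro φ hφ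
    have hφ0 : ∀ z, φ (ρ z * N0 * ρ z⁻¹) = 0 := fun z =>
      (Submodule.mem_dualAnnihilator φ).1 hφ _ (Submodule.subset_span ⟨z, rfl⟩)
    have h1 := split_lin φ (ρ x) (ρ x⁻¹) (ρ y * N0 * ρ y⁻¹) P P' μ N m hN (fun k => by
      rw [hpowinv, ← hpow, ← map_pow]
      rw [← hφ0 (x * g ^ k * x⁻¹ * y)]
      congr 1
      simp only [map_mul, mul_inv_rev, inv_inv, inv_pow, mul_assoc])
    have h2 := congrArg TrivSqZeroExt.snd h1
    rw [snd_fx, TrivSqZeroExt.snd_zero] at h2
    have h3 : ∀ M : Matrix ι ι (DualNumber K), M.map TrivSqZeroExt.snd = m1 M := fun _ => rfl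
    rw [h3] at h2
    simp only [m1_mul, m0_mul, m0_em, m1_em, m0_eps, m1_eps, mul_zero, zero_mul, zero_add,
        add_zero, mul_one, hPP, one_mul, hinv] at h2
    rw [← h2]
    congr 1
    simp only [hN0d, mul_neg, neg_mul, mul_assoc]
    abel
  have hfin := hL ι K G ρ N0 hNnil (Algebra.adjoin_mono (by
    rintro _ rfl
    exact ⟨g, rfl⟩) hN0) hbr htr hs
  rw [hPN, hfin, mul_zero, zero_mul]

end Pool.Agent.D0H89.OF
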