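import Pool.Agent.D0H89.OF.Stm4
import Pool.Agent.D0H98.OF.Trn

set_option autoImplicit false

namespace Pool.Agent.D0H89.OF

open Matrix Pool.Agent.D0H98.OF

/-- A generalised inverse commuting with `S` (the construction is the one of helper98 in `t_TRN`). -/
theorem exists_ginv {ι K : Type} [Fintype ι] [DecidableEq ι] [Field K] (S : Set (Matrix ι ι K))
    (hS : Semi S) (a : Matrix ι ι K) (hcomm : ∀ A ∈ S, A * a = a * A) :
    ∃ e q : Matrix ι ι K, (∀ A ∈ S, A * e = e * A) ∧ (∀ A ∈ S, A * q = q * A) ∧ a * e = q ∧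
      ∀ w ∈ LinearMap.range (Matrix.toLin' a), q *ᵥ w = w := by
  set Ka := LinearMap.ker (Matrix.toLin' a) with hKa
  set Ia := LinearMap.range (Matrix.toLin' a) with hIa
  have hKs : Stable S Ka := fun A hA w hw => stable_ker (hcomm A hA) hw
  have hIs : Stable S Ia := by
    rintro A hA _ ⟨v, rfl⟩
    refine ⟨A *ᵥ v, ?_⟩
    rw [Matrix.toLin'_apply, Matrix.toLin'_apply, mulVec_mulVec, mulVec_mulVec, hcomm A hA]
  obtain ⟨W', hW', hc'⟩ := hS Ka hKs
  obtain ⟨W'', hW'', hc''⟩ := hS Ia hIs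
  obtain ⟨q, hq, hqc⟩ := exists_proj hIs hW'' hc''
  have hinj : ∀ w ∈ W', a *ᵥ w = 0 → w = 0 := by
    intro w hw h0
    exact (Submodule.disjoint_def.1 hc'.disjoint) w (mem_kerL.2 h0) hw
  have hex : ∀ v, ∃ w ∈ W', a *ᵥ w = q *ᵥ v := by
    intro v
    obtain ⟨u, hu⟩ := hq.1 v
    have h1 : u ∈ Ka ⊔ W' := by rw [hc'.sup_eq_top]; exact Submodule.mem_top
    obtain ⟨k, hk, w, hw, hkw⟩ := Submodule.mem_sup.1 h1
    refine ⟨w, hw, ?_⟩
    rw [← hu, Matrix.toLin'_apply, ← hkw, mulVec_add, mem_kerL.1 hk, zero_add]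
  choose w hwW hwa using hex
  let e : Matrix ι ι K := Matrix.of fun i j => w (Pi.single j 1) i
  have he : ∀ v, e *ᵥ v = ∑ j, v j • w (Pi.single j 1) := by
    intro v
    funext i
    rw [Finset.sum_apply]
    show ∑ j, w (Pi.single j 1) i * v j = _
    refine Finset.sum_congr rfl fun j _ => ?_
    rw [Pi.smul_apply, smul_eq_mul, mul_comm]
  have heW : ∀ v, e *ᵥ v ∈ W' := by
    intro v
    rw [he]
    exact W'.sum_mem fun j _ => W'.smul_mem _ (hwW _)
  have hae : a * e = q := by
    apply mat_ext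
    intro v
    rw [← mulVec_mulVec, he, mulVec_sum]
    have h1 : v = ∑ j, v j • (Pi.single j 1 : ι → K) := by
      funext i
      rw [Finset.sum_apply, Finset.sum_eq_single i]
      · simp
      · intro j _ hj
        rw [Pi.smul_apply, Pi.single_eq_of_ne hj.symm, smul_zero]
      · intro h
        exact absurd (Finset.mem_univ i) h
    conv_rhs => rw [h1, mulVec_sum]
    refine Finset.sum_congr rfl fun j _ => ?_
    rw [mulVec_smul, mulVec_smul, hwa]
  refine ⟨e, q, fun A hA => ?_, hqc, hae, hq.2⟩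
  apply mat_ext
  intro v
  rw [← mulVec_mulVec, ← mulVec_mulVec, ← sub_eq_zero]
  refine hinj _ (W'.sub_mem (hW' A hA _ (heW v)) (heW _)) ?_
  have h2 : ∀ u, a *ᵥ (e *ᵥ u) = q *ᵥ u := fun u => by rw [mulVec_mulVec, hae]
  have h1 : a *ᵥ (A *ᵥ (e *ᵥ v)) = A *ᵥ (q *ᵥ v) := by
    rw [mulVec_mulVec, ← hcomm A hA, ← mulVec_mulVec, h2]
  rw [mulVec_sub, h1, h2, mulVec_mulVec, mulVec_mulVec, hqc A hA, sub_self]

theorem t_NILR : S_NILR := by
  intro ι K _ _ _ _ S hS n d hn hnc hd k
  have hdk : ∀ A ∈ S, A * d ^ k = d ^ k * A := fun A hA => ((show Commute A d from hd A hA).pow_right k)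
  obtain ⟨e, q, he, hq, hae, hqw⟩ := exists_ginv S hS (d ^ k) hdk
  have hnd : Commute n d := hnc d hd
  have hne : Commute n e := hnc e he
  have hnq : Commute n q := hnc q hq
  set c₀ := ∑ i ∈ Finset.range k, (n + d) ^ i * d ^ (k - 1 - i) with hc₀
  have h1 : (n + d) ^ k - d ^ k = n * c₀ := by
    have h2 : Commute (n + d) d := hnd.add_left (Commute.refl d)
    have h3 := h2.mul_geom_sum₂ k
    rw [add_sub_cancel_right] at h3
    exact h3.symm
  have hnc₀ : Commute n c₀ := by
    refine Commute.sum_right _ _ _ fun i _ => ?_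
    exact (((Commute.refl n).add_right hnd).pow_right i).mul_right (hnd.pow_right _)
  have hnil : IsNilpotent (n * (q * (c₀ * e))) :=
    (hnq.mul_right (hnc₀.mul_right hne)).isNilpotent_mul_right hn
  obtain ⟨j, hj⟩ := hnil
  -- the injective map
  let f : LinearMap.range (Matrix.toLin' (d ^ k)) →ₗ[K]
      LinearMap.range (Matrix.toLin' ((n + d) ^ k)) :=
    LinearMap.codRestrict _ ((Matrix.toLin' ((n + d) ^ k * e)).comp (Submodule.subtype _)) (by
      intro v
      refine ⟨e *ᵥ (v : ι → K), ?_⟩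
      rw [LinearMap.comp_apply, Submodule.subtype_apply, Matrix.toLin'_apply, Matrix.toLin'_apply,
        mulVec_mulVec])
  have hf : Function.Injective f := by
    rw [injective_iff_map_eq_zero]
    intro v hv
    have hv1 : ((n + d) ^ k * e) *ᵥ (v : ι → K) = 0 := by
      have := congrArg Subtype.val hv
      exact this
    have hqv : q *ᵥ (v : ι → K) = v := hqw _ v.2
    have h4 : (n + d) ^ k * e = q + n * (c₀ * e) := by
      rw [← hae, ← mul_assoc n, ← h1, sub_mul]
      abel
    have h5 : (v : ι → K) + (n * (q * (c₀ * e))) *ᵥ (v : ι → K) = 0 := by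
      have h6 := congrArg q.mulVec hv1
      rw [h4, add_mulVec, mulVec_add, hqv, hqv, mulVec_zero, mulVec_mulVec, ← mul_assoc q,
        ← hnq.eq, mul_assoc] at h6
      exact h6
    have h7 : ∀ i : ℕ, (v : ι → K) = (-1 : K) ^ i • ((n * (q * (c₀ * e))) ^ i) *ᵥ (v : ι → K) := by
      intro i
      induction i with
      | zero => rw [pow_zero, pow_zero, one_smul, one_mulVec]
      | succ i ih =>
        have h8 : (v : ι → K) = - ((n * (q * (c₀ * e))) *ᵥ (v : ι → K)) := eq_neg_of_add_eq_zero_left h5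
        rw [pow_succ, pow_succ, ← mulVec_mulVec, mul_smul, neg_smul, one_smul,
          ← mulVec_neg, ← h8]
        exact ih
    have h9 := h7 j
    rw [hj, zero_mulVec, smul_zero] at h9
    exact Subtype.ext h9
  have hle := LinearMap.finrank_le_finrank_of_injective hf
  have r1 := LinearMap.finrank_range_add_finrank_ker (Matrix.toLin' (d ^ k))
  have r2 := LinearMap.finrank_range_add_finrank_ker (Matrix.toLin' ((n + d) ^ k))
  omega

end Pool.Agent.D0H89.OF
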