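import Pool.Agent.D0H89.OF.Stm

/-!
# The ring of exponential polynomials, and the splitting of the powers of a matrix
-/

set_option autoImplicit false

open Polynomial

namespace Pool.Agent.D0H89.OF

section Ring

variable (K : Type) [Field K]

/-- The ring of exponential polynomials: `single β p` stands for the function `k ↦ p(k) β ^ k`. -/
abbrev EP : Type := MonoidAlgebra K[X] Kˣ

/-- The value at the natural number `k`. -/
noncomputable def evN (k : ℕ) : EP K →ₐ[K] K :=
  MonoidAlgebra.liftNCAlgHom (Polynomial.aeval (k : K))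
    ((powMonoidHom k).comp (Units.coeHom K)) (fun _ _ => Commute.all _ _)

/-- The value at `k = ε` in the polynomials and at `k = 0` in the exponentials. -/
noncomputable def evE : EP K →ₐ[K] DualNumber K :=
  MonoidAlgebra.liftNCAlgHom (Polynomial.aeval (DualNumber.eps : DualNumber K)) 1
    (fun _ _ => Commute.all _ _)

variable {K}

theorem evN_single (k : ℕ) (β : Kˣ) (p : K[X]) :
    evN K k (MonoidAlgebra.single β p) = p.eval (k : K) * (β : K) ^ k := by
  rw [evN, MonoidAlgebra.coe_liftNCAlgHom, MonoidAlgebra.liftNC_single]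
  simp [Polynomial.coe_aeval_eq_eval]

theorem evE_single (β : Kˣ) (p : K[X]) :
    evE K (MonoidAlgebra.single β p) = Polynomial.aeval (DualNumber.eps : DualNumber K) p := by
  rw [evE, MonoidAlgebra.coe_liftNCAlgHom, MonoidAlgebra.liftNC_single]
  simp

theorem evN_eq_sum (k : ℕ) (r : EP K) :
    evN K k r = r.coeff.sum fun β p => p.eval (k : K) * (β : K) ^ k := by
  induction r using MonoidAlgebra.induction_linear with
  | zero => simp
  | add a b ha hb =>
    rw [map_add, ha, hb, MonoidAlgebra.coeff_add, Finsupp.sum_add_index']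
    · intro β; simp
    · intro β p q; rw [Polynomial.eval_add, add_mul]
  | single β p =>
    rw [evN_single, MonoidAlgebra.coeff_single, Finsupp.sum_single_index]
    simp

theorem ep_eq_zero [CharZero K] (r : EP K) (h : ∀ k, evN K k r = 0) : r = 0 := by
  classical
  have h1 : ∀ β ∈ r.coeff.support.map ⟨((↑) : Kˣ → K), Units.val_injective⟩,
      (fun b : K => if hb : b ≠ 0 then r.coeff (Units.mk0 b hb) else 0) β = 0 := by
    apply exp_poly
    · intro β hβ
      obtain ⟨u, -, rfl⟩ := Finset.mem_map.1 hβ
      exact u.ne_zero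
    · intro k
      rw [Finset.sum_map]
      refine (Finset.sum_congr rfl fun u _ => ?_).trans ((evN_eq_sum k r).symm.trans (h k))
      simp
  rw [← MonoidAlgebra.coeff_eq_zero]
  ext1 u
  by_contra hu
  have h2 := h1 u (Finset.mem_map.2 ⟨u, Finsupp.mem_support_iff.2 hu, rfl⟩)
  apply hu
  simpa using h2

end Ring

section Mat

variable {ι K : Type} [Fintype ι] [DecidableEq ι] [Field K]

/-- the base change of a matrix -/
noncomputable def em (R : Type) [CommRing R] [Algebra K R] (A : Matrix ι ι K) : Matrix ι ι R :=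
  A.map (algebraMap K R)

theorem em_mul (R : Type) [CommRing R] [Algebra K R] (A B : Matrix ι ι K) :
    em R (A * B) = em R A * em R B := Matrix.map_mul

theorem em_map {R S : Type} [CommRing R] [Algebra K R] [CommRing S] [Algebra K S] (f : R →ₐ[K] S)
    (A : Matrix ι ι K) : (em R A).map f = em S A := by
  ext i j
  simp [em]

theorem em_self (A : Matrix ι ι K) : em K A = A := by
  ext i j
  simp [em]

theorem map_aeval {R S : Type} [CommRing R] [Algebra K R] [CommRing S] [Algebra K S] (f : R →ₐ[K] S)
    (M : Matrix ι ι R) (p : K[X]) : (aeval M p).map f = aeval (M.map f) p := by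
  have h := Polynomial.aeval_algHom_apply (f.mapMatrix (m := ι)) M p
  exact h.symm

theorem gram_map {R S : Type} [CommRing R] [Algebra K R] [CommRing S] [Algebra K S] (f : R →ₐ[K] S)
    (M : Matrix ι ι R) {n : ℕ} (p q : Fin n → K[X]) : f (gram M p q) = gram (M.map f) p q := by
  rw [gram, gram, AlgHom.map_det]
  congr 1
  ext a b
  simp only [AlgHom.mapMatrix_apply, Matrix.map_apply, Matrix.of_apply]
  rw [← map_aeval f, ← map_aeval f, ← Matrix.map_mul]
  exact AddMonoidHom.map_trace (f : R →+ S) _

/-- the diagonal matrix of exponentials -/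
noncomputable def eD (ν : ι → Kˣ) : Matrix ι ι (EP K) :=
  Matrix.diagonal fun i => MonoidAlgebra.single (ν i) 1

/-- the exponential of `k N` -/
noncomputable def eN (N : Matrix ι ι K) (m : ℕ) : Matrix ι ι (EP K) :=
  ∑ j ∈ Finset.range (m + 1),
    (MonoidAlgebra.single (1 : Kˣ) (Polynomial.C ((j.factorial : K)⁻¹) * X ^ j)) • em (EP K) (N ^ j)

theorem eD_map_evN (ν : ι → Kˣ) (k : ℕ) :
    (eD ν).map (evN K k) = (Matrix.diagonal fun i => (ν i : K)) ^ k := by
  rw [eD, Matrix.diagonal_map (map_zero _), Matrix.diagonal_pow]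
  congr 1
  funext i
  simp [evN_single]

theorem eD_map_evE (ν : ι → Kˣ) : (eD ν).map (evE K) = 1 := by
  rw [eD, Matrix.diagonal_map (map_zero _), ← Matrix.diagonal_one]
  congr 1
  funext i
  simp [evE_single]

theorem eN_map_evN (N : Matrix ι ι K) (m k : ℕ) : (eN N m).map (evN K k) = exK N m (k : K) := by
  have h : (eN N m).map (evN K k) = (evN K k).mapMatrix (eN N m) := rfl
  rw [h, eN, map_sum, exK]
  refine Finset.sum_congr rfl fun j _ => ?_
  ext a b
  simp [em, evN_single]
  ring

theorem eN_map_evE (N : Matrix ι ι K) (m : ℕ) (hN : N ^ (m + 1) = 0) :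
    (eN N m).map (evE K) = 1 + (DualNumber.eps : DualNumber K) • em (DualNumber K) N := by
  have h : (eN N m).map (evE K) = (evE K).mapMatrix (eN N m) := rfl
  rw [h, eN, map_sum]
  have h1 : ∀ j : ℕ, (evE K).mapMatrix ((MonoidAlgebra.single (1 : Kˣ)
      (Polynomial.C ((j.factorial : K)⁻¹) * X ^ j)) • em (EP K) (N ^ j)) =
      (algebraMap K (DualNumber K) ((j.factorial : K)⁻¹) * (DualNumber.eps : DualNumber K) ^ j) •
        em (DualNumber K) (N ^ j) := by
    intro j
    refine Matrix.ext fun a b => ?_
    simp only [AlgHom.mapMatrix_apply, Matrix.map_apply, Matrix.smul_apply, smul_eq_mul, map_mul,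
      evE_single, em, AlgHom.commutes, Polynomial.aeval_C, map_pow, Polynomial.aeval_X]
  simp only [h1]
  rcases Nat.eq_zero_or_pos m with rfl | hm
  · rw [zero_add, pow_one] at hN
    subst hN
    simp [em]
  · have hsub : Finset.range 2 ⊆ Finset.range (m + 1) := Finset.range_subset_range.2 (by omega)
    rw [← Finset.sum_subset hsub]
    · rw [Finset.sum_range_succ, Finset.sum_range_one]
      simp [em]
    · intro j _ hj
      have hj2 : 2 ≤ j := by
        rw [Finset.mem_range] at hj
        omega
      have : (DualNumber.eps : DualNumber K) ^ j = 0 := by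
        obtain ⟨i, rfl⟩ := Nat.exists_eq_add_of_le hj2
        rw [pow_add, pow_two, DualNumber.eps_mul_eps, zero_mul]
      rw [this, mul_zero, zero_smul]

/-- **Splitting, determinants.** -/
theorem split_gram [CharZero K] (A B P P' : Matrix ι ι K) (ν : ι → Kˣ) (N : Matrix ι ι K) (m : ℕ)
    (hN : N ^ (m + 1) = 0) {n : ℕ} (p q : Fin n → K[X])
    (h : ∀ k : ℕ, gram (A * (P * ((Matrix.diagonal fun i => (ν i : K)) ^ k * exK N m (k : K)) * P') * B)
      p q = 0) :
    gram (em (DualNumber K) A * (em (DualNumber K) P *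
      (1 + (DualNumber.eps : DualNumber K) • em (DualNumber K) N) * em (DualNumber K) P') *
        em (DualNumber K) B) p q = 0 := by
  have h0 : gram (em (EP K) A * (em (EP K) P * (eD ν * eN N m) * em (EP K) P') * em (EP K) B) p q
      = 0 := by
    apply ep_eq_zero
    intro k
    rw [gram_map, ← h k]
    congr 1
    simp only [Matrix.map_mul, em_map, em_self, eD_map_evN, eN_map_evN]
  have h1 := congrArg (evE K) h0
  rw [gram_map, map_zero] at h1
  rw [← h1]
  congr 1
  simp only [Matrix.map_mul, em_map, eD_map_evE, eN_map_evE N m hN, one_mul]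

/-- The extension of a linear functional on matrices. -/
noncomputable def fx (φ : Matrix ι ι K →ₗ[K] K) {R : Type} [CommRing R] [Algebra K R]
    (M : Matrix ι ι R) : R :=
  ∑ i, ∑ j, algebraMap K R (φ (Matrix.single i j 1)) * M i j

theorem fx_map (φ : Matrix ι ι K →ₗ[K] K) {R S : Type} [CommRing R] [Algebra K R] [CommRing S]
    [Algebra K S] (f : R →ₐ[K] S) (M : Matrix ι ι R) : f (fx φ M) = fx φ (M.map f) := by
  simp [fx, map_sum, map_mul]

theorem fx_self (φ : Matrix ι ι K →ₗ[K] K) (M : Matrix ι ι K) : fx φ M = φ M := by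
  conv_rhs => rw [Matrix.matrix_eq_sum_single M]
  simp only [fx, map_sum, Algebra.algebraMap_self, RingHom.id_apply]
  refine Finset.sum_congr rfl fun i _ => Finset.sum_congr rfl fun j _ => ?_
  have : Matrix.single i j (M i j) = M i j • Matrix.single i j (1 : K) := by
    rw [Matrix.smul_single, smul_eq_mul, mul_one]
  rw [this, map_smul, smul_eq_mul, mul_comm]

theorem snd_fx (φ : Matrix ι ι K →ₗ[K] K) (M : Matrix ι ι (DualNumber K)) :
    (fx φ M).snd = φ (M.map TrivSqZeroExt.snd) := by
  rw [← fx_self φ]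
  simp only [fx]
  rw [TrivSqZeroExt.snd_sum]
  refine Finset.sum_congr rfl fun i _ => ?_
  rw [TrivSqZeroExt.snd_sum]
  refine Finset.sum_congr rfl fun j _ => ?_
  simp [TrivSqZeroExt.algebraMap_eq_inl]

/-- **Splitting, linear functionals.** -/
theorem split_lin [CharZero K] (φ : Matrix ι ι K →ₗ[K] K) (A A' Z P P' : Matrix ι ι K) (ν : ι → Kˣ)
    (N : Matrix ι ι K) (m : ℕ) (hN : N ^ (m + 1) = 0)
    (h : ∀ k : ℕ, φ (A * (P * ((Matrix.diagonal fun i => (ν i : K)) ^ k * exK N m (k : K)) * P') * A' *
      Z * (A * (P * (exK (-N) m (k : K) * (Matrix.diagonal fun i => ((ν i)⁻¹ : Kˣ).val) ^ k) * P') * A'))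
        = 0) :
    fx φ (em (DualNumber K) A * (em (DualNumber K) P *
      (1 + (DualNumber.eps : DualNumber K) • em (DualNumber K) N) * em (DualNumber K) P') *
        em (DualNumber K) A' * em (DualNumber K) Z * (em (DualNumber K) A * (em (DualNumber K) P *
      (1 + (DualNumber.eps : DualNumber K) • em (DualNumber K) (-N)) * em (DualNumber K) P') *
        em (DualNumber K) A')) = 0 := by
  have hN' : (-N) ^ (m + 1) = 0 := by
    rw [neg_pow, hN, mul_zero]
  have h0 : fx φ (em (EP K) A * (em (EP K) P * (eD ν * eN N m) * em (EP K) P') * em (EP K) A' *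
      em (EP K) Z * (em (EP K) A * (em (EP K) P * (eN (-N) m * eD fun i => (ν i)⁻¹) * em (EP K) P') *
        em (EP K) A')) = 0 := by
    apply ep_eq_zero
    intro k
    rw [fx_map, fx_self, ← h k]
    congr 1
    simp only [Matrix.map_mul, em_map, em_self, eD_map_evN, eN_map_evN]
  have h1 := congrArg (evE K) h0
  rw [fx_map, map_zero] at h1
  rw [← h1]
  congr 1
  simp only [Matrix.map_mul, em_map, eD_map_evE, eN_map_evE N m hN, eN_map_evE (-N) m hN', one_mul,
    mul_one]

end Mat

end Pool.Agent.D0H89.OF
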